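import Mathlib

section
/-! Helson zeta functions with a prescribed growth exponent: definitions and steps. -/

set_option autoImplicit false

open Complex MeasureTheory Filter Set

namespace Pool.Agent.MP_d232b3_nt.Hz

/-- the primes in `[4 ^ m, 4 ^ (m + 1))` -/
def blk (m : ℕ) : Finset ℕ := (Finset.Ico (4 ^ m) (4 ^ (m + 1))).filter Nat.Prime

/-- `p ^ (i θ)` -/
noncomputable def ph (θ : ℝ) (p : ℕ) : ℂ := cexp ((θ * Real.log p : ℝ) * I)

/-- initial sums of `p ^ (i θ)` over a set -/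
noncomputable def ZZ (S : Finset ℕ) (θ : ℝ) (x : ℕ) : ℂ := ∑ p ∈ S.filter (· < x), ph θ p

def kp (m : ℕ) : ℕ := 2 * m + 2

noncomputable def gb (m r : ℕ) : ℝ := 5 * √(((r : ℝ) + kp m) * 4 ^ (m + 1))

noncomputable def BB (m r : ℕ) : ℝ := min (4 ^ (m + 1)) (gb m r)

noncomputable def ww (σ : ℝ) (r m : ℕ) : ℝ := kp m * (4 : ℝ) ^ (-(m * σ)) * BB m r

noncomputable def D0 (c : ℕ → ℂ) (S : Finset ℕ) (s : ℂ) : ℂ := ∑ p ∈ S, c p * (p : ℂ) ^ (-s)

noncomputable def D1 (c : ℕ → ℂ) (S : Finset ℕ) (s : ℂ) : ℂ :=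
  ∑ p ∈ S, (Real.log p : ℝ) * (c p * (p : ℂ) ^ (-s))

def rr (m R : ℕ) : ℕ := 2 + 3 * kp m * (R + kp m)

noncomputable def ee (m n : ℕ) (σ : ℝ) : ℝ := kp m * (4 : ℝ) ^ (-(m * σ)) * n

noncomputable def al (m n : ℕ) (σ : ℝ) : ℝ := Real.log (4 ^ m) * (4 : ℝ) ^ (-((m + 1) * σ)) * n

noncomputable def dl (j : ℕ) : ℝ := 1 / (j + 2)

noncomputable def ex (m n R : ℕ → ℕ) (σ : ℝ) (r j : ℕ) : ℝ :=
  if R j < r then ee (m j) (n j) σ else 0

noncomputable def fx (m n R : ℕ → ℕ) (σ : ℝ) (r : ℕ) : ℕ → ℝ :=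
  Function.extend m (ex m n R σ r) fun _ => 0

noncomputable def LL (c : ℕ → ℂ) (m : ℕ) (s : ℂ) : ℂ :=
  ∑ p ∈ blk m, -log (1 - c p * (p : ℂ) ^ (-s))

noncomputable def FF (c : ℕ → ℂ) (s : ℂ) : ℂ := cexp (∑' m, LL c m s)

noncomputable def qq (σ : ℝ) (m : ℕ) : ℝ := 16 * kp m * (4 : ℝ) ^ (m * (1 - 2 * σ))

structure Plan (ν : ℝ → ℝ) (m n R : ℕ → ℕ) : Prop where
  mono : StrictMono m
  card : ∀ j, n j ≤ (blk (m j)).card
  big : ∀ j, 2 ^ j ≤ R j
  later : ∀ i j, j < i → rr (m j) (R j) ≤ R i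
  up : ∀ σ ∈ Ioo (1 / 2 : ℝ) 1, ∀ j, ee (m j) (n j) σ ≤ (R j : ℝ) ^ (ν σ + 2 * dl j)
  low : ∀ σ ∈ Ioo (1 / 2 : ℝ) 1, ∀ a : ℝ, 0 ≤ a → a < ν σ → ∀ C : ℝ, ∃ j,
    C ≤ rr (m j) (R j) ∧ C * (rr (m j) (R j) : ℝ) ^ a + 4 * ∑' k, ww σ (rr (m j) (R j)) k
      + 2 * ∑ i ∈ Finset.range j, ee (m i) (n i) σ ≤ al (m j) (n j) σ

def SMom : Prop := ∀ (S : Finset ℕ) (Y k : ℕ) (T τ : ℝ), (∀ p ∈ S, p.Prime ∧ p < Y) → 1 ≤ k →
  2 * (Y : ℝ) ^ (3 * k) ≤ T →
  ∫ t in T..2 * T, ‖∑ p ∈ S, ph (t - τ) p‖ ^ (2 * k) ≤ 2 * T * ((k : ℝ) * Y) ^ k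

def SGen : Prop := ∀ (S : Finset ℕ) (m R : ℕ) (T : ℝ), S ⊆ blk m →
  2 * ((4 : ℝ) ^ (m + 1)) ^ (3 * (R + kp m)) ≤ T →
  ∃ t ∈ Icc T (2 * T), ∀ r ≤ R, ∀ τ : ℝ, |τ| ≤ 2 ^ r → ∀ x, ‖ZZ S (t - τ) x‖ ≤ gb m r

def SAbel : Prop := ∀ (S : Finset ℕ) (m : ℕ) (c : ℕ → ℂ) (θ M : ℝ) (s : ℂ), S ⊆ blk m →
  (∀ p ∈ S, c p = ph θ p) → 0 ≤ s.re → (∀ x, ‖ZZ S (θ - s.im) x‖ ≤ M) →
  ‖D0 c S s‖ ≤ 2 * (kp m * (4 : ℝ) ^ (-(m * s.re)) * M) ∧
    ‖D1 c S s‖ ≤ 2 * (kp m * (4 : ℝ) ^ (-(m * s.re)) * M)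

def SW : Prop := ∀ ε : ℝ, 0 < ε → ∃ C : ℝ, 0 ≤ C ∧ ∀ σ : ℝ, 1 / 2 + ε ≤ σ → σ ≤ 1 →
  ∀ r : ℕ, 1 ≤ r → Summable (ww σ r) ∧ ∑' m, ww σ r m ≤ C * (r : ℝ) ^ (1 - σ + ε)

def SLines : Prop := ∀ ν : ℝ → ℝ, ConvexOn ℝ (Ioo (1 / 2) 1) ν →
  (∀ σ ∈ Ioo (1 / 2 : ℝ) 1, 1 - σ ≤ ν σ ∧ ν σ ≤ 2 - 2 * σ) →
  ∃ u b : ℕ → ℝ, (∀ j, 0 < b j ∧ b j ≤ u j) ∧
    (∀ j, ∀ σ ∈ Ioo (1 / 2 : ℝ) 1, b j - u j * σ ≤ ν σ + dl j) ∧
    ∀ σ ∈ Ioo (1 / 2 : ℝ) 1, ∀ a : ℝ, a < ν σ →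
      ∃ᶠ j in atTop, a ≤ b j - u j * σ ∧ 1 - σ + dl j ^ 2 ≤ b j - u j * σ

def SCnt : Prop := ∀ᶠ m : ℕ in atTop, (4 : ℝ) ^ m ≤ 4 * (m + 1) * (blk m).card

def SStep : Prop := ∀ u b δ η M : ℝ, 0 < b → b ≤ u → 0 < δ → 0 < η → ∀ N : ℕ, ∃ m n R : ℕ,
  N ≤ m ∧ N ≤ R ∧ n ≤ (blk m).card ∧
  (∀ σ e : ℝ, 0 ≤ e → b - u * σ ≤ e → ee m n σ ≤ (R : ℝ) ^ (e + δ)) ∧
  ∀ σ e : ℝ, 0 ≤ σ → σ ≤ 1 → 0 ≤ e → e + η ≤ b - u * σ → M * (rr m R : ℝ) ^ e ≤ al m n σ

def SPlan : Prop := ∀ ν : ℝ → ℝ, ConvexOn ℝ (Ioo (1 / 2) 1) ν →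
  (∀ σ ∈ Ioo (1 / 2 : ℝ) 1, 1 - σ ≤ ν σ ∧ ν σ ≤ 2 - 2 * σ) → ∃ m n R, Plan ν m n R

def SEx : Prop := ∀ (ν : ℝ → ℝ) (m n R : ℕ → ℕ), Plan ν m n R → ∀ σ ∈ Ioo (1 / 2 : ℝ) 1,
  0 ≤ ν σ → (∀ ε : ℝ, 0 < ε → ∃ C : ℝ, ∀ r : ℕ, 1 ≤ r →
    Summable (fx m n R σ r) ∧ ∑' k, fx m n R σ r k ≤ C * (r : ℝ) ^ (ν σ + ε)) ∧
  ∀ j, ∑' k, (if k = m j then 0 else fx m n R σ (rr (m j) (R j)) k)
    ≤ ∑ i ∈ Finset.range j, ee (m i) (n i) σ

def SBuild : Prop := ∀ m n R : ℕ → ℕ, StrictMono m → (∀ j, n j ≤ (blk (m j)).card) →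
  ∃ (c : ℕ → ℂ) (a : ℕ → ℝ), (∀ p, ‖c p‖ = 1) ∧
    (∀ j, 2 ^ rr (m j) (R j) ≤ 2 * a j ∧ a j ≤ 2 ^ rr (m j) (R j)) ∧
    (∀ (σ : ℝ) (r : ℕ) (s : ℂ), 0 ≤ σ → σ ≤ s.re → |s.im| ≤ 2 ^ r → ∀ k,
      ‖D0 c (blk k) s‖ ≤ 4 * ww σ r k + 2 * fx m n R σ r k ∧
        ‖D1 c (blk k) s‖ ≤ 4 * ww σ r k + 2 * fx m n R σ r k) ∧
    ∀ (j : ℕ) (σ : ℝ), 0 ≤ σ →
      al (m j) (n j) σ - 2 * ww σ (rr (m j) (R j)) (m j) ≤ ‖D1 c (blk (m j)) (σ + a j * I)‖

def SLoc : Prop := (∀ σ : ℝ, 1 / 2 < σ → Summable (qq σ)) ∧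
  ∀ c : ℕ → ℂ, (∀ p, ‖c p‖ = 1) → ∀ (σ : ℝ) (m : ℕ) (s : ℂ), 1 / 2 ≤ σ → σ ≤ s.re →
    DifferentiableAt ℂ (LL c m) s ∧ ‖LL c m s - D0 c (blk m) s‖ ≤ qq σ m ∧
      ‖deriv (LL c m) s + D1 c (blk m) s‖ ≤ qq σ m

def SEul : Prop := ∀ c : ℕ → ℂ, (∀ p, ‖c p‖ = 1) → ∃ χ : ℕ →*₀ ℂ, (∀ n ≠ 0, ‖χ n‖ = 1) ∧
  ∀ s : ℂ, 1 < s.re → FF c s = LSeries χ s

def SAn : Prop := ∀ c : ℕ → ℂ, (∀ p, ‖c p‖ = 1) →
  (∀ σ : ℝ, 1 / 2 < σ → ∀ r : ℕ, ∃ u : ℕ → ℝ, Summable u ∧ ∀ (m : ℕ) (s : ℂ), σ ≤ s.re →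
    |s.im| ≤ 2 ^ r → ‖D0 c (blk m) s‖ ≤ u m ∧ ‖D1 c (blk m) s‖ ≤ u m) →
  DifferentiableOn ℂ (FF c) {s | 1 / 2 < s.re} ∧ ∀ σ : ℝ, 1 / 2 < σ → ∃ C : ℝ, ∀ s : ℂ,
    σ ≤ s.re → |Real.log ‖FF c s‖| ≤ ‖∑' m, D0 c (blk m) s‖ + C ∧
      ‖logDeriv (FF c) s + ∑' m, D1 c (blk m) s‖ ≤ C

/-! ### small facts -/

theorem mem_blk {m p : ℕ} : p ∈ blk m ↔ (4 ^ m ≤ p ∧ p < 4 ^ (m + 1)) ∧ p.Prime := by
  simp [blk]

theorem mem_blk_log {m p : ℕ} : p ∈ blk m ↔ p.Prime ∧ Nat.log 4 p = m := by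
  rw [mem_blk]
  constructor
  · rintro ⟨h, hp⟩
    exact ⟨hp, Nat.log_eq_of_pow_le_of_lt_pow h.1 h.2⟩
  · rintro ⟨hp, rfl⟩
    exact ⟨⟨Nat.pow_log_le_self 4 hp.ne_zero, Nat.lt_pow_succ_log_self (by norm_num) p⟩, hp⟩

theorem card_blk_le (m : ℕ) : (blk m).card ≤ 4 ^ (m + 1) :=
  (Finset.card_filter_le _ _).trans (by simp)

theorem norm_ph (θ : ℝ) (p : ℕ) : ‖ph θ p‖ = 1 := norm_exp_ofReal_mul_I _

theorem ph_zero (p : ℕ) : ph 0 p = 1 := by simp [ph]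

theorem two_le_kp (m : ℕ) : 2 ≤ kp m := by unfold kp; omega

theorem four_pow_eq (m : ℕ) : 4 ^ (m + 1) = 2 ^ kp m := by
  rw [kp, show 2 * m + 2 = 2 * (m + 1) by ring, pow_mul]; norm_num

theorem log_four_pow_le (m : ℕ) : Real.log (4 ^ (m + 1)) ≤ kp m := by
  have h : (4 : ℝ) ^ (m + 1) = 2 ^ kp m := by exact_mod_cast four_pow_eq m
  rw [h, Real.log_pow]
  have := Real.log_two_lt_d9
  have : (0 : ℝ) ≤ kp m := Nat.cast_nonneg _
  nlinarith

theorem norm_ZZ_le (S : Finset ℕ) (θ : ℝ) (x : ℕ) : ‖ZZ S θ x‖ ≤ S.card := by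
  refine (norm_sum_le _ _).trans ?_
  simp only [norm_ph, Finset.sum_const, nsmul_eq_mul, mul_one, Nat.cast_le]
  exact Finset.card_filter_le _ _

/-- a term splits into modulus and phase -/
theorem ph_mul_cpow (θ : ℝ) {p : ℕ} (hp : p ≠ 0) (s : ℂ) :
    ph θ p * (p : ℂ) ^ (-s) = (((p : ℝ) ^ (-s.re) : ℝ) : ℂ) * ph (θ - s.im) p := by
  have hp' : (0 : ℝ) < p := by positivity
  rw [cpow_def_of_ne_zero (by exact_mod_cast hp), Real.rpow_def_of_pos hp', ofReal_exp, ph, ph,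
    ← Complex.exp_add, ← Complex.exp_add, ← natCast_log]
  congr 1
  conv_lhs => rw [← re_add_im s]
  push_cast
  ring

theorem BB_nonneg (m r : ℕ) : 0 ≤ BB m r := le_min (by positivity) (by unfold gb; positivity)

theorem ww_nonneg (σ : ℝ) (r m : ℕ) : 0 ≤ ww σ r m :=
  mul_nonneg (by positivity) (BB_nonneg m r)

theorem ee_nonneg (m n : ℕ) (σ : ℝ) : 0 ≤ ee m n σ := by unfold ee; positivity

theorem ex_nonneg (m n R : ℕ → ℕ) (σ : ℝ) (r j : ℕ) : 0 ≤ ex m n R σ r j := by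
  unfold ex; split_ifs
  exacts [ee_nonneg _ _ _, le_rfl]

theorem fx_apply {m : ℕ → ℕ} (h : StrictMono m) (n R : ℕ → ℕ) (σ : ℝ) (r j : ℕ) :
    fx m n R σ r (m j) = ex m n R σ r j := h.injective.extend_apply _ _ _

theorem fx_of_not {m : ℕ → ℕ} (n R : ℕ → ℕ) (σ : ℝ) (r : ℕ) {k : ℕ} (h : ¬ ∃ j, m j = k) :
    fx m n R σ r k = 0 := Function.extend_apply' _ _ _ h

theorem fx_nonneg {m : ℕ → ℕ} (h : StrictMono m) (n R : ℕ → ℕ) (σ : ℝ) (r k : ℕ) :
    0 ≤ fx m n R σ r k := by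
  by_cases e : ∃ j, m j = k
  · obtain ⟨j, rfl⟩ := e
    rw [fx_apply h]; exact ex_nonneg _ _ _ _ _ _
  · rw [fx_of_not _ _ _ _ e]

theorem dl_pos (j : ℕ) : 0 < dl j := by unfold dl; positivity

theorem dl_tendsto : Tendsto dl atTop (nhds 0) :=
  (tendsto_atTop_add_const_right _ 2 tendsto_natCast_atTop_atTop).const_div_atTop 1

end Pool.Agent.MP_d232b3_nt.Hz

end

section
set_option autoImplicit false

open Complex MeasureTheory Filter Set

namespace Pool.Agent.MP_d232b3_nt.Hz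

theorem sq_Mom {ι : Type*} (F : Finset ι) (L : ι → ℝ) :
    ‖∑ f ∈ F, cexp (L f * I)‖ ^ 2 = ∑ f ∈ F, ∑ g ∈ F, Real.cos (L f - L g) := by
  rw [Complex.sq_norm, normSq_apply, re_sum, im_sum, Finset.sum_mul_sum, Finset.sum_mul_sum,
    ← Finset.sum_add_distrib]
  refine Finset.sum_congr rfl fun f _ => ?_
  rw [← Finset.sum_add_distrib]
  refine Finset.sum_congr rfl fun g _ => ?_
  simp only [exp_ofReal_mul_I_re, exp_ofReal_mul_I_im, Real.cos_sub]

theorem int_Mom (T τ c : ℝ) (hc : c ≠ 0) :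
    ∫ t in T..2 * T, Real.cos ((t - τ) * c) ≤ 2 / |c| := by
  rw [intervalIntegral.integral_eq_sub_of_hasDerivAt (f := fun t => Real.sin ((t - τ) * c) / c)
    (fun t _ => by
      have h := ((((hasDerivAt_id t).sub_const τ).mul_const c).sin).div_const c
      simpa [hc] using h) (Continuous.intervalIntegrable (by fun_prop) _ _), ← sub_div]
  refine (le_abs_self _).trans ?_
  rw [abs_div]
  refine div_le_div_of_nonneg_right ((abs_sub _ _).trans ?_) (abs_nonneg _)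
  linarith [Real.abs_sin_le_one ((2 * T - τ) * c), Real.abs_sin_le_one ((T - τ) * c)]

theorem log_Mom {a b : ℕ} {Z : ℝ} (hb : 0 < b) (hab : b < a) (ha : (a : ℝ) ≤ Z) :
    1 / Z ≤ Real.log a - Real.log b := by
  have hb' : (0 : ℝ) < b := by exact_mod_cast hb
  have hab' : (b : ℝ) + 1 ≤ a := by exact_mod_cast hab
  have ha' : (0 : ℝ) < a := by linarith
  have h := Real.log_le_sub_one_of_pos (div_pos hb' ha')
  rw [Real.log_div hb'.ne' ha'.ne'] at h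
  have h2 : 1 / (a : ℝ) ≤ 1 - b / a := by
    rw [le_sub_iff_add_le, ← add_div, div_le_one ha']
    linarith
  linarith [one_div_le_one_div_of_le ha' ha]

theorem sMom : SMom := by
  classical
  intro S Y k T τ hS hk hT
  obtain ⟨F, hF⟩ : ∃ F, F = Fintype.piFinset fun _ : Fin k => S := ⟨_, rfl⟩
  have hY0 : (0 : ℝ) ≤ Y := Nat.cast_nonneg _
  have hT0 : 0 ≤ T := le_trans (by positivity) hT
  have hm : ∀ f ∈ F, ∀ i, (f i).Prime ∧ f i < Y := fun f hf i =>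
    hS _ (Fintype.mem_piFinset.1 (hF ▸ hf) i)
  have hpos : ∀ f ∈ F, 0 < ∏ i, f i := fun f hf => Finset.prod_pos fun i _ => (hm f hf i).1.pos
  have hle : ∀ f ∈ F, ((∏ i, f i : ℕ) : ℝ) ≤ (Y : ℝ) ^ k := fun f hf => by
    have := Finset.prod_le_pow_card Finset.univ f Y fun i _ => (hm f hf i).2.le
    rw [Finset.card_univ, Fintype.card_fin] at this
    exact_mod_cast this
  have hc : (F.card : ℝ) ≤ (Y : ℝ) ^ k := by
    have h1 : S.card ≤ Y := by
      simpa using Finset.card_le_card (t := Finset.range Y) fun p hp => Finset.mem_range.2 (hS p hp).2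
    rw [hF, Fintype.card_piFinset, Finset.prod_const, Finset.card_univ, Fintype.card_fin]
    exact_mod_cast Nat.pow_le_pow_left h1 k
  have e : ∀ t : ℝ, ‖∑ p ∈ S, ph (t - τ) p‖ ^ (2 * k) = ∑ f ∈ F, ∑ g ∈ F,
      Real.cos ((t - τ) * (Real.log (∏ i, f i : ℕ) - Real.log (∏ i, g i : ℕ))) := by
    intro t
    have h1 : (∑ p ∈ S, ph (t - τ) p) ^ k =
        ∑ f ∈ F, cexp (((t - τ) * Real.log (∏ i, f i : ℕ) : ℝ) * I) := by
      rw [Finset.sum_pow', ← hF]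
      refine Finset.sum_congr rfl fun f hf => ?_
      simp only [ph]
      rw [← Complex.exp_sum, ← Finset.sum_mul, ← ofReal_sum, ← Finset.mul_sum, Nat.cast_prod,
        Real.log_prod fun i _ => by exact_mod_cast (hm f hf i).1.ne_zero]
    rw [pow_mul', ← norm_pow, h1, sq_Mom]
    simp only [mul_sub]
  simp only [e]
  rw [intervalIntegral.integral_finsetSum fun f _ => Continuous.intervalIntegrable (by fun_prop) _ _]
  have key : ∀ f ∈ F, ∫ t in T..2 * T, ∑ g ∈ F,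
      Real.cos ((t - τ) * (Real.log (∏ i, f i : ℕ) - Real.log (∏ i, g i : ℕ))) ≤
      T * (k : ℝ) ^ k + (Y : ℝ) ^ k * (2 * (Y : ℝ) ^ k) := by
    intro f hf
    rw [intervalIntegral.integral_finsetSum fun g _ =>
      Continuous.intervalIntegrable (by fun_prop) _ _]
    calc _ ≤ ∑ g ∈ F, ((if ∏ i, g i = ∏ i, f i then T else 0) + 2 * (Y : ℝ) ^ k) := by
          refine Finset.sum_le_sum fun g hg => ?_
          split_ifs with h
          · simp only [h, sub_self, mul_zero, Real.cos_zero, intervalIntegral.integral_const,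
              smul_eq_mul, mul_one]
            have : 0 ≤ (Y : ℝ) ^ k := by positivity
            linarith
          · have h1 : 1 / (Y : ℝ) ^ k ≤ |Real.log (∏ i, f i : ℕ) - Real.log (∏ i, g i : ℕ)| := by
              rcases lt_or_gt_of_ne h with h2 | h2
              · exact (log_Mom (hpos g hg) h2 (hle f hf)).trans (le_abs_self _)
              · rw [abs_sub_comm]
                exact (log_Mom (hpos f hf) h2 (hle g hg)).trans (le_abs_self _)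
            have h2 : (0 : ℝ) < (Y : ℝ) ^ k :=
              lt_of_lt_of_le (by exact_mod_cast hpos f hf) (hle f hf)
            have h3 := (one_div_pos.2 h2).trans_le h1
            refine (int_Mom T τ _ (abs_pos.1 h3)).trans ?_
            rw [zero_add, div_le_iff₀ h3, mul_assoc]
            rw [div_le_iff₀' h2] at h1
            linarith
      _ ≤ _ := by
          rw [Finset.sum_add_distrib, ← Finset.sum_filter, Finset.sum_const, Finset.sum_const,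
            nsmul_eq_mul, nsmul_eq_mul, mul_comm T]
          refine add_le_add (mul_le_mul_of_nonneg_right ?_ hT0)
            (mul_le_mul_of_nonneg_right hc (by positivity))
          have h1 : (F.filter fun g => ∏ i, g i = ∏ i, f i).card ≤
              (Fintype.piFinset fun _ : Fin k => Finset.univ.image f).card := by
            refine Finset.card_le_card fun g hg => Fintype.mem_piFinset.2 fun i => ?_
            obtain ⟨h2, h3⟩ := Finset.mem_filter.1 hg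
            obtain ⟨j, -, hj⟩ := ((hm g h2 i).1.prime.dvd_finsetProd_iff _).1
              (h3 ▸ Finset.dvd_prod_of_mem g (Finset.mem_univ i))
            exact Finset.mem_image.2 ⟨j, Finset.mem_univ _,
              ((Nat.prime_dvd_prime_iff_eq (hm g h2 i).1 (hm f hf j).1).1 hj).symm⟩
          rw [Fintype.card_piFinset, Finset.prod_const, Finset.card_univ, Fintype.card_fin] at h1
          have h2 : (Finset.univ.image f).card ≤ k := Finset.card_image_le.trans (by simp)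
          exact_mod_cast h1.trans (Nat.pow_le_pow_left h2 k)
  refine (Finset.sum_le_card_nsmul _ _ _ key).trans ?_
  rw [nsmul_eq_mul]
  refine (mul_le_mul_of_nonneg_right hc (by positivity)).trans ?_
  rcases Nat.eq_zero_or_pos Y with rfl | hY
  · simp [show k ≠ 0 by omega]
  have h1 : (1 : ℝ) ≤ ((k : ℝ) * Y) ^ k :=
    one_le_pow₀ (by exact_mod_cast Nat.mul_pos hk hY)
  have h2 := mul_le_mul_of_nonneg_left h1 hT0
  rw [pow_mul'] at hT
  rw [mul_pow] at h2 ⊢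
  nlinarith

end Pool.Agent.MP_d232b3_nt.Hz

end

section
/-! A generic height at which all initial sums are small. -/

set_option autoImplicit false

open Complex MeasureTheory Filter Set

namespace Pool.Agent.MP_d232b3_nt.Hz

theorem avg_Gen {ι : Type} (J : Finset ι) (f : ι → ℝ → ℝ) (hc : ∀ i, Continuous (f i))
    (h0 : ∀ i t, 0 ≤ f i t) {T : ℝ} (hT : 0 < T) (h : ∑ i ∈ J, ∫ t in T..2 * T, f i t < T) :
    ∃ t ∈ Icc T (2 * T), ∀ i ∈ J, f i t < 1 := by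
  by_contra hn
  push Not at hn
  rw [← intervalIntegral.integral_finsetSum fun i _ => (hc i).intervalIntegrable _ _] at h
  have h1 : ∫ _ in T..2 * T, (1 : ℝ) ≤ ∫ t in T..2 * T, ∑ i ∈ J, f i t := by
    refine intervalIntegral.integral_mono_on (by linarith) intervalIntegrable_const
      ((continuous_finsetSum J fun i _ => hc i).intervalIntegrable _ _) fun t ht => ?_
    obtain ⟨i, hi, h2⟩ := hn t ht
    exact h2.trans (Finset.single_le_sum (f := fun i => f i t) (fun j _ => h0 j t) hi)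
  rw [intervalIntegral.integral_const, smul_eq_mul] at h1
  linarith

theorem ph_lip_Gen (a b : ℝ) (p : ℕ) : ‖ph a p - ph b p‖ ≤ |a - b| * Real.log p := by
  have e : ph a p - ph b p = ph b p * (cexp (I * ((a - b) * Real.log p : ℝ)) - 1) := by
    rw [mul_sub, mul_one, ph, ph, ← Complex.exp_add]
    congr 2
    push_cast
    ring
  rw [e, norm_mul, norm_ph, one_mul]
  refine Real.norm_exp_I_mul_ofReal_sub_one_le.trans ?_
  rw [Real.norm_eq_abs, abs_mul, abs_of_nonneg (Real.log_natCast_nonneg p)]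

theorem ZZ_lip_Gen {S : Finset ℕ} {m : ℕ} (hS : S ⊆ blk m) (a b : ℝ) (x : ℕ)
    (h : |a - b| * 4 ^ (m + 1) ≤ 1) : ‖ZZ S a x - ZZ S b x‖ ≤ kp m := by
  rw [ZZ, ZZ, ← Finset.sum_sub_distrib]
  refine (norm_sum_le _ _).trans ?_
  have h1 : ∀ p ∈ S.filter (· < x), ‖ph a p - ph b p‖ ≤ |a - b| * kp m := fun p hp => by
    obtain ⟨⟨-, h2⟩, h3⟩ := mem_blk.1 (hS (Finset.mem_filter.1 hp).1)
    refine (ph_lip_Gen a b p).trans (mul_le_mul_of_nonneg_left ?_ (abs_nonneg _))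
    refine le_trans (Real.log_le_log (by exact_mod_cast h3.pos) ?_) (log_four_pow_le m)
    exact_mod_cast h2.le
  refine (Finset.sum_le_card_nsmul _ _ _ h1).trans ?_
  have h2 : ((S.filter (· < x)).card : ℝ) ≤ 4 ^ (m + 1) := by
    exact_mod_cast (Finset.card_filter_le _ _).trans
      ((Finset.card_le_card hS).trans (card_blk_le m))
  have h3 : (0 : ℝ) ≤ kp m := Nat.cast_nonneg _
  rw [nsmul_eq_mul]
  calc _ ≤ 4 ^ (m + 1) * (|a - b| * kp m) := by gcongr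
    _ = |a - b| * 4 ^ (m + 1) * kp m := by ring
    _ ≤ 1 * kp m := by gcongr
    _ = _ := one_mul _

theorem ZZ_cont_Gen (S : Finset ℕ) (τ : ℝ) (x : ℕ) : Continuous fun t : ℝ => ZZ S (t - τ) x := by
  unfold ZZ ph
  fun_prop

theorem geo_Gen (n : ℕ) : ∑ r ∈ Finset.range n, (1 / 8 : ℝ) ^ r ≤ 8 / 7 := by
  rw [geom_sum_eq (by norm_num)]
  have : (0 : ℝ) ≤ (1 / 8) ^ n := by positivity
  rw [div_le_iff_of_neg (by norm_num)]
  linarith

theorem sGen (hM : SMom) : SGen := by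
  intro S m R T hS hT
  obtain ⟨Y, hY⟩ : ∃ Y : ℕ, Y = 4 ^ (m + 1) := ⟨_, rfl⟩
  have hYR : (4 : ℝ) ^ (m + 1) = Y := by rw [hY]; push_cast; rfl
  have hY2 : (Y : ℝ) = 2 ^ kp m := by rw [hY, four_pow_eq]; push_cast; rfl
  have hY4 : (4 : ℝ) ≤ Y := by
    rw [← hYR]
    exact le_self_pow₀ (by norm_num) (by omega)
  have hY0 : (0 : ℝ) < Y := by linarith
  rw [hYR] at hT
  have hT0 : 0 < T := lt_of_lt_of_le (by positivity) hT
  have hk : ∀ r : ℕ, (0 : ℝ) < (r + kp m : ℕ) := fun r => by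
    have := two_le_kp m
    exact_mod_cast (by omega : 0 < r + kp m)
  let f : (Σ _ : ℕ, ℤ × ℕ) → ℝ → ℝ := fun i t =>
    ‖ZZ S (t - i.2.1 / Y) i.2.2‖ ^ (2 * (i.1 + kp m)) /
      (16 * (((i.1 + kp m : ℕ) : ℝ) * Y)) ^ (i.1 + kp m)
  have hint : ∀ r ≤ R, ∀ q : ℤ × ℕ,
      ∫ t in T..2 * T, f ⟨r, q⟩ t ≤ 2 * T / (16 ^ r * Y ^ 4) := fun r hr q => by
    have h1 := hM (S.filter (· < q.2)) Y (r + kp m) T (q.1 / Y)
      (fun p hp => by
        obtain ⟨⟨-, h2⟩, h3⟩ := mem_blk.1 (hS (Finset.mem_filter.1 hp).1)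
        exact ⟨h3, hY ▸ h2⟩)
      (by have := two_le_kp m; omega)
      (le_trans (mul_le_mul_of_nonneg_left
        (pow_le_pow_right₀ (by linarith) (by omega)) (by norm_num)) hT)
    have h2 := hk r
    have e : (16 : ℝ) ^ (r + kp m) = 16 ^ r * Y ^ 4 := by
      rw [pow_add, hY2, ← pow_mul, mul_comm (kp m) 4, pow_mul]
      norm_num
    simp only [f]
    rw [intervalIntegral.integral_div, div_le_iff₀ (by positivity), mul_pow, e]
    refine h1.trans (le_of_eq ?_)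
    field_simp
  obtain ⟨t, ht, hf⟩ := avg_Gen ((Finset.range (R + 1)).sigma fun r =>
      Finset.Icc (-((2 ^ r * Y : ℕ) : ℤ)) ((2 ^ r * Y : ℕ) : ℤ) ×ˢ Finset.range (Y + 1)) f
    (fun i => ((ZZ_cont_Gen S _ _).norm.pow _).div_const _)
    (fun i t => by have := hk i.1; positivity) hT0 (by
      rw [Finset.sum_sigma]
      have h1 : ∀ r ∈ Finset.range (R + 1), ∑ q ∈ Finset.Icc (-((2 ^ r * Y : ℕ) : ℤ))
          ((2 ^ r * Y : ℕ) : ℤ) ×ˢ Finset.range (Y + 1), ∫ t in T..2 * T, f ⟨r, q⟩ t ≤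
          3 / 4 * T * (1 / 8) ^ r := fun r hr => by
        refine (Finset.sum_le_card_nsmul _ _ _ fun q _ =>
          hint r (Nat.lt_succ_iff.1 (Finset.mem_range.1 hr)) q).trans ?_
        have e1 : (Finset.Icc (-((2 ^ r * Y : ℕ) : ℤ)) ((2 ^ r * Y : ℕ) : ℤ)).card =
            2 * (2 ^ r * Y) + 1 := by
          rw [Int.card_Icc]
          omega
        have e2 : (16 : ℝ) ^ r = 8 ^ r * 2 ^ r := by rw [← mul_pow]; norm_num
        have h2 : (1 : ℝ) ≤ 2 ^ r := one_le_pow₀ (by norm_num)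
        have h8 : (0 : ℝ) < 8 ^ r := by positivity
        rw [Finset.card_product, e1, Finset.card_range, nsmul_eq_mul, e2, one_div, inv_pow]
        push_cast
        have h3 : 2 * ((2 : ℝ) ^ r * Y) + 1 ≤ 3 * (2 ^ r * Y) := by nlinarith
        have h4 : (Y : ℝ) + 1 ≤ 2 * Y := by linarith
        have h5 : (16 : ℝ) ≤ Y ^ 2 := by nlinarith
        calc _ ≤ 3 * (2 ^ r * Y) * (2 * Y) * (2 * T / (8 ^ r * 2 ^ r * Y ^ 4)) := by gcongr
          _ = 12 * T * (8 ^ r)⁻¹ / Y ^ 2 := by field_simp; norm_num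
          _ ≤ 12 * T * (8 ^ r)⁻¹ / 16 := by gcongr
          _ = _ := by ring
      refine (Finset.sum_le_sum h1).trans_lt ?_
      rw [← Finset.mul_sum]
      have := geo_Gen (R + 1)
      nlinarith)
  refine ⟨t, ht, fun r hr τ hτ x => ?_⟩
  have hx : ZZ S (t - τ) x = ZZ S (t - τ) (min x Y) := by
    unfold ZZ
    refine Finset.sum_congr (Finset.filter_congr fun p hp => ?_) fun _ _ => rfl
    have := (mem_blk.1 (hS hp)).1.2
    omega
  have hl1 := Int.floor_le (τ * Y)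
  have hl2 := Int.lt_floor_add_one (τ * Y)
  have hτ' := abs_le.1 hτ
  have h1 := hf ⟨r, ⌊τ * Y⌋, min x Y⟩ (by
    simp only [Finset.mem_sigma, Finset.mem_product, Finset.mem_Icc, Finset.mem_range]
    refine ⟨by omega, ⟨Int.le_floor.2 ?_, ?_⟩, by omega⟩
    · push_cast
      nlinarith [hτ'.1]
    · rw [← Int.cast_le (R := ℝ)]
      push_cast
      nlinarith [hτ'.2])
  have h2 := hk r
  have hs : √(((r + kp m : ℕ) : ℝ) * Y) ^ 2 = ((r + kp m : ℕ) : ℝ) * Y :=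
    Real.sq_sqrt (by positivity)
  have h3 : ‖ZZ S (t - (⌊τ * Y⌋ : ℤ) / Y) (min x Y)‖ < 4 * √(((r + kp m : ℕ) : ℝ) * Y) := by
    simp only [f] at h1
    rw [div_lt_one (by positivity)] at h1
    refine lt_of_pow_lt_pow_left₀ (2 * (r + kp m)) (by positivity) (h1.trans_eq ?_)
    rw [pow_mul, mul_pow 4, hs]
    norm_num
  have h4 := ZZ_lip_Gen hS (t - τ) (t - (⌊τ * Y⌋ : ℤ) / Y) (min x Y) (by
    have e : (t - τ - (t - (⌊τ * Y⌋ : ℤ) / Y)) * Y = (⌊τ * Y⌋ : ℤ) - τ * Y := by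
      field_simp
      ring
    rw [hYR, ← abs_of_pos hY0, ← abs_mul, abs_of_pos hY0, e, abs_le]
    constructor <;> linarith)
  have h5 : (kp m : ℝ) ≤ √(((r + kp m : ℕ) : ℝ) * Y) := by
    refine Real.le_sqrt_of_sq_le ?_
    have a1 : (kp m : ℝ) ≤ Y := by
      rw [hY2]
      exact_mod_cast Nat.lt_two_pow_self.le
    have a2 : (kp m : ℝ) ≤ (r + kp m : ℕ) := by exact_mod_cast Nat.le_add_left _ _
    rw [sq]
    exact mul_le_mul a2 a1 (Nat.cast_nonneg _) h2.le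
  have h6 := norm_le_norm_add_norm_sub' (ZZ S (t - τ) (min x Y))
    (ZZ S (t - (⌊τ * Y⌋ : ℤ) / Y) (min x Y))
  rw [hx, gb, hYR, ← Nat.cast_add]
  linarith

end Pool.Agent.MP_d232b3_nt.Hz

end

section
set_option autoImplicit false

open Complex MeasureTheory Filter Set

namespace Pool.Agent.MP_d232b3_nt.Hz

theorem rng_Abel (z : ℕ → ℂ) (w : ℕ → ℝ) (hw : Antitone w) (h0 : ∀ n, 0 ≤ w n) {M : ℝ}
    (hM : ∀ n, ‖∑ i ∈ Finset.range n, z i‖ ≤ M) (N : ℕ) :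
    ‖∑ i ∈ Finset.range N, (w i : ℂ) * z i‖ ≤ M * w 0 := by
  have key : ∀ N, ‖∑ i ∈ Finset.range N, (w i : ℂ) * z i -
      (w N : ℂ) * ∑ i ∈ Finset.range N, z i‖ ≤ M * (w 0 - w N) := by
    intro N
    induction N with
    | zero => simp
    | succ N ih =>
      have e : ∑ i ∈ Finset.range (N + 1), (w i : ℂ) * z i -
          (w (N + 1) : ℂ) * ∑ i ∈ Finset.range (N + 1), z i =
          (∑ i ∈ Finset.range N, (w i : ℂ) * z i - (w N : ℂ) * ∑ i ∈ Finset.range N, z i) +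
            ((w N - w (N + 1) : ℝ) : ℂ) * ∑ i ∈ Finset.range (N + 1), z i := by
        rw [Finset.sum_range_succ, Finset.sum_range_succ]
        push_cast
        ring
      have h1 : 0 ≤ w N - w (N + 1) := sub_nonneg.2 (hw N.le_succ)
      rw [e]
      refine (norm_add_le _ _).trans ?_
      rw [norm_mul, norm_real, Real.norm_of_nonneg h1]
      nlinarith [mul_le_mul_of_nonneg_left (hM (N + 1)) h1]
  have h1 := norm_add_le (∑ i ∈ Finset.range N, (w i : ℂ) * z i -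
    (w N : ℂ) * ∑ i ∈ Finset.range N, z i) ((w N : ℂ) * ∑ i ∈ Finset.range N, z i)
  rw [sub_add_cancel, norm_mul, norm_real, Real.norm_of_nonneg (h0 N)] at h1
  nlinarith [key N, mul_le_mul_of_nonneg_left (hM N) (h0 N)]

theorem flt_Abel (S : Finset ℕ) (f : ℕ → ℂ) (x : ℕ) :
    ∑ p ∈ S.filter (· < x), f p = ∑ n ∈ Finset.range x, if n ∈ S then f n else 0 := by
  rw [← Finset.sum_filter]
  congr 1
  ext n
  simp [and_comm]

theorem set_Abel (S : Finset ℕ) (z : ℕ → ℂ) (w : ℕ → ℝ) (hw : Antitone w) (h0 : ∀ n, 0 ≤ w n)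
    {M : ℝ} (hM : ∀ x, ‖∑ p ∈ S.filter (· < x), z p‖ ≤ M) (x : ℕ) :
    ‖∑ p ∈ S.filter (· < x), (w p : ℂ) * z p‖ ≤ M * w 0 := by
  simp only [flt_Abel] at hM ⊢
  simpa only [mul_ite, mul_zero] using rng_Abel _ w hw h0 hM x

theorem pow_Abel {S : Finset ℕ} {m : ℕ} (hS : S ⊆ blk m) (z : ℕ → ℂ) {σ M : ℝ} (hσ : 0 ≤ σ)
    (hM : ∀ x, ‖∑ p ∈ S.filter (· < x), z p‖ ≤ M) :
    ‖∑ p ∈ S, (((p : ℝ) ^ (-σ) : ℝ) : ℂ) * z p‖ ≤ M * (4 : ℝ) ^ (-(m * σ)) := by
  have h := set_Abel S z (fun n => ((max n (4 ^ m) : ℕ) : ℝ) ^ (-σ))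
    (fun a b hab => Real.rpow_le_rpow_of_nonpos (by positivity)
      (by exact_mod_cast max_le_max_right _ hab) (by linarith))
    (fun n => by positivity) hM (4 ^ (m + 1))
  rw [Finset.filter_true_of_mem fun p hp => (mem_blk.1 (hS hp)).1.2,
    Finset.sum_congr rfl fun p hp => by rw [max_eq_left (mem_blk.1 (hS hp)).1.1]] at h
  refine h.trans (le_of_eq ?_)
  rw [max_eq_right (Nat.zero_le _), Nat.cast_pow, Nat.cast_ofNat, ← Real.rpow_natCast,
    ← Real.rpow_mul (by norm_num), mul_neg]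

theorem log_Abel {S : Finset ℕ} {m : ℕ} (hS : S ⊆ blk m) (z : ℕ → ℂ) {M : ℝ}
    (hM : ∀ x, ‖∑ p ∈ S.filter (· < x), z p‖ ≤ M) (x : ℕ) :
    ‖∑ p ∈ S.filter (· < x), ((Real.log p : ℝ) : ℂ) * z p‖ ≤ 2 * (kp m * M) := by
  have hk : (0 : ℝ) ≤ kp m := Nat.cast_nonneg _
  have h := set_Abel S z (fun n => max 0 (kp m - Real.log n)) (fun a b hab => by
    refine max_le_max_left _ (sub_le_sub_left ?_ _)
    rcases a.eq_zero_or_pos with rfl | ha
    · simpa using Real.log_natCast_nonneg b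
    · exact Real.log_le_log (by exact_mod_cast ha) (by exact_mod_cast hab))
    (fun n => le_max_left _ _) hM x
  have e : ∑ p ∈ S.filter (· < x), ((Real.log p : ℝ) : ℂ) * z p =
      ((kp m : ℝ) : ℂ) * ∑ p ∈ S.filter (· < x), z p -
        ∑ p ∈ S.filter (· < x), ((max 0 (kp m - Real.log p) : ℝ) : ℂ) * z p := by
    rw [Finset.mul_sum, ← Finset.sum_sub_distrib]
    refine Finset.sum_congr rfl fun p hp => ?_
    obtain ⟨⟨-, h2⟩, h3⟩ := mem_blk.1 (hS (Finset.mem_filter.1 hp).1)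
    have h4 : Real.log p ≤ kp m :=
      (Real.log_le_log (by exact_mod_cast h3.pos) (by exact_mod_cast h2.le)).trans
        (log_four_pow_le m)
    rw [max_eq_right (sub_nonneg.2 h4), ofReal_sub]
    ring
  rw [e]
  refine (norm_sub_le _ _).trans ?_
  rw [norm_mul, norm_real, Real.norm_of_nonneg hk]
  simp only [Nat.cast_zero, Real.log_zero, sub_zero, max_eq_right hk] at h
  linarith [mul_le_mul_of_nonneg_left (hM x) hk]

theorem sAbel : SAbel := by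
  intro S m c θ M s hS hc hs hM
  have e : ∀ p ∈ S, c p * (p : ℂ) ^ (-s) =
      (((p : ℝ) ^ (-s.re) : ℝ) : ℂ) * ph (θ - s.im) p := fun p hp => by
    rw [hc p hp, ph_mul_cpow θ (mem_blk.1 (hS hp)).2.ne_zero]
  have M0 : 0 ≤ M := (norm_nonneg _).trans (hM 0)
  have hk : (2 : ℝ) ≤ kp m := by exact_mod_cast two_le_kp m
  have h4 : 0 ≤ M * (4 : ℝ) ^ (-(m * s.re)) := by positivity
  constructor
  · rw [D0, Finset.sum_congr rfl e]
    refine (pow_Abel hS _ hs hM).trans ?_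
    nlinarith
  · rw [D1, Finset.sum_congr rfl fun p hp => by rw [e p hp, mul_left_comm]]
    exact (pow_Abel hS _ hs (log_Abel hS _ hM)).trans (le_of_eq (by ring))

end Pool.Agent.MP_d232b3_nt.Hz

end

section
set_option autoImplicit false

open Complex MeasureTheory Filter Set

namespace Pool.Agent.MP_d232b3_nt.Hz

theorem min_le_W {Y A e : ℝ} (hY : 0 < Y) (hA : 0 < A) (h0 : 0 ≤ e) (h1 : e ≤ 1 / 2) :
    min Y (5 * √(A * Y)) ≤ 5 * (Y ^ (1 - e) * A ^ e) := by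
  rcases le_total Y A with c | c
  · refine (min_le_left _ _).trans ?_
    have a : Y = Y ^ (1 - e) * Y ^ e := by rw [← Real.rpow_add hY]; simp
    have b : Y ^ (1 - e) * Y ^ e ≤ Y ^ (1 - e) * A ^ e :=
      mul_le_mul_of_nonneg_left (Real.rpow_le_rpow hY.le c h0) (by positivity)
    have : 0 ≤ Y ^ (1 - e) * A ^ e := by positivity
    linarith
  · refine (min_le_right _ _).trans (mul_le_mul_of_nonneg_left ?_ (by norm_num))
    rw [Real.sqrt_eq_rpow, Real.mul_rpow hA.le hY.le]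
    have a : A ^ (1 / 2 : ℝ) = A ^ (1 / 2 - e) * A ^ e := by rw [← Real.rpow_add hA]; simp
    have b : Y ^ (1 - e) = Y ^ (1 / 2 - e) * Y ^ (1 / 2 : ℝ) := by
      rw [← Real.rpow_add hY]; congr 1; ring
    have d : A ^ (1 / 2 - e) ≤ Y ^ (1 / 2 - e) := Real.rpow_le_rpow hA.le c (by linarith)
    rw [a, b]
    calc A ^ (1 / 2 - e) * A ^ e * Y ^ (1 / 2 : ℝ) ≤ Y ^ (1 / 2 - e) * A ^ e * Y ^ (1 / 2 : ℝ) := by
          gcongr
      _ = _ := by ring

theorem ww_le_W {ε σ : ℝ} (hε : 0 < ε) (h1 : 1 / 2 + ε ≤ σ) (h2 : σ ≤ 1) {r : ℕ} (hr : 1 ≤ r)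
    (m : ℕ) : ww σ r m ≤ 40 * (kp m : ℝ) ^ 2 * ((4 : ℝ) ^ (-ε)) ^ m * (r : ℝ) ^ (1 - σ + ε) := by
  have hk : (2 : ℝ) ≤ kp m := by exact_mod_cast two_le_kp m
  have hr' : (1 : ℝ) ≤ r := by exact_mod_cast hr
  have e0 : 0 ≤ 1 - σ + ε := by linarith
  have e1 : 1 - σ + ε ≤ 1 / 2 := by linarith
  have a := min_le_W (Y := (4 : ℝ) ^ (m + 1)) (A := (r : ℝ) + kp m) (by positivity) (by linarith)
    e0 e1
  have b : ((r : ℝ) + kp m) ^ (1 - σ + ε) ≤ 2 * kp m * (r : ℝ) ^ (1 - σ + ε) := by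
    calc ((r : ℝ) + kp m) ^ (1 - σ + ε) ≤ ((2 * kp m : ℝ) * r) ^ (1 - σ + ε) :=
          Real.rpow_le_rpow (by linarith) (by nlinarith) e0
      _ = (2 * kp m : ℝ) ^ (1 - σ + ε) * (r : ℝ) ^ (1 - σ + ε) :=
          Real.mul_rpow (by linarith) (by linarith)
      _ ≤ _ := by
          refine mul_le_mul_of_nonneg_right ?_ (by positivity)
          calc (2 * kp m : ℝ) ^ (1 - σ + ε) ≤ (2 * kp m : ℝ) ^ (1 : ℝ) :=
                Real.rpow_le_rpow_of_exponent_le (by linarith) (by linarith)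
            _ = _ := Real.rpow_one _
  have c : (4 : ℝ) ^ (-(m * σ)) * ((4 : ℝ) ^ (m + 1)) ^ (1 - (1 - σ + ε)) ≤
      4 * ((4 : ℝ) ^ (-ε)) ^ m := by
    rw [← Real.rpow_natCast, ← Real.rpow_mul (by norm_num), ← Real.rpow_add (by norm_num),
      ← Real.rpow_natCast, ← Real.rpow_mul (by norm_num)]
    calc (4 : ℝ) ^ (-(m * σ) + ((m + 1 : ℕ) : ℝ) * (1 - (1 - σ + ε))) ≤ (4 : ℝ) ^ (1 + -ε * m) :=
          Real.rpow_le_rpow_of_exponent_le (by norm_num) (by push_cast; nlinarith)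
      _ = _ := by rw [Real.rpow_add (by norm_num), Real.rpow_one]
  calc ww σ r m ≤ kp m * (4 : ℝ) ^ (-(m * σ)) *
        (5 * (((4 : ℝ) ^ (m + 1)) ^ (1 - (1 - σ + ε)) * (2 * kp m * (r : ℝ) ^ (1 - σ + ε)))) := by
        unfold ww BB gb
        refine mul_le_mul_of_nonneg_left (a.trans ?_) (by positivity)
        gcongr
    _ = 10 * (kp m : ℝ) ^ 2 * (r : ℝ) ^ (1 - σ + ε) *
        ((4 : ℝ) ^ (-(m * σ)) * ((4 : ℝ) ^ (m + 1)) ^ (1 - (1 - σ + ε))) := by ring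
    _ ≤ 10 * (kp m : ℝ) ^ 2 * (r : ℝ) ^ (1 - σ + ε) * (4 * ((4 : ℝ) ^ (-ε)) ^ m) :=
        mul_le_mul_of_nonneg_left c (by positivity)
    _ = _ := by ring

theorem summ_W {x : ℝ} (h0 : 0 ≤ x) (h1 : x < 1) :
    Summable fun m : ℕ => 40 * (kp m : ℝ) ^ 2 * x ^ m := by
  have hx : ‖x‖ < 1 := by rwa [Real.norm_of_nonneg h0]
  have s0 := summable_pow_mul_geometric_of_norm_lt_one 0 hx
  have s1 := summable_pow_mul_geometric_of_norm_lt_one 1 hx
  have s2 := summable_pow_mul_geometric_of_norm_lt_one 2 hx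
  refine (((s2.mul_left 160).add (s1.mul_left 320)).add (s0.mul_left 160)).congr fun m => ?_
  simp only [kp]
  push_cast
  ring

theorem sW : SW := by
  intro ε hε
  have h0 : 0 ≤ (4 : ℝ) ^ (-ε) := by positivity
  have h1 : (4 : ℝ) ^ (-ε) < 1 := Real.rpow_lt_one_of_one_lt_of_neg (by norm_num) (by linarith)
  have s := summ_W h0 h1
  refine ⟨∑' m : ℕ, 40 * (kp m : ℝ) ^ 2 * ((4 : ℝ) ^ (-ε)) ^ m,
    tsum_nonneg fun m => by positivity, fun σ a b r hr => ?_⟩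
  have s' := s.mul_right ((r : ℝ) ^ (1 - σ + ε))
  have t : Summable (ww σ r) := .of_nonneg_of_le (ww_nonneg σ r) (ww_le_W hε a b hr) s'
  refine ⟨t, ?_⟩
  rw [← tsum_mul_right]
  exact t.tsum_le_tsum (ww_le_W hε a b hr) s'

end Pool.Agent.MP_d232b3_nt.Hz

end

section
set_option autoImplicit false

open Complex MeasureTheory Filter Set

namespace Pool.Agent.MP_d232b3_nt.Hz

theorem supp_Lines {ν : ℝ → ℝ} (hc : ConvexOn ℝ (Ioo (1 / 2) 1) ν) {σ : ℝ}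
    (hσ : σ ∈ Ioo (1 / 2 : ℝ) 1) :
    ∃ u : ℝ, ∀ s ∈ Ioo (1 / 2 : ℝ) 1, ν σ + u * σ - u * s ≤ ν s := by
  have hi : σ ∈ interior (Ioo (1 / 2 : ℝ) 1) := by rwa [interior_Ioo]
  refine ⟨-derivWithin ν (Ioi σ) σ, fun s hs => ?_⟩
  rcases lt_trichotomy s σ with h | rfl | h
  · have h1 := (hc.slope_le_leftDeriv_of_mem_interior hs hi h).trans
      (hc.leftDeriv_le_rightDeriv_of_mem_interior hi)
    rw [slope_def_field, div_le_iff₀ (by linarith)] at h1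
    linarith
  · linarith
  · have h1 := hc.rightDeriv_le_slope_of_mem_interior hi hs h
    rw [slope_def_field, le_div_iff₀ (by linarith)] at h1
    linarith

theorem rat_Lines {ν : ℝ → ℝ} (hc : ConvexOn ℝ (Ioo (1 / 2) 1) ν)
    (hb : ∀ σ ∈ Ioo (1 / 2 : ℝ) 1, 1 - σ ≤ ν σ ∧ ν σ ≤ 2 - 2 * σ) {σ h : ℝ}
    (hσ : σ ∈ Ioo (1 / 2 : ℝ) 1) (hh : 0 < h) :
    ∃ u b : ℚ, ((0 : ℝ) < b ∧ (b : ℝ) ≤ u ∧ ∀ s ∈ Ioo (1 / 2 : ℝ) 1, b - u * s ≤ ν s) ∧
      ν σ - 2 * h ≤ b - u * σ := by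
  obtain ⟨u0, h0⟩ := supp_Lines hc hσ
  have h1 : ν σ + u0 * σ - u0 * 1 ≤ 2 - 2 * 1 :=
    le_on_closure (f := fun s : ℝ => ν σ + u0 * σ - u0 * s) (g := fun s : ℝ => 2 - 2 * s)
      (fun s hs => (h0 s hs).trans (hb s hs).2) (by fun_prop) (by fun_prop)
      (by rw [closure_Ioo (by norm_num)]; norm_num)
  have h2 := (hb σ hσ).1
  obtain ⟨k1, k2⟩ := hσ
  have h3 : 0 < u0 := by
    by_contra h
    nlinarith
  have h4 : 0 < ν σ + u0 * σ := by nlinarith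
  obtain ⟨u, hu1, hu2⟩ := exists_rat_btwn (show u0 < u0 + h by linarith)
  obtain ⟨b, hb1, hb2⟩ := exists_rat_btwn
    (show max 0 (ν σ + u0 * σ - h) < ν σ + u0 * σ from max_lt h4 (by linarith))
  rw [max_lt_iff] at hb1
  refine ⟨u, b, ⟨hb1.1, by linarith, fun s hs => ?_⟩, by nlinarith [hb1.2]⟩
  nlinarith [h0 s hs, hs.1]

theorem sLines : SLines := by
  intro ν hc hb
  classical
  obtain ⟨e, he⟩ := exists_surjective_nat (ℚ × ℚ)
  have hf : ∀ x : ℚ × ℚ, ∃ᶠ j in atTop, e (Nat.unpair j).1 = x := fun x => by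
    obtain ⟨k, rfl⟩ := he x
    exact frequently_atTop.2 fun a => ⟨Nat.pair k a, Nat.right_le_pair k a, by rw [Nat.unpair_pair]⟩
  obtain ⟨A, hA⟩ : ∃ A : ℚ × ℚ → Prop, ∀ x, A x ↔ (0 : ℝ) < x.2 ∧ (x.2 : ℝ) ≤ x.1 ∧
      ∀ s ∈ Ioo (1 / 2 : ℝ) 1, x.2 - x.1 * s ≤ ν s := ⟨_, fun _ => Iff.rfl⟩
  refine ⟨fun j => if A (e (Nat.unpair j).1) then (e (Nat.unpair j).1).1 else 1 + dl j,
    fun j => if A (e (Nat.unpair j).1) then (e (Nat.unpair j).1).2 else 1 + dl j,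
    fun j => ?_, fun j σ hσ => ?_, fun σ hσ a ha => ?_⟩
  · have := dl_pos j
    beta_reduce
    split_ifs with h
    · exact ⟨((hA _).1 h).1, ((hA _).1 h).2.1⟩
    · exact ⟨by linarith, le_rfl⟩
  · have := dl_pos j
    beta_reduce
    split_ifs with h
    · linarith [((hA _).1 h).2.2 σ hσ]
    · nlinarith [(hb σ hσ).1, hσ.1]
  · rcases (hb σ hσ).1.eq_or_lt with h | h
    · refine ((hf (0, 0)).and_eventually
        (dl_tendsto.eventually_le_const (sub_pos.2 hσ.2))).mono fun j ⟨h1, h2⟩ => ?_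
      have h3 : ¬ A (e (Nat.unpair j).1) := by
        rw [h1, hA]
        simp
      have := dl_pos j
      simp only [if_neg h3]
      constructor <;> nlinarith [hσ.2]
    · obtain ⟨u, b, h1, h2⟩ := rat_Lines hc hb hσ
        (h := min ((ν σ - a) / 2) ((ν σ - (1 - σ)) / 4)) (lt_min (by linarith) (by linarith))
      have h3 := min_le_left ((ν σ - a) / 2) ((ν σ - (1 - σ)) / 4)
      have h4 := min_le_right ((ν σ - a) / 2) ((ν σ - (1 - σ)) / 4)
      refine ((hf (u, b)).and_eventually ((dl_tendsto.eventually_le_const one_pos).and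
        (dl_tendsto.eventually_le_const (half_pos (sub_pos.2 h))))).mono fun j ⟨k1, k2, k3⟩ => ?_
      have := dl_pos j
      simp only [k1, if_pos ((hA (u, b)).2 h1)]
      constructor <;> nlinarith

end Pool.Agent.MP_d232b3_nt.Hz

end

section
set_option autoImplicit false

open Complex MeasureTheory Filter Set

namespace Pool.Agent.MP_d232b3_nt.Hz

theorem pow_Cnt (m : ℕ) (h : 7 ≤ m) : 14 * (m + 1) ≤ 2 ^ m := by
  induction m, h using Nat.le_induction with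
  | base => norm_num
  | succ k _ ih => rw [pow_succ]; omega

theorem split_Cnt (m : ℕ) : Chebyshev.theta ((4 ^ (m + 1) : ℕ) : ℝ) ≤
    Chebyshev.theta ((4 ^ m : ℕ) : ℝ) + (blk m).card * (kp m : ℝ) := by
  rw [Chebyshev.theta, Chebyshev.theta, Nat.floor_natCast, Nat.floor_natCast]
  have h1 : (Finset.Ioc 0 (4 ^ (m + 1))).filter Nat.Prime ⊆
      (Finset.Ioc 0 (4 ^ m)).filter Nat.Prime ∪ blk m := fun p hp => by
    simp only [Finset.mem_filter, Finset.mem_Ioc, Finset.mem_union, mem_blk] at hp ⊢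
    have : p ≠ 4 ^ (m + 1) := fun e => by
      have := hp.2
      rw [e, four_pow_eq] at this
      exact Nat.Prime.not_prime_pow (two_le_kp m) this
    by_cases c : p ≤ 4 ^ m
    · exact Or.inl ⟨⟨hp.1.1, c⟩, hp.2⟩
    · exact Or.inr ⟨⟨by omega, by omega⟩, hp.2⟩
  have h2 : ∑ p ∈ blk m, Real.log p ≤ (blk m).card * (kp m : ℝ) := by
    rw [← nsmul_eq_mul]
    refine Finset.sum_le_card_nsmul _ _ _ fun p hp => le_trans ?_ (log_four_pow_le m)
    obtain ⟨⟨-, a⟩, b⟩ := mem_blk.1 hp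
    exact Real.log_le_log (by exact_mod_cast b.pos) (by exact_mod_cast a.le)
  have h3 := Finset.sum_le_sum_of_subset_of_nonneg (f := fun p : ℕ => Real.log p) h1
    fun p _ _ => Real.log_natCast_nonneg p
  have h4 := Finset.sum_union_inter (s₁ := (Finset.Ioc 0 (4 ^ m)).filter Nat.Prime) (s₂ := blk m)
    (f := fun p : ℕ => Real.log p)
  have h5 : 0 ≤ ∑ p ∈ (Finset.Ioc 0 (4 ^ m)).filter Nat.Prime ∩ blk m, Real.log p :=
    Finset.sum_nonneg fun p _ => Real.log_natCast_nonneg p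
  linarith

theorem sCnt : SCnt := by
  filter_upwards [eventually_ge_atTop 7] with m hm
  have h1 := split_Cnt m
  have h2 := Chebyshev.theta_ge (4 ^ (m + 1))
  have h3 := Chebyshev.theta_le_log4_mul_x (x := ((4 ^ m : ℕ) : ℝ)) (by positivity)
  have h4 := log_four_pow_le m
  have h5 : (14 : ℝ) * (m + 1) ≤ 2 ^ m := by exact_mod_cast pow_Cnt m hm
  have e : (4 : ℝ) ^ m = (2 ^ m) ^ 2 := by rw [← pow_mul, mul_comm, pow_mul]; norm_num
  have l4 : Real.log 4 = 2 * Real.log 2 := by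
    rw [show (4 : ℝ) = 2 ^ 2 by norm_num, Real.log_pow]; norm_num
  have k : (kp m : ℝ) = 2 * (m + 1) := by rw [kp]; push_cast; ring
  push_cast at h1 h2 h3
  rw [k] at h1 h4
  rw [pow_succ, e] at h1 h2 h4
  rw [e, l4] at h3
  rw [e]
  have m0 : (0 : ℝ) ≤ m := m.cast_nonneg
  generalize (2 : ℝ) ^ m = x at *
  have x0 : 0 < x := by linarith
  have s : √(x ^ 2 * 4) = 2 * x := by
    rw [show x ^ 2 * 4 = (2 * x) ^ 2 by ring, Real.sqrt_sq (by linarith)]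
  have l : Real.log (x ^ 2 * 4 + 1) ≤ 4 * x := by
    have a : Real.log (x ^ 2 * 4 + 1) ≤ Real.log ((2 * x + 1) ^ 2) :=
      Real.log_le_log (by positivity) (by nlinarith)
    rw [Real.log_pow] at a
    have := Real.log_le_sub_one_of_pos (show 0 < 2 * x + 1 by linarith)
    push_cast at a
    linarith
  rw [s] at h2
  have a1 := mul_le_mul_of_nonneg_left h4 (show 0 ≤ 2 * (2 * x) by linarith)
  have a2 := mul_le_mul_of_nonneg_left h5 x0.le
  have a3 := mul_le_mul_of_nonneg_left Real.log_two_gt_d9.le (sq_nonneg x)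
  nlinarith [mul_nonneg x0.le m0]

end Pool.Agent.MP_d232b3_nt.Hz

end

section
set_option autoImplicit false

open Complex MeasureTheory Filter Set

namespace Pool.Agent.MP_d232b3_nt.Hz

theorem ev_Step {u c : ℝ} (hu : 0 < u) (hc : 0 < c) (K : ℝ) (hK : 0 ≤ K) :
    ∀ᶠ m : ℕ in atTop, K * ((m : ℝ) + 1) ^ 2 ≤ ((4 : ℝ) ^ ((m : ℝ) / u)) ^ c := by
  have hq : 1 < (4 : ℝ) ^ (c / u) := Real.one_lt_rpow (by norm_num) (by positivity)
  have h := tendsto_pow_const_div_const_pow_of_one_lt 2 hq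
  have h1 : ∀ᶠ m : ℕ in atTop, (m : ℝ) ^ 2 / ((4 : ℝ) ^ (c / u)) ^ m < 1 / (4 * K + 1) :=
    h.eventually (gt_mem_nhds (by positivity))
  filter_upwards [h1, eventually_ge_atTop 1] with m hm h1m
  have e : ((4 : ℝ) ^ ((m : ℝ) / u)) ^ c = ((4 : ℝ) ^ (c / u)) ^ m := by
    rw [← Real.rpow_natCast, ← Real.rpow_mul (by norm_num), ← Real.rpow_mul (by norm_num)]
    congr 1
    ring
  rw [e]
  have hp : 0 < ((4 : ℝ) ^ (c / u)) ^ m := by positivity
  rw [div_lt_div_iff₀ hp (by positivity)] at hm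
  have h1m' : (1 : ℝ) ≤ m := by exact_mod_cast h1m
  have h2 : ((m : ℝ) + 1) ^ 2 ≤ 4 * (m : ℝ) ^ 2 := by nlinarith
  have h3 : K * ((m : ℝ) + 1) ^ 2 ≤ K * (4 * (m : ℝ) ^ 2) := mul_le_mul_of_nonneg_left h2 hK
  nlinarith [sq_nonneg (m : ℝ)]

theorem sStep (hC : SCnt) : SStep := by
  intro u b δ η M hb hbu hδ hη N
  have hu : 0 < u := hb.trans_le hbu
  obtain ⟨m, hN, h1m, e2, e3, e4, e5, e6, e7⟩ := ((eventually_ge_atTop N).and
    ((eventually_ge_atTop 1).and ((ev_Step hu one_pos N (by positivity)).and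
    ((ev_Step hu (c := η / 4) (by positivity) 4 (by norm_num)).and
    ((ev_Step hu hδ 2 (by norm_num)).and
    ((ev_Step hu (c := η / (4 * b)) (by positivity) 28 (by norm_num)).and
    ((ev_Step hu (c := η / 2) (by positivity) (8 * |M|) (by positivity)).and hC))))))).exists
  obtain ⟨L, hL⟩ : ∃ L : ℝ, L = (4 : ℝ) ^ ((m : ℝ) / u) := ⟨_, rfl⟩
  rw [← hL] at e2 e3 e4 e5 e6
  have hm0 : (0 : ℝ) ≤ m := Nat.cast_nonneg m
  have h1m' : (1 : ℝ) ≤ m := by exact_mod_cast h1m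
  have hL1 : 1 ≤ L := by rw [hL]; exact Real.one_le_rpow (by norm_num) (by positivity)
  have hL0 : 0 < L := by linarith
  have hpow : ∀ x : ℝ, (4 : ℝ) ^ ((m : ℝ) * x) = L ^ (u * x) := fun x => by
    rw [hL, ← Real.rpow_mul (by norm_num)]
    congr 1
    field_simp
  have hneg : ∀ x : ℝ, (4 : ℝ) ^ (-((m : ℝ) * x)) = L ^ (-(u * x)) := fun x => by
    rw [← mul_neg, hpow, mul_neg]
  have h4 : (4 : ℝ) ^ m = L ^ u := by
    have := hpow 1
    rwa [mul_one, mul_one, Real.rpow_natCast] at this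
  have hsq : (1 : ℝ) ≤ ((m : ℝ) + 1) ^ 2 := by nlinarith
  have hsq' : (m : ℝ) + 1 ≤ ((m : ℝ) + 1) ^ 2 := by nlinarith
  have hkp : (kp m : ℝ) = 2 * ((m : ℝ) + 1) := by unfold kp; push_cast; ring
  have hR : L ≤ (⌈L⌉₊ : ℝ) := Nat.le_ceil L
  have hR2 : (⌈L⌉₊ : ℝ) ≤ 2 * L := by have := Nat.ceil_lt_add_one hL0.le; linarith
  have hn : (⌊L ^ (b - η / 4)⌋₊ : ℝ) ≤ L ^ (b - η / 4) := Nat.floor_le (by positivity)
  refine ⟨m, ⌊L ^ (b - η / 4)⌋₊, ⌈L⌉₊, hN, ?_, ?_, fun σ e he hle => ?_,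
    fun σ e h0 h1 he hle => ?_⟩
  · rw [Real.rpow_one] at e2
    have : (N : ℝ) * 1 ≤ N * ((m : ℝ) + 1) ^ 2 := mul_le_mul_of_nonneg_left hsq (by positivity)
    have : (N : ℝ) ≤ (⌈L⌉₊ : ℝ) := by linarith
    exact_mod_cast this
  · have a1 : L ^ (b - η / 4) ≤ L ^ (u - η / 4) :=
      Real.rpow_le_rpow_of_exponent_le hL1 (by linarith)
    have a2 : L ^ (u - η / 4) * L ^ (η / 4) = L ^ u := by
      rw [← Real.rpow_add hL0]; congr 1; ring
    have a3 : 0 < L ^ (η / 4) := by positivity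
    have a4 : L ^ (u - η / 4) * L ^ (η / 4) ≤ (blk m).card * L ^ (η / 4) := by
      rw [a2, ← h4]
      have : 4 * ((m : ℝ) + 1) * (blk m).card ≤ L ^ (η / 4) * (blk m).card :=
        mul_le_mul_of_nonneg_right (by linarith) (by positivity)
      linarith
    have a5 := le_of_mul_le_mul_right a4 a3
    have : (⌊L ^ (b - η / 4)⌋₊ : ℝ) ≤ (blk m).card := by linarith
    exact_mod_cast this
  · unfold ee
    rw [hneg]
    have a1 : (kp m : ℝ) ≤ L ^ δ := by rw [hkp]; linarith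
    have a2 : (⌊L ^ (b - η / 4)⌋₊ : ℝ) ≤ L ^ b :=
      hn.trans (Real.rpow_le_rpow_of_exponent_le hL1 (by linarith))
    calc (kp m : ℝ) * L ^ (-(u * σ)) * (⌊L ^ (b - η / 4)⌋₊ : ℝ)
        ≤ L ^ δ * L ^ (-(u * σ)) * L ^ b := by gcongr
      _ = L ^ (δ + -(u * σ) + b) := by rw [Real.rpow_add hL0, Real.rpow_add hL0]
      _ ≤ L ^ (e + δ) := Real.rpow_le_rpow_of_exponent_le hL1 (by linarith)
      _ ≤ (⌈L⌉₊ : ℝ) ^ (e + δ) := Real.rpow_le_rpow hL0.le hR (by linarith)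
  · have huσ : 0 ≤ u * σ := by positivity
    have a0 : 1 ≤ L ^ (b - η / 4) := Real.one_le_rpow hL1 (by linarith)
    have a1 : L ^ (b - η / 4) / 2 ≤ (⌊L ^ (b - η / 4)⌋₊ : ℝ) := by
      have b1 := Nat.lt_floor_add_one (L ^ (b - η / 4))
      have b2 : (1 : ℝ) ≤ (⌊L ^ (b - η / 4)⌋₊ : ℝ) := by
        exact_mod_cast (Nat.one_le_floor_iff _).2 a0
      linarith
    have a2 : 1 ≤ Real.log ((4 : ℝ) ^ m) := by
      rw [Real.log_pow, show (4 : ℝ) = 2 ^ 2 by norm_num, Real.log_pow]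
      have := Real.log_two_gt_d9
      push_cast
      nlinarith
    have a3 : L ^ (-(u * σ)) / 4 ≤ (4 : ℝ) ^ (-(((m : ℝ) + 1) * σ)) := by
      rw [show -(((m : ℝ) + 1) * σ) = -((m : ℝ) * σ) + -σ by ring, Real.rpow_add (by norm_num), hneg]
      have b1 : (4 : ℝ) ^ (-1 : ℝ) ≤ (4 : ℝ) ^ (-σ) :=
        Real.rpow_le_rpow_of_exponent_le (by norm_num) (by linarith)
      rw [Real.rpow_neg_one] at b1
      rw [div_eq_mul_inv]
      exact mul_le_mul_of_nonneg_left b1 (by positivity)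
    have a4 : (rr m ⌈L⌉₊ : ℝ) ≤ L ^ (1 + η / (4 * b)) := by
      rw [Real.rpow_add hL0, Real.rpow_one]
      have b1 : L * (28 * ((m : ℝ) + 1) ^ 2) ≤ L * L ^ (η / (4 * b)) :=
        mul_le_mul_of_nonneg_left e5 hL0.le
      refine le_trans ?_ b1
      unfold rr
      push_cast
      rw [hkp]
      have b2 : ((m : ℝ) + 1) * (⌈L⌉₊ : ℝ) ≤ ((m : ℝ) + 1) ^ 2 * (2 * L) :=
        mul_le_mul hsq' hR2 (by positivity) (by positivity)
      have b3 : ((m : ℝ) + 1) ^ 2 * 1 ≤ ((m : ℝ) + 1) ^ 2 * L :=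
        mul_le_mul_of_nonneg_left hL1 (by positivity)
      nlinarith
    have a5 : (rr m ⌈L⌉₊ : ℝ) ^ e ≤ L ^ (e + η / 4) := by
      refine (Real.rpow_le_rpow (by positivity) a4 he).trans ?_
      rw [← Real.rpow_mul hL0.le]
      refine Real.rpow_le_rpow_of_exponent_le hL1 ?_
      have b1 : η / (4 * b) * e ≤ η / (4 * b) * b :=
        mul_le_mul_of_nonneg_left (by linarith) (by positivity)
      have b2 : η / (4 * b) * b = η / 4 := by field_simp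
      linarith
    have a6 : |M| ≤ L ^ (η / 2) / 8 := by
      have : 8 * |M| * 1 ≤ 8 * |M| * ((m : ℝ) + 1) ^ 2 :=
        mul_le_mul_of_nonneg_left hsq (by positivity)
      linarith
    unfold al
    calc M * (rr m ⌈L⌉₊ : ℝ) ^ e ≤ |M| * (rr m ⌈L⌉₊ : ℝ) ^ e :=
          mul_le_mul_of_nonneg_right (le_abs_self M) (by positivity)
      _ ≤ L ^ (η / 2) / 8 * L ^ (e + η / 4) := by gcongr
      _ = L ^ (η / 2 + (e + η / 4)) / 8 := by rw [Real.rpow_add hL0 (η / 2)]; ring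
      _ ≤ L ^ (-(u * σ) + (b - η / 4)) / 8 := by
          have := Real.rpow_le_rpow_of_exponent_le hL1
            (show η / 2 + (e + η / 4) ≤ -(u * σ) + (b - η / 4) by linarith)
          linarith
      _ = 1 * (L ^ (-(u * σ)) / 4) * (L ^ (b - η / 4) / 2) := by
          rw [Real.rpow_add hL0 (-(u * σ))]; ring
      _ ≤ Real.log ((4 : ℝ) ^ m) * (4 : ℝ) ^ (-(((m : ℝ) + 1) * σ)) *
            (⌊L ^ (b - η / 4)⌋₊ : ℝ) := by gcongr

end Pool.Agent.MP_d232b3_nt.Hz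

end

section
set_option autoImplicit false

open Complex MeasureTheory Filter Set

namespace Pool.Agent.MP_d232b3_nt.Hz

theorem le_rr_Plan (m R : ℕ) : R ≤ rr m R := by
  have := two_le_kp m
  unfold rr
  nlinarith [Nat.zero_le R]

theorem ee_le_Plan (m n : ℕ) {σ : ℝ} (h : 0 ≤ σ) : ee m n σ ≤ ((kp m * n : ℕ) : ℝ) := by
  have h1 : (4 : ℝ) ^ (-(m * σ)) ≤ 1 :=
    Real.rpow_le_one_of_one_le_of_nonpos (by norm_num) (neg_nonpos.2 (by positivity))
  unfold ee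
  push_cast
  have h2 : (0 : ℝ) ≤ kp m := Nat.cast_nonneg _
  have h3 : (0 : ℝ) ≤ n := Nat.cast_nonneg _
  calc (kp m : ℝ) * (4 : ℝ) ^ (-(m * σ)) * n ≤ kp m * 1 * n := by gcongr
    _ = kp m * n := by ring

theorem sPlan (hL : SLines) (hW : SW) (hS : SStep) : SPlan := by
  intro ν hc hb
  obtain ⟨u, b, hub, hup, hlow⟩ := hL ν hc hb
  have hη : ∀ j, 0 < dl j ^ 2 / 2 := fun j => by have := dl_pos j; positivity
  choose C hC0 hC using fun j => hW (dl j ^ 2 / 2) (hη j)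
  choose fm fn fR h1 h2 h3 h4 h5 using fun (j : ℕ) (p : ℕ × ℕ) =>
    hS (u j) (b j) (dl j) (dl j ^ 2 / 2) (j + 4 * C j + 2 * p.2) (hub j).1 (hub j).2 (dl_pos j)
      (hη j) p.1
  obtain ⟨st, st0, stS⟩ : ∃ st : ℕ → ℕ × ℕ, st 0 = (1, 0) ∧ ∀ j, st (j + 1) =
      (max (max (fm j (st j) + 1) (rr (fm j (st j)) (fR j (st j)))) (2 ^ (j + 1)),
        (st j).2 + kp (fm j (st j)) * fn j (st j)) :=
    ⟨fun j => Nat.rec (1, 0) (fun j p => (max (max (fm j p + 1) (rr (fm j p) (fR j p)))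
      (2 ^ (j + 1)), p.2 + kp (fm j p) * fn j p)) j, rfl, fun _ => rfl⟩
  have hs1 : ∀ j, fm j (st j) + 1 ≤ (st (j + 1)).1 := fun j => by
    rw [stS]; exact (le_max_left _ _).trans (le_max_left _ _)
  have hs2 : ∀ j, rr (fm j (st j)) (fR j (st j)) ≤ (st (j + 1)).1 := fun j => by
    rw [stS]; exact (le_max_right _ _).trans (le_max_left _ _)
  have hs3 : ∀ j, 2 ^ j ≤ (st j).1 := fun j => by
    cases j with
    | zero => rw [st0]; simp
    | succ j => rw [stS]; exact le_max_right _ _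
  have hs4 : ∀ j, (st j).2 = ∑ i ∈ Finset.range j, kp (fm i (st i)) * fn i (st i) := fun j => by
    induction j with
    | zero => rw [st0]; simp
    | succ j ih => rw [stS, Finset.sum_range_succ, ← ih]
  have hbig : ∀ j, 2 ^ j ≤ fR j (st j) := fun j => (hs3 j).trans (h2 j _)
  refine ⟨fun j => fm j (st j), fun j => fn j (st j), fun j => fR j (st j),
    strictMono_nat_of_lt_succ fun j => (hs1 j).trans (h1 _ _), fun j => h3 _ _, hbig, ?_, ?_, ?_⟩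
  · intro i j hij
    induction i, hij using Nat.le_induction with
    | base => exact (hs2 j).trans (h2 _ _)
    | succ i _ ih => exact ih.trans ((le_rr_Plan _ _).trans ((hs2 i).trans (h2 _ _)))
  · intro σ hσ j
    have := h4 j (st j) σ (ν σ + dl j)
      (by have := (hb σ hσ).1; have := dl_pos j; have := hσ.2; linarith) (hup j σ hσ)
    rwa [show ν σ + dl j + dl j = ν σ + 2 * dl j by ring] at this
  · intro σ hσ a ha0 ha C0
    have ht : Tendsto (fun j => dl j ^ 2 / 2) atTop (nhds 0) := by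
      simpa using (dl_tendsto.pow 2).div_const 2
    have e1 : ∀ᶠ j in atTop, dl j ^ 2 / 2 < (ν σ - a) / 2 :=
      ht.eventually (gt_mem_nhds (by linarith))
    have e2 : ∀ᶠ j in atTop, dl j ^ 2 / 2 < σ - 1 / 2 :=
      ht.eventually (gt_mem_nhds (by have := hσ.1; linarith))
    have e3 : ∀ᶠ j : ℕ in atTop, C0 ≤ j := tendsto_natCast_atTop_atTop.eventually_ge_atTop C0
    obtain ⟨j, ⟨f1, f2⟩, g1, g2, g3⟩ :=
      ((hlow σ hσ ((a + ν σ) / 2) (by linarith)).and_eventually (e1.and (e2.and e3))).exists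
    have hσ0 : 0 ≤ σ := by have := hσ.1; linarith
    have hr : 1 ≤ rr (fm j (st j)) (fR j (st j)) := by unfold rr; omega
    have hj : j ≤ rr (fm j (st j)) (fR j (st j)) :=
      (Nat.lt_two_pow_self.le.trans (hbig j)).trans (le_rr_Plan _ _)
    refine ⟨j, g3.trans (by exact_mod_cast hj), ?_⟩
    have k5 := h5 j (st j) σ (max a (1 - σ + dl j ^ 2 / 2)) hσ0 hσ.2.le
      (ha0.trans (le_max_left _ _)) (by
        rcases max_cases a (1 - σ + dl j ^ 2 / 2) with c | c <;> rw [c.1] <;> linarith)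
    have kW := (hC j σ (by linarith) hσ.2.le _ hr).2
    have kE : ∑ i ∈ Finset.range j, ee (fm i (st i)) (fn i (st i)) σ ≤ ((st j).2 : ℝ) := by
      rw [hs4 j, Nat.cast_sum]
      exact Finset.sum_le_sum fun i _ => ee_le_Plan _ _ hσ0
    generalize rr (fm j (st j)) (fR j (st j)) = r at hr k5 kW ⊢
    have hr' : (1 : ℝ) ≤ r := by exact_mod_cast hr
    have p1 : (r : ℝ) ^ a ≤ (r : ℝ) ^ max a (1 - σ + dl j ^ 2 / 2) :=
      Real.rpow_le_rpow_of_exponent_le hr' (le_max_left _ _)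
    have p2 : (r : ℝ) ^ (1 - σ + dl j ^ 2 / 2) ≤ (r : ℝ) ^ max a (1 - σ + dl j ^ 2 / 2) :=
      Real.rpow_le_rpow_of_exponent_le hr' (le_max_right _ _)
    have p3 : 1 ≤ (r : ℝ) ^ max a (1 - σ + dl j ^ 2 / 2) :=
      Real.one_le_rpow hr' (ha0.trans (le_max_left _ _))
    have p0 : 0 ≤ (r : ℝ) ^ a := Real.rpow_nonneg (by linarith) _
    have q1 : C0 * (r : ℝ) ^ a ≤ j * (r : ℝ) ^ max a (1 - σ + dl j ^ 2 / 2) :=
      (mul_le_mul_of_nonneg_right g3 p0).trans (mul_le_mul_of_nonneg_left p1 (Nat.cast_nonneg _))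
    have q2 := mul_le_mul_of_nonneg_left p2 (hC0 j)
    have q3 : ((st j).2 : ℝ) ≤ (st j).2 * (r : ℝ) ^ max a (1 - σ + dl j ^ 2 / 2) :=
      le_mul_of_one_le_right (Nat.cast_nonneg _) p3
    linarith

end Pool.Agent.MP_d232b3_nt.Hz

end

section
set_option autoImplicit false

open Complex MeasureTheory Filter Set

namespace Pool.Agent.MP_d232b3_nt.Hz

theorem sum_Ex {m : ℕ → ℕ} (h : StrictMono m) {f : ℕ → ℝ} (h0 : ∀ k, (¬ ∃ j, m j = k) → f k = 0)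
    (N : ℕ) (h1 : ∀ j, N ≤ j → f (m j) = 0) : HasSum f (∑ j ∈ Finset.range N, f (m j)) :=
  (h.injective.hasSum_iff fun k hk => h0 k hk).1
    (hasSum_sum_of_ne_finset_zero fun j hj => h1 j (by simpa using hj))

theorem log_Ex {δ : ℝ} (hδ : 0 < δ) {r : ℕ} (hr : 1 ≤ r) :
    ((Nat.log 2 r + 1 : ℕ) : ℝ) ≤ (2 / δ + 1) * (r : ℝ) ^ δ := by
  have h1 : (1 : ℝ) ≤ r := by exact_mod_cast hr
  have h2 : (2 : ℝ) ^ Nat.log 2 r ≤ r := by exact_mod_cast Nat.pow_log_le_self 2 (by omega)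
  have h3 := Real.log_le_log (by positivity) h2
  rw [Real.log_pow] at h3
  have h4 := Real.log_le_rpow_div (Nat.cast_nonneg r) hδ
  have h5 := Real.log_two_gt_d9
  have h6 := Real.one_le_rpow h1 hδ.le
  have h7 : (0 : ℝ) ≤ Nat.log 2 r := Nat.cast_nonneg _
  have h8 : (2 / δ + 1) * (r : ℝ) ^ δ = 2 * ((r : ℝ) ^ δ / δ) + (r : ℝ) ^ δ := by ring
  push_cast
  nlinarith

theorem sEx : SEx := by
  intro ν m n R hP σ hσ hν
  refine ⟨fun ε hε => ?_, fun j => ?_⟩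
  · have hδ : 0 < ε / 2 := half_pos hε
    obtain ⟨j0, hj0⟩ := eventually_atTop.1 (dl_tendsto.eventually_le_const (half_pos hδ))
    obtain ⟨K, hK⟩ : ∃ K, K = ∑ j ∈ Finset.range j0, ee (m j) (n j) σ := ⟨_, rfl⟩
    have K0 : 0 ≤ K := hK ▸ Finset.sum_nonneg fun j _ => ee_nonneg _ _ _
    refine ⟨(2 / (ε / 2) + 1) * (K + 1), fun r hr => ?_⟩
    have h1 : (1 : ℝ) ≤ r := by exact_mod_cast hr
    have hs := sum_Ex hP.mono (fun k hk => fx_of_not n R σ r hk) (Nat.log 2 r + 1) fun j hj => by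
      rw [fx_apply hP.mono, ex, if_neg]
      have := Nat.lt_pow_succ_log_self (b := 2) (by norm_num) r
      have := Nat.pow_le_pow_right (n := 2) (by norm_num) hj
      have := hP.big j
      simp only [Nat.succ_eq_add_one] at *
      omega
    refine ⟨hs.summable, ?_⟩
    have h2 : 1 ≤ (r : ℝ) ^ (ν σ + ε / 2) := Real.one_le_rpow h1 (by linarith)
    have h3 : ∀ j ∈ Finset.range (Nat.log 2 r + 1),
        fx m n R σ r (m j) ≤ (K + 1) * (r : ℝ) ^ (ν σ + ε / 2) := by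
      intro j _
      have h4 := mul_le_mul_of_nonneg_left h2 K0
      rw [fx_apply hP.mono, ex]
      split_ifs with c
      · rcases lt_or_ge j j0 with d | d
        · have : ee (m j) (n j) σ ≤ K := hK ▸ Finset.single_le_sum
            (f := fun j => ee (m j) (n j) σ) (fun j _ => ee_nonneg _ _ _) (Finset.mem_range.2 d)
          linarith
        · have a1 := hP.up σ hσ j
          have a2 := dl_pos j
          have a3 : (R j : ℝ) ^ (ν σ + 2 * dl j) ≤ (r : ℝ) ^ (ν σ + 2 * dl j) :=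
            Real.rpow_le_rpow (Nat.cast_nonneg _) (Nat.cast_le.2 c.le) (by linarith)
          have a4 : (r : ℝ) ^ (ν σ + 2 * dl j) ≤ (r : ℝ) ^ (ν σ + ε / 2) :=
            Real.rpow_le_rpow_of_exponent_le h1 (by linarith [hj0 j d])
          linarith
      · positivity
    have h4 := Finset.sum_le_card_nsmul _ _ _ h3
    rw [Finset.card_range, nsmul_eq_mul] at h4
    have h5 := mul_le_mul_of_nonneg_right (log_Ex hδ hr)
      (show 0 ≤ (K + 1) * (r : ℝ) ^ (ν σ + ε / 2) by positivity)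
    rw [hs.tsum_eq, show ν σ + ε = ε / 2 + (ν σ + ε / 2) by ring,
      Real.rpow_add (by positivity) (ε / 2)]
    linarith
  · have hs := sum_Ex hP.mono
      (f := fun k => if k = m j then 0 else fx m n R σ (rr (m j) (R j)) k)
      (fun k hk => by rw [fx_of_not n R σ _ hk, ite_self]) j fun i hi => by
        rcases hi.eq_or_lt with rfl | hi
        · exact if_pos rfl
        · rw [fx_apply hP.mono, ex, if_neg (not_lt.2 (hP.later i j hi)), ite_self]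
    rw [hs.tsum_eq]
    refine Finset.sum_le_sum fun i _ => ?_
    have := ee_nonneg (m i) (n i) σ
    rw [fx_apply hP.mono, ex]
    split_ifs
    exacts [this, le_rfl, this]

end Pool.Agent.MP_d232b3_nt.Hz

end

section
set_option autoImplicit false

open Complex MeasureTheory Filter Set

namespace Pool.Agent.MP_d232b3_nt.Hz

theorem zz_triv_Build {S : Finset ℕ} {k : ℕ} (hS : S ⊆ blk k) (θ : ℝ) (x : ℕ) :
    ‖ZZ S θ x‖ ≤ 4 ^ (k + 1) := by
  refine (norm_ZZ_le S θ x).trans ?_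
  exact_mod_cast (Finset.card_le_card hS).trans (card_blk_le k)

theorem gb_big_Build {k r : ℕ} (h : 4 ^ (k + 1) ≤ r) : (4 : ℝ) ^ (k + 1) ≤ gb k r := by
  have h1 : (4 : ℝ) ^ (k + 1) ≤ r := by exact_mod_cast h
  have h2 : (0 : ℝ) ≤ kp k := Nat.cast_nonneg _
  have h3 : (0 : ℝ) < 4 ^ (k + 1) := by positivity
  have h4 : (4 : ℝ) ^ (k + 1) ≤ √(((r : ℝ) + kp k) * 4 ^ (k + 1)) := by
    refine Real.le_sqrt_of_sq_le ?_
    rw [sq]
    exact mul_le_mul_of_nonneg_right (by linarith) h3.le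
  unfold gb
  linarith

theorem abel_Build (hA : SAbel) (S : Finset ℕ) (k : ℕ) (c : ℕ → ℂ) (θ M σ : ℝ) (s : ℂ)
    (hS : S ⊆ blk k) (hc : ∀ p ∈ S, c p = ph θ p) (hσ : 0 ≤ σ) (hs : σ ≤ s.re) (hM : 0 ≤ M)
    (h : ∀ x, ‖ZZ S (θ - s.im) x‖ ≤ M) :
    ‖D0 c S s‖ ≤ 2 * (kp k * (4 : ℝ) ^ (-(k * σ)) * M) ∧
      ‖D1 c S s‖ ≤ 2 * (kp k * (4 : ℝ) ^ (-(k * σ)) * M) := by
  obtain ⟨h0, h1⟩ := hA S k c θ M s hS hc (hσ.trans hs) h
  have e : (4 : ℝ) ^ (-(k * s.re)) ≤ (4 : ℝ) ^ (-(k * σ)) :=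
    Real.rpow_le_rpow_of_exponent_le (by norm_num)
      (neg_le_neg (mul_le_mul_of_nonneg_left hs (Nat.cast_nonneg k)))
  have e2 : 2 * (kp k * (4 : ℝ) ^ (-(k * s.re)) * M) ≤ 2 * (kp k * (4 : ℝ) ^ (-(k * σ)) * M) := by
    gcongr
  exact ⟨h0.trans e2, h1.trans e2⟩

theorem aligned_Build (S : Finset ℕ) (k : ℕ) (c : ℕ → ℂ) (θ σ : ℝ) (hS : S ⊆ blk k)
    (hc : ∀ p ∈ S, c p = ph θ p) (hσ : 0 ≤ σ) :
    al k S.card σ ≤ ‖D1 c S (σ + θ * I)‖ := by
  have e : D1 c S (σ + θ * I) = ((∑ p ∈ S, Real.log p * (p : ℝ) ^ (-σ) : ℝ) : ℂ) := by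
    unfold D1
    rw [ofReal_sum]
    refine Finset.sum_congr rfl fun p hp => ?_
    rw [hc p hp, ph_mul_cpow θ (mem_blk.1 (hS hp)).2.ne_zero]
    have e1 : ((σ : ℂ) + θ * I).re = σ := by simp
    have e2 : ((σ : ℂ) + θ * I).im = θ := by simp
    rw [e1, e2, sub_self, ph_zero, mul_one, ofReal_mul]
  rw [e, norm_real]
  refine le_trans ?_ (le_abs_self _)
  have h : ∀ p ∈ S, Real.log (4 ^ k) * (4 : ℝ) ^ (-((k + 1) * σ))
      ≤ Real.log p * (p : ℝ) ^ (-σ) := by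
    intro p hp
    obtain ⟨⟨h1, h2⟩, -⟩ := mem_blk.1 (hS hp)
    have h1' : (4 : ℝ) ^ k ≤ p := by exact_mod_cast h1
    have h2' : (p : ℝ) ≤ 4 ^ (k + 1) := by exact_mod_cast h2.le
    have h3 : (1 : ℝ) ≤ 4 ^ k := one_le_pow₀ (by norm_num)
    have h4 : (4 : ℝ) ^ (-((k + 1) * σ)) = ((4 : ℝ) ^ (k + 1)) ^ (-σ) := by
      rw [← Real.rpow_natCast, ← Real.rpow_mul (by norm_num)]
      congr 1
      push_cast
      ring
    rw [h4]
    refine mul_le_mul (Real.log_le_log (by linarith) h1')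
      (Real.rpow_le_rpow_of_nonpos (by linarith) h2' (neg_nonpos.2 hσ)) (by positivity)
      (Real.log_nonneg (by linarith))
  have h2 := Finset.card_nsmul_le_sum S _ _ h
  rw [nsmul_eq_mul] at h2
  unfold al
  linarith

theorem sBuild (hG : SGen) (hA : SAbel) : SBuild := by
  classical
  intro m n R hm hn
  choose A hAs hAc using fun j => Finset.exists_subset_card_eq (hn j)
  let AA : ℕ → Finset ℕ := Function.extend m A fun _ => ∅
  have hAA1 : ∀ j, AA (m j) = A j := fun j => hm.injective.extend_apply _ _ _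
  have hAA2 : ∀ k, (¬ ∃ j, m j = k) → AA k = ∅ := fun k h => Function.extend_apply' _ _ _ h
  have hAAs : ∀ k, AA k ⊆ blk k := by
    intro k
    by_cases e : ∃ j, m j = k
    · obtain ⟨j, rfl⟩ := e
      rw [hAA1]
      exact hAs j
    · rw [hAA2 k e]
      exact Finset.empty_subset _
  have hT : ∀ j, 2 * ((4 : ℝ) ^ (m j + 1)) ^ (3 * (R j + kp (m j)))
      ≤ (2 : ℝ) ^ rr (m j) (R j) / 2 := by
    intro j
    have h : (4 : ℝ) ^ (m j + 1) = 2 ^ kp (m j) := by exact_mod_cast four_pow_eq (m j)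
    rw [h, ← pow_mul, rr, pow_add,
      show kp (m j) * (3 * (R j + kp (m j))) = 3 * kp (m j) * (R j + kp (m j)) by ring]
    linarith
  choose a ha1 ha2 using fun j => hG (A j) (m j) (R j) _ (hAs j) (hT j)
  choose g _ hg2 using fun k => hG (blk k \ AA k) k (4 ^ (k + 1)) _ Finset.sdiff_subset le_rfl
  let aa : ℕ → ℝ := Function.extend m a fun _ => 0
  have haa : ∀ j, aa (m j) = a j := fun j => hm.injective.extend_apply _ _ _
  let c : ℕ → ℂ := fun p =>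
    ph (if p ∈ AA (Nat.log 4 p) then aa (Nat.log 4 p) else g (Nat.log 4 p)) p
  have hcG : ∀ k, ∀ p ∈ blk k \ AA k, c p = ph (g k) p := by
    intro k p hp
    obtain ⟨h1, h2⟩ := Finset.mem_sdiff.1 hp
    have h3 := (mem_blk_log.1 h1).2
    simp only [c, h3, if_neg h2]
  have hcA : ∀ j, ∀ p ∈ A j, c p = ph (a j) p := by
    intro j p hp
    have h3 := (mem_blk_log.1 (hAs j hp)).2
    simp only [c, h3, hAA1, if_pos hp, haa]
  have hGb : ∀ (σ : ℝ) (r : ℕ) (s : ℂ), 0 ≤ σ → σ ≤ s.re → |s.im| ≤ 2 ^ r → ∀ k,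
      ‖D0 c (blk k \ AA k) s‖ ≤ 2 * ww σ r k ∧ ‖D1 c (blk k \ AA k) s‖ ≤ 2 * ww σ r k := by
    intro σ r s hσ hs hi k
    refine abel_Build hA _ k c (g k) (BB k r) σ s Finset.sdiff_subset (hcG k) hσ hs
      (BB_nonneg k r) fun x => le_min (zz_triv_Build Finset.sdiff_subset _ x) ?_
    rcases le_total r (4 ^ (k + 1)) with h | h
    · exact hg2 k r h _ hi x
    · exact (zz_triv_Build Finset.sdiff_subset _ x).trans (gb_big_Build h)
  have hAb : ∀ (σ : ℝ) (r : ℕ) (s : ℂ), 0 ≤ σ → σ ≤ s.re → |s.im| ≤ 2 ^ r → ∀ k,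
      ‖D0 c (AA k) s‖ ≤ 2 * ww σ r k + 2 * fx m n R σ r k ∧
        ‖D1 c (AA k) s‖ ≤ 2 * ww σ r k + 2 * fx m n R σ r k := by
    intro σ r s hσ hs hi k
    have hw := ww_nonneg σ r k
    have hf := fx_nonneg hm n R σ r k
    by_cases e : ∃ j, m j = k
    · obtain ⟨j, rfl⟩ := e
      rw [hAA1]
      rcases le_or_gt r (R j) with h | h
      · have h1 : ‖D0 c (A j) s‖ ≤ 2 * ww σ r (m j) ∧ ‖D1 c (A j) s‖ ≤ 2 * ww σ r (m j) :=
          abel_Build hA _ (m j) c (a j) (BB (m j) r) σ s (hAs j) (hcA j) hσ hs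
            (BB_nonneg _ r) fun x => le_min (zz_triv_Build (hAs j) _ x) (ha2 j r h _ hi x)
        exact ⟨by linarith [h1.1], by linarith [h1.2]⟩
      · have h1 : ‖D0 c (A j) s‖ ≤ 2 * ee (m j) (n j) σ ∧ ‖D1 c (A j) s‖ ≤ 2 * ee (m j) (n j) σ :=
          abel_Build hA _ (m j) c (a j) (n j) σ s (hAs j) (hcA j) hσ hs
            (Nat.cast_nonneg _) fun x => hAc j ▸ norm_ZZ_le (A j) _ x
        have h2 : fx m n R σ r (m j) = ee (m j) (n j) σ := by
          rw [fx_apply hm, ex, if_pos h]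
        exact ⟨by linarith [h1.1], by linarith [h1.2]⟩
    · rw [hAA2 k e]
      simp only [D0, D1, Finset.sum_empty, norm_zero]
      exact ⟨by linarith, by linarith⟩
  have hs0 : ∀ k s, D0 c (blk k) s = D0 c (blk k \ AA k) s + D0 c (AA k) s :=
    fun k s => (Finset.sum_sdiff (hAAs k)).symm
  have hs1 : ∀ k s, D1 c (blk k) s = D1 c (blk k \ AA k) s + D1 c (AA k) s :=
    fun k s => (Finset.sum_sdiff (hAAs k)).symm
  refine ⟨c, a, fun p => norm_ph _ p, fun j => ⟨by linarith [(ha1 j).1], by linarith [(ha1 j).2]⟩,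
    fun σ r s hσ hs hi k => ?_, fun j σ hσ => ?_⟩
  · obtain ⟨h1, h2⟩ := hGb σ r s hσ hs hi k
    obtain ⟨h3, h4⟩ := hAb σ r s hσ hs hi k
    rw [hs0, hs1]
    exact ⟨(norm_add_le _ _).trans (by linarith), (norm_add_le _ _).trans (by linarith)⟩
  · have hp : (0 : ℝ) < 2 ^ rr (m j) (R j) := by positivity
    have e1 : ((σ : ℂ) + a j * I).re = σ := by simp
    have e2 : ((σ : ℂ) + a j * I).im = a j := by simp
    have h1 := (hGb σ (rr (m j) (R j)) (σ + a j * I) hσ e1.ge (by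
      rw [e2, abs_of_nonneg (by linarith [(ha1 j).1])]
      linarith [(ha1 j).2]) (m j)).2
    have h2 := aligned_Build (A j) (m j) c (a j) σ (hAs j) (hcA j) hσ
    rw [hAc j] at h2
    have h3 : D1 c (A j) (σ + a j * I)
        = D1 c (blk (m j)) (σ + a j * I) - D1 c (blk (m j) \ AA (m j)) (σ + a j * I) := by
      rw [hs1 (m j), hAA1]
      ring
    have h4 := norm_sub_le (D1 c (blk (m j)) (σ + a j * I))
      (D1 c (blk (m j) \ AA (m j)) (σ + a j * I))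
    rw [← h3] at h4
    linarith

end Pool.Agent.MP_d232b3_nt.Hz

end

section
set_option autoImplicit false

open Complex MeasureTheory Filter Set

namespace Pool.Agent.MP_d232b3_nt.Hz

theorem sum_Loc (σ : ℝ) (h : 1 / 2 < σ) : Summable (qq σ) := by
  have x0 : (0 : ℝ) < (4 : ℝ) ^ (1 - 2 * σ) := by positivity
  have x1 : ‖(4 : ℝ) ^ (1 - 2 * σ)‖ < 1 := by
    rw [Real.norm_of_nonneg x0.le]
    exact Real.rpow_lt_one_of_one_lt_of_neg (by norm_num) (by linarith)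
  have a := (summable_pow_mul_geometric_of_norm_lt_one 1 x1).mul_left 32
  have b := (summable_pow_mul_geometric_of_norm_lt_one 0 x1).mul_left 32
  refine (a.add b).congr fun m => ?_
  rw [qq, kp, mul_comm (m : ℝ), Real.rpow_mul (by norm_num), Real.rpow_natCast]
  push_cast
  ring

theorem small_Loc {z : ℂ} (h : ‖z‖ ^ 2 ≤ 1 / 2) :
    ‖z‖ < 1 ∧ ‖-log (1 - z) - z‖ ≤ 2 * ‖z‖ ^ 2 ∧ ‖z / (1 - z) - z‖ ≤ 4 * ‖z‖ ^ 2 := by
  have z0 := norm_nonneg z
  have z1 : ‖z‖ ≤ 3 / 4 := by nlinarith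
  have i : (1 - ‖z‖)⁻¹ ≤ 4 := by
    rw [inv_le_comm₀ (by linarith) (by norm_num)]; linarith
  have s := sq_nonneg ‖z‖
  refine ⟨by linarith, ?_, ?_⟩
  · have := norm_log_one_add_sub_self_le (z := -z) (by rw [norm_neg]; linarith)
    rw [norm_neg] at this
    rw [show -log (1 - z) - z = -(log (1 + -z) - -z) by rw [← sub_eq_add_neg]; ring, norm_neg]
    nlinarith
  · have n : 1 / 4 ≤ ‖1 - z‖ := by
      have := norm_sub_norm_le (1 : ℂ) z
      rw [norm_one] at this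
      linarith
    have n0 : 1 - z ≠ 0 := norm_pos_iff.1 (by linarith)
    rw [show z / (1 - z) - z = z ^ 2 / (1 - z) by field_simp; ring, norm_div, norm_pow,
      div_le_iff₀ (by linarith)]
    nlinarith

theorem term_Loc {a : ℂ} (ha : ‖a‖ = 1) {σ : ℝ} {m p : ℕ} {s : ℂ} (h1 : 1 / 2 ≤ σ)
    (h2 : σ ≤ s.re) (hp : p ∈ blk m) :
    ‖a * (p : ℂ) ^ (-s)‖ ^ 2 ≤ 1 / 2 ∧ ‖a * (p : ℂ) ^ (-s)‖ ^ 2 ≤ (4 : ℝ) ^ (m * (-2 * σ)) ∧
      0 ≤ Real.log p ∧ Real.log p ≤ kp m := by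
  obtain ⟨⟨l, u⟩, pp⟩ := mem_blk.1 hp
  have p2 : (2 : ℝ) ≤ p := by exact_mod_cast pp.two_le
  have e : ‖a * (p : ℂ) ^ (-s)‖ ^ 2 ≤ (p : ℝ) ^ (-2 * σ) := by
    rw [norm_mul, ha, one_mul, norm_natCast_cpow_of_pos pp.pos, ← Real.rpow_natCast,
      ← Real.rpow_mul (by linarith)]
    refine Real.rpow_le_rpow_of_exponent_le (by linarith) ?_
    simp only [neg_re, Nat.cast_ofNat]
    linarith
  refine ⟨e.trans ?_, e.trans ?_, Real.log_nonneg (by linarith), le_trans ?_ (log_four_pow_le m)⟩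
  · refine (Real.rpow_le_rpow_of_exponent_le (y := -2 * σ) (z := -1) (by linarith)
      (by linarith)).trans ?_
    rw [Real.rpow_neg_one, one_div]
    exact inv_anti₀ (by norm_num) p2
  · rw [Real.rpow_mul (x := 4) (by norm_num), Real.rpow_natCast]
    exact Real.rpow_le_rpow_of_nonpos (by positivity) (by exact_mod_cast l) (by linarith)
  · exact Real.log_le_log (by linarith) (by exact_mod_cast u.le)

theorem der_Loc {a : ℂ} {p : ℕ} {s : ℂ} (hp : p ≠ 0) (h : ‖a * (p : ℂ) ^ (-s)‖ < 1) :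
    HasDerivAt (fun s : ℂ => -log (1 - a * (p : ℂ) ^ (-s)))
      (-((Real.log p : ℝ) * (a * (p : ℂ) ^ (-s) / (1 - a * (p : ℂ) ^ (-s))))) s := by
  have d := ((hasDerivAt_neg s).const_cpow (c := (p : ℂ))
    (Or.inl (by exact_mod_cast hp))).const_mul a
  have sl : 1 - a * (p : ℂ) ^ (-s) ∈ slitPlane := by
    rw [sub_eq_add_neg]
    exact mem_slitPlane_of_norm_lt_one (by rwa [norm_neg])
  refine ((d.const_sub 1).clog sl).fun_neg.congr_deriv ?_
  rw [natCast_log]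
  ring

theorem tot_Loc (σ : ℝ) (m : ℕ) (f : ℕ → ℂ)
    (h : ∀ p ∈ blk m, ‖f p‖ ≤ 4 * kp m * (4 : ℝ) ^ (m * (-2 * σ))) :
    ‖∑ p ∈ blk m, f p‖ ≤ qq σ m := by
  refine (norm_sum_le _ _).trans ((Finset.sum_le_card_nsmul _ _ _ h).trans ?_)
  have c : ((blk m).card : ℝ) ≤ 4 ^ (m + 1) := by exact_mod_cast card_blk_le m
  rw [nsmul_eq_mul]
  refine (mul_le_mul_of_nonneg_right c (by positivity)).trans (le_of_eq ?_)
  rw [qq, show (m : ℝ) * (1 - 2 * σ) = m + m * (-2 * σ) by ring, Real.rpow_add (by norm_num),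
    Real.rpow_natCast]
  ring

theorem sLoc : SLoc := by
  refine ⟨sum_Loc, fun c hc σ m s h1 h2 => ?_⟩
  have t := fun p hp => term_Loc (m := m) (p := p) (hc p) h1 h2 hp
  have d : HasDerivAt (LL c m) (∑ p ∈ blk m,
      -((Real.log p : ℝ) * (c p * (p : ℂ) ^ (-s) / (1 - c p * (p : ℂ) ^ (-s))))) s :=
    HasDerivAt.fun_sum fun p hp =>
      der_Loc (mem_blk.1 hp).2.ne_zero (small_Loc (t p hp).1).1
  have k : (2 : ℝ) ≤ kp m := by exact_mod_cast two_le_kp m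
  have w : (0 : ℝ) ≤ (4 : ℝ) ^ (m * (-2 * σ)) := by positivity
  refine ⟨d.differentiableAt, ?_, ?_⟩
  · rw [LL, D0, ← Finset.sum_sub_distrib]
    refine tot_Loc σ m _ fun p hp => (small_Loc (t p hp).1).2.1.trans ?_
    nlinarith [(t p hp).2.1]
  · rw [d.deriv, D1, ← Finset.sum_add_distrib]
    refine tot_Loc σ m _ fun p hp => ?_
    obtain ⟨t1, t2, t3, t4⟩ := t p hp
    rw [neg_add_eq_sub, ← mul_sub, norm_mul, norm_sub_rev, norm_real, Real.norm_of_nonneg t3]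
    refine (mul_le_mul t4 ((small_Loc t1).2.2.trans (mul_le_mul_of_nonneg_left t2 (by norm_num)))
      (norm_nonneg _) (by linarith)).trans (le_of_eq ?_)
    ring

end Pool.Agent.MP_d232b3_nt.Hz

end

section
set_option autoImplicit false

open Complex MeasureTheory Filter Set

namespace Pool.Agent.MP_d232b3_nt.Hz

/-- the completely multiplicative function with values `c p` at the primes -/
noncomputable def chi_Eul (c : ℕ → ℂ) : ℕ →*₀ ℂ where
  toFun n := if n = 0 then 0 else n.factorization.prod fun p k => c p ^ k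
  map_zero' := by simp
  map_one' := by simp
  map_mul' m n := by
    by_cases hm : m = 0
    · simp [hm]
    by_cases hn : n = 0
    · simp [hn]
    rw [if_neg (mul_ne_zero hm hn), if_neg hm, if_neg hn, Nat.factorization_mul hm hn,
      Finsupp.prod_add_index' (fun _ => pow_zero _) fun _ _ _ => pow_add _ _ _]

theorem chi_apply_Eul (c : ℕ → ℂ) {n : ℕ} (hn : n ≠ 0) :
    chi_Eul c n = n.factorization.prod fun p k => c p ^ k := if_neg hn

theorem chi_prime_Eul (c : ℕ → ℂ) {p : ℕ} (hp : p.Prime) : chi_Eul c p = c p := by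
  rw [chi_apply_Eul c hp.ne_zero, hp.factorization,
    Finsupp.prod_single_index (h := fun p k => c p ^ k) (pow_zero _), pow_one]

theorem chi_norm_Eul {c : ℕ → ℂ} (hc : ∀ p, ‖c p‖ = 1) {n : ℕ} (hn : n ≠ 0) :
    ‖chi_Eul c n‖ = 1 := by
  rw [chi_apply_Eul c hn, Finsupp.prod, norm_prod]
  exact Finset.prod_eq_one fun p _ => by rw [norm_pow, hc, one_pow]

theorem regroup_Eul {g : ℕ → ℂ} (hg : Summable g) :
    ∑' m, ∑ p ∈ blk m, g p = ∑' p : Nat.Primes, g p := by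
  have h1 : HasSum ({n : ℕ | n.Prime}.indicator g) (∑' p : Nat.Primes, g p) :=
    hasSum_subtype_iff_indicator.1 (hg.subtype Nat.Prime).hasSum
  have h2 := h1.tsum_fiberwise (Nat.log 4)
  refine (tsum_congr fun m => ?_).trans h2.tsum_eq
  rw [tsum_subtype (Nat.log 4 ⁻¹' {m}) ({n : ℕ | n.Prime}.indicator g),
    tsum_eq_sum (s := blk m)]
  · refine Finset.sum_congr rfl fun p hp => ?_
    have h := mem_blk_log.1 hp
    rw [indicator_of_mem (by exact h.2), indicator_of_mem (by exact h.1)]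
  · intro p hp
    by_cases h : p.Prime
    · have h' : p ∉ Nat.log 4 ⁻¹' {m} := fun h' => hp (mem_blk_log.2 ⟨h, h'⟩)
      exact indicator_of_notMem h' _
    · rw [indicator_apply_eq_zero]
      exact fun _ => indicator_of_notMem (by exact h) _

theorem sEul : SEul := by
  intro c hc
  refine ⟨chi_Eul c, fun n hn => chi_norm_Eul hc hn, fun s hs => ?_⟩
  have hs0 := ne_zero_of_one_lt_re hs
  let f : ℕ →*₀ ℂ :=
    { toFun := fun n => chi_Eul c n * riemannZetaSummandHom hs0 n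
      map_zero' := by simp
      map_one' := by simp
      map_mul' := fun m n => by
        rw [map_mul, map_mul]
        exact mul_mul_mul_comm _ _ _ _ }
  have hf : ∀ n, f n = chi_Eul c n * (n : ℂ) ^ (-s) := fun _ => rfl
  have hsum : Summable fun n => ‖f n‖ := by
    refine (summable_riemannZetaSummand hs).congr fun n => ?_
    by_cases hn : n = 0
    · simp [hn]
    · change _ = ‖chi_Eul c n * riemannZetaSummandHom hs0 n‖
      rw [norm_mul, chi_norm_Eul hc hn, one_mul]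
  have h1 : ∀ m, LL c m s = ∑ p ∈ blk m, -log (1 - f p) := fun m =>
    Finset.sum_congr rfl fun p hp => by rw [hf, chi_prime_Eul c (mem_blk_log.1 hp).1]
  rw [FF, tsum_congr h1, regroup_Eul (g := fun n => -log (1 - f n)) hsum.of_norm.clog_one_sub.neg,
    EulerProduct.exp_tsum_primes_log_eq_tsum hsum, LSeries]
  refine tsum_congr fun n => ?_
  by_cases hn : n = 0
  · simp [hn]
  · rw [hf, LSeries.term_of_ne_zero hn, cpow_neg, div_eq_mul_inv]

end Pool.Agent.MP_d232b3_nt.Hz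

end

section
set_option autoImplicit false

open Complex MeasureTheory Filter Set

namespace Pool.Agent.MP_d232b3_nt.Hz

theorem sAn (hL : SLoc) : SAn := by
  intro c hc hu
  have key : ∀ s : ℂ, 1 / 2 < s.re → DifferentiableAt ℂ (fun w => ∑' m, LL c m w) s ∧
      HasSum (fun m => deriv (LL c m) s) (deriv (fun w => ∑' m, LL c m w) s) ∧
      (Summable fun m => LL c m s) ∧ (Summable fun m => D0 c (blk m) s) ∧
      Summable fun m => D1 c (blk m) s := by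
    intro s hs
    obtain ⟨σ, h1, h2⟩ := exists_between hs
    obtain ⟨r, hr⟩ := pow_unbounded_of_one_lt |s.im| (one_lt_two (α := ℝ))
    obtain ⟨u, hus, hb⟩ := hu σ h1 r
    have hU : IsOpen ({z : ℂ | σ < z.re} ∩ {z : ℂ | |z.im| < 2 ^ r}) :=
      (isOpen_lt continuous_const continuous_re).inter
        (isOpen_lt continuous_im.abs continuous_const)
    have hsU : s ∈ {z : ℂ | σ < z.re} ∩ {z : ℂ | |z.im| < 2 ^ r} := ⟨h2, hr⟩
    have hd : ∀ m, DifferentiableOn ℂ (LL c m) ({z : ℂ | σ < z.re} ∩ {z : ℂ | |z.im| < 2 ^ r}) :=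
      fun m z hz => (hL.2 c hc σ m z h1.le (le_of_lt hz.1)).1.differentiableWithinAt
    have hle : ∀ m, ∀ z ∈ {z : ℂ | σ < z.re} ∩ {z : ℂ | |z.im| < 2 ^ r},
        ‖LL c m z‖ ≤ qq σ m + u m := fun m z hz => by
      have a := norm_add_le (LL c m z - D0 c (blk m) z) (D0 c (blk m) z)
      rw [sub_add_cancel] at a
      linarith [(hL.2 c hc σ m z h1.le (le_of_lt hz.1)).2.1,
        (hb m z (le_of_lt hz.1) (le_of_lt hz.2)).1]
    have hq := (hL.1 σ h1).add hus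
    exact ⟨(differentiableOn_tsum_of_summable_norm hq hd hU hle).differentiableAt (hU.mem_nhds hsU),
      hasSum_deriv_of_summable_norm hq hd hU hle hsU,
      .of_norm_bounded hq fun m => hle m s hsU,
      .of_norm_bounded hus fun m => (hb m s h2.le hr.le).1,
      .of_norm_bounded hus fun m => (hb m s h2.le hr.le).2⟩
  refine ⟨fun s hs => (key s hs).1.cexp.differentiableWithinAt,
    fun σ hσ => ⟨∑' m, qq σ m, fun s hs => ?_⟩⟩
  obtain ⟨k1, k2, k3, k4, k5⟩ := key s (hσ.trans_le hs)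
  constructor
  · have a := (k3.hasSum.sub k4.hasSum).norm_le_of_bounded (hL.1 σ hσ).hasSum
      fun m => (hL.2 c hc σ m s hσ.le hs).2.1
    have b := norm_add_le (∑' m, LL c m s - ∑' m, D0 c (blk m) s) (∑' m, D0 c (blk m) s)
    rw [sub_add_cancel] at b
    rw [FF, norm_exp, Real.log_exp]
    linarith [abs_re_le_norm (∑' m, LL c m s)]
  · have a := (k2.add k5.hasSum).norm_le_of_bounded (hL.1 σ hσ).hasSum
      fun m => (hL.2 c hc σ m s hσ.le hs).2.2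
    have b : logDeriv (FF c) s = deriv (fun w => ∑' m, LL c m w) s := by
      rw [logDeriv_apply]
      unfold FF
      rw [deriv_cexp k1, mul_div_cancel_left₀ _ (exp_ne_zero _)]
    rwa [b]

end Pool.Agent.MP_d232b3_nt.Hz

end
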