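import Mathlib

/-! Euler products with unimodular coefficients that satisfy the Riemann hypothesis. -/

set_option autoImplicit false

open Complex Filter Set Asymptotics

namespace Pool.Agent.MP_d232b3_nt.Hz

/-- `G` continues `(s - 1) ^ k ∑ χ(n) n ^ (-s)` to `Re s > 1 / 2` without zeros and with
polynomial growth in every smaller half plane; `χ` is completely multiplicative of modulus one. -/
structure Cls (χ : ℕ →*₀ ℂ) (k : ℕ) (G : ℂ → ℂ) : Prop where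
  uni : ∀ n ≠ 0, ‖χ n‖ = 1
  diff : DifferentiableOn ℂ G {s | 1 / 2 < s.re}
  eq : ∀ s : ℂ, 1 < s.re → G s = (s - 1) ^ k * LSeries χ s
  ne : ∀ s : ℂ, 1 / 2 < s.re → G s ≠ 0
  ord : ∀ σ : ℝ, 1 / 2 < σ → ∃ A C : ℝ, ∀ s : ℂ, σ ≤ s.re → ‖G s‖ ≤ C * (‖s‖ + 1) ^ A

/-- the admissible exponents for the logarithmic derivative on the line `Re s = σ` -/
def Ex (G : ℂ → ℂ) (σ : ℝ) : Set ℝ :=
  {a | ∀ ε : ℝ, 0 < ε →
    (fun t : ℝ => logDeriv G (σ + t * I)) =O[atTop] fun t : ℝ => Real.log t ^ (a + ε)}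

end Pool.Agent.MP_d232b3_nt.Hz
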