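import Pool.Agent.MP_d232b3_nt.Hz.Build1
import Pool.Agent.MP_d232b3_nt.Hz.Defs

section
/-! The classical constraints on the growth exponent: steps. -/

set_option autoImplicit false

open Complex MeasureTheory Filter Set Asymptotics
open scoped Real

namespace Pool.Agent.MP_d232b3_nt.Hz

/-- the growth exponent -/
noncomputable def nu (G : ℂ → ℂ) (σ : ℝ) : ℝ := sInf (Ex G σ)

/-- the kernel `x ^ s / (s (s + 1))` -/
noncomputable def KR (x : ℕ) (s : ℂ) : ℂ := (x : ℂ) ^ s / (s * (s + 1))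

/-- the twisted von Mangoldt function -/
noncomputable def LC (χ : ℕ →*₀ ℂ) (n : ℕ) : ℂ := (ArithmeticFunction.vonMangoldt n : ℝ) * χ n

def SU : Prop := ∀ (χ : ℕ →*₀ ℂ) (k : ℕ) (G : ℂ → ℂ), Cls χ k G →
  (∀ s : ℂ, 1 < s.re → logDeriv G s = k * (1 / (s - 1)) - LSeries (LC χ) s) ∧
  LSeriesSummable (LC χ) 2 ∧
  (∀ σ : ℝ, 1 < σ → ∃ C : ℝ, ∀ s : ℂ, σ ≤ s.re → ‖logDeriv G s‖ ≤ C) ∧
  ∀ s : ℂ, 1 / 2 < s.re → DifferentiableAt ℂ (logDeriv G) s

def SA : Prop := ∀ (χ : ℕ →*₀ ℂ) (k : ℕ) (G : ℂ → ℂ), Cls χ k G → ∀ σ : ℝ, 1 / 2 < σ →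
  ∃ C : ℝ, ∀ s : ℂ, σ ≤ s.re → s.re ≤ 3 → ‖logDeriv G s‖ ≤ C * Real.log (|s.im| + 3)

def SB : Prop := ∀ (g : ℂ → ℂ) (σ₁ σ₂ a₁ a₂ l : ℝ), σ₁ < σ₂ → 0 ≤ a₁ → 0 ≤ a₂ → 0 ≤ l → l ≤ 1 →
  (∀ s : ℂ, σ₁ ≤ s.re → s.re ≤ σ₂ → DifferentiableAt ℂ g s) →
  (∃ C : ℝ, ∀ s : ℂ, σ₁ ≤ s.re → s.re ≤ σ₂ → ‖g s‖ ≤ C * Real.log (|s.im| + 3)) →
  ((fun t : ℝ => g (σ₁ + t * I)) =O[atTop] fun t : ℝ => Real.log t ^ a₁) →
  ((fun t : ℝ => g (σ₂ + t * I)) =O[atTop] fun t : ℝ => Real.log t ^ a₂) →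
  (fun t : ℝ => g (((1 - l) * σ₁ + l * σ₂ : ℝ) + t * I)) =O[atTop]
    fun t : ℝ => Real.log t ^ ((1 - l) * a₁ + l * a₂)

def SPer : Prop := ∀ (f : ℕ → ℂ) (x : ℕ) (t : ℝ), 1 ≤ x → LSeriesSummable f 2 →
  ∫ v : ℝ, LSeries f (2 + v * I + t * I) * KR x (2 + v * I)
    = 2 * π * ∑ n ∈ Finset.Ico 1 x, ((1 - n / x : ℝ) : ℂ) * (f n * ph (-t) n)

def SShift : Prop := ∀ (g : ℂ → ℂ) (σ a : ℝ), 1 / 2 < σ → σ < 1 → 0 ≤ a →
  (∀ s : ℂ, σ ≤ s.re → DifferentiableAt ℂ g s) →
  (∃ C : ℝ, ∀ s : ℂ, σ ≤ s.re → s.re ≤ 3 → ‖g s‖ ≤ C * Real.log (|s.im| + 3)) →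
  ((fun t : ℝ => g (σ + t * I)) =O[atTop] fun t : ℝ => Real.log t ^ a) →
  ∃ C T : ℝ, ∀ t : ℝ, T ≤ t → ∀ x : ℕ, 1 ≤ x →
    Integrable (fun v : ℝ => g (2 + v * I + t * I) * KR x (2 + v * I)) ∧
    ‖∫ v : ℝ, g (2 + v * I + t * I) * KR x (2 + v * I)‖ ≤ C * (x : ℝ) ^ σ * Real.log t ^ a

def SPole : Prop := ∃ C : ℝ, ∀ (x : ℕ) (t : ℝ), 1 ≤ x → 1 ≤ t →
  Integrable (fun v : ℝ => 1 / (2 + v * I + t * I - 1) * KR x (2 + v * I)) ∧
    ‖∫ v : ℝ, 1 / (2 + v * I + t * I - 1) * KR x (2 + v * I)‖ ≤ C * (x : ℝ) ^ 2 / √t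

def SLowM : Prop := ∀ (χ : ℕ →*₀ ℂ) (P S : Finset ℕ) (x : ℕ) (a : ℕ → ℝ) (α T : ℝ),
  (∀ n ≠ 0, ‖χ n‖ = 1) → (∀ p ∈ P, p.Prime ∧ p < x ∧ 0 ≤ a p ∧ a p ≤ x) → S ⊆ P → S.Nonempty →
  1 ≤ α → (∀ p ∈ S, α ≤ a p) → 4 * (x : ℝ) ^ (5 * S.card) ≤ T →
  ∃ t ∈ Icc T (2 * T), α * S.card / 4 ≤ ‖∑ p ∈ P, (a p : ℂ) * (χ p * ph (-t) p)‖

def SLow : Prop := ∀ (χ : ℕ →*₀ ℂ) (k : ℕ) (G : ℂ → ℂ), Cls χ k G →
  ∀ σ ∈ Ioo (1 / 2 : ℝ) 1, ∀ a ∈ Ex G σ, 1 - σ ≤ a

def SConv : Prop := ∀ (χ : ℕ →*₀ ℂ) (k : ℕ) (G : ℂ → ℂ), Cls χ k G →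
  (∀ σ ∈ Ioo (1 / 2 : ℝ) 1, IsLeast (Ex G σ) (nu G σ)) ∧ ConvexOn ℝ (Ioo (1 / 2) 1) (nu G) ∧
    ∀ σ ∈ Ioo (1 / 2 : ℝ) 1, 1 - σ ≤ nu G σ ∧ nu G σ ≤ 2 - 2 * σ

end Pool.Agent.MP_d232b3_nt.Hz

end

section
set_option autoImplicit false

open Complex MeasureTheory Filter Set Asymptotics

namespace Pool.Agent.MP_d232b3_nt.Hz

theorem level_Fin (τ : ℝ) : ∃ r : ℕ, 1 ≤ r ∧ |τ| ≤ 2 ^ r ∧ (r : ℝ) ≤ 4 * Real.log (|τ| + 2) := by
  have h0 := abs_nonneg τ
  have l2 := Real.log_two_gt_d9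
  have h1 : Real.log 2 ≤ Real.log (|τ| + 2) := Real.log_le_log (by norm_num) (by linarith)
  have h2 : 1 ≤ Real.log (|τ| + 2) / Real.log 2 := by rw [le_div_iff₀ (by linarith)]; linarith
  refine ⟨⌈Real.log (|τ| + 2) / Real.log 2⌉₊, Nat.one_le_iff_ne_zero.2 (Nat.ceil_pos.2
    (by linarith)).ne', ?_, ?_⟩
  · have h3 := Nat.le_ceil (Real.log (|τ| + 2) / Real.log 2)
    rw [div_le_iff₀ (by linarith), ← Real.log_pow] at h3
    have := (Real.log_le_log_iff (by linarith) (by positivity)).1 h3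
    linarith
  · have h3 := Nat.ceil_lt_add_one (a := Real.log (|τ| + 2) / Real.log 2) (by linarith)
    have h4 : Real.log (|τ| + 2) / Real.log 2 ≤ 2 * Real.log (|τ| + 2) := by
      rw [div_le_iff₀ (by linarith)]; nlinarith
    linarith

theorem key_Fin (hW : SW) (hE : SEx) {ν : ℝ → ℝ} {m n R : ℕ → ℕ} (hP : Plan ν m n R) {σ : ℝ}
    (hσ : σ ∈ Ioo (1 / 2 : ℝ) 1) (hν : 1 - σ ≤ ν σ) {ε : ℝ} (hε : 0 < ε) :
    ∃ C : ℝ, 0 ≤ C ∧ ∀ r : ℕ, 1 ≤ r → Summable (ww σ r) ∧ Summable (fx m n R σ r) ∧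
      ∑' k, (4 * ww σ r k + 2 * fx m n R σ r k) ≤ C * (r : ℝ) ^ (ν σ + ε) := by
  obtain ⟨C₁, h0, h1⟩ := hW (min ε (σ - 1 / 2)) (lt_min hε (by linarith [hσ.1]))
  obtain ⟨C₂, h2⟩ := (hE ν m n R hP σ hσ (by linarith [hσ.2])).1 ε hε
  refine ⟨4 * C₁ + 2 * max C₂ 0, by positivity, fun r hr => ?_⟩
  obtain ⟨s1, b1⟩ := h1 σ (by linarith [min_le_right ε (σ - 1 / 2)]) hσ.2.le r hr
  obtain ⟨s2, b2⟩ := h2 r hr
  refine ⟨s1, s2, ?_⟩
  rw [(s1.mul_left 4).tsum_add (s2.mul_left 2), tsum_mul_left, tsum_mul_left]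
  have hr' : (1 : ℝ) ≤ r := by exact_mod_cast hr
  have e1 : (r : ℝ) ^ (1 - σ + min ε (σ - 1 / 2)) ≤ (r : ℝ) ^ (ν σ + ε) :=
    Real.rpow_le_rpow_of_exponent_le hr' (by linarith [min_le_left ε (σ - 1 / 2)])
  have e2 : 0 ≤ (r : ℝ) ^ (ν σ + ε) := by positivity
  have e3 := mul_le_mul_of_nonneg_left e1 h0
  have e4 := mul_le_mul_of_nonneg_right (le_max_left C₂ 0) e2
  linarith

theorem split_Fin {d : ℕ → ℂ} {w f : ℕ → ℝ} (hw : Summable w) (hf : Summable f)
    (w0 : ∀ k, 0 ≤ w k) (hd : ∀ k, ‖d k‖ ≤ 4 * w k + 2 * f k) (i : ℕ) {A B : ℝ}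
    (hA : A - 2 * w i ≤ ‖d i‖) (hB : ∑' k, (if k = i then 0 else f k) ≤ B) :
    A - 4 * ∑' k, w k - 2 * B ≤ ‖∑' k, d k‖ := by
  have hu := (hw.mul_left 4).add (hf.mul_left 2)
  have sd : Summable d := Summable.of_norm_bounded hu hd
  have ite : ∀ {g : ℕ → ℝ}, Summable g → Summable fun k => if k = i then 0 else g k :=
    fun {g} hg => (hg.update i 0).congr fun k => by simp [Function.update_apply]
  have h1 : ‖∑' k, (if k = i then 0 else d k)‖ ≤
      4 * ∑' k, (if k = i then 0 else w k) + 2 * ∑' k, (if k = i then 0 else f k) := by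
    refine tsum_of_norm_bounded (((ite hw).hasSum.mul_left 4).add ((ite hf).hasSum.mul_left 2))
      fun k => ?_
    split_ifs
    · simp
    · exact hd k
  have h2 := hw.tsum_eq_add_tsum_ite i
  have h3 := sd.tsum_eq_add_tsum_ite i
  have h4 := norm_sub_le (∑' k, d k) (∑' k, (if k = i then 0 else d k))
  rw [show (∑' k, d k) - ∑' k, (if k = i then 0 else d k) = d i by rw [h3]; ring] at h4
  have := w0 i
  linarith

theorem exist_Fin (hPl : SPlan) (hE : SEx) (hBu : SBuild) (hW : SW) (hEu : SEul) (hAn : SAn)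
    (ν : ℝ → ℝ) (hc : ConvexOn ℝ (Ioo (1 / 2) 1) ν)
    (hb : ∀ σ ∈ Ioo (1 / 2 : ℝ) 1, 1 - σ ≤ ν σ ∧ ν σ ≤ 2 - 2 * σ) :
    ∃ (χ : ℕ →*₀ ℂ) (G : ℂ → ℂ), Cls χ 0 G ∧
      ∀ σ ∈ Ioo (1 / 2 : ℝ) 1, IsLeast (Ex G σ) (ν σ) := by
  obtain ⟨m, n, R, hP⟩ := hPl ν hc hb
  obtain ⟨c, a, hc1, ha, hup, hlow⟩ := hBu m n R hP.mono hP.card
  obtain ⟨χ, hχ, hL⟩ := hEu c hc1
  have key : ∀ σ ∈ Ioo (1 / 2 : ℝ) 1, ∀ ε : ℝ, 0 < ε → ∃ C : ℝ, 0 ≤ C ∧ ∀ s : ℂ, σ ≤ s.re →
      ‖∑' k, D0 c (blk k) s‖ ≤ C * (4 * Real.log (|s.im| + 2)) ^ (ν σ + ε) ∧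
      ‖∑' k, D1 c (blk k) s‖ ≤ C * (4 * Real.log (|s.im| + 2)) ^ (ν σ + ε) := by
    intro σ hσ ε hε
    obtain ⟨C, C0, hC⟩ := key_Fin hW hE hP hσ (hb σ hσ).1 hε
    refine ⟨C, C0, fun s hs => ?_⟩
    obtain ⟨r, r1, r2, r3⟩ := level_Fin s.im
    obtain ⟨s1, s2, b⟩ := hC r r1
    have hu := ((s1.mul_left 4).add (s2.mul_left 2)).hasSum
    have b' := b.trans (mul_le_mul_of_nonneg_left (Real.rpow_le_rpow (Nat.cast_nonneg r) r3
      (by linarith [(hb σ hσ).1, hσ.2])) C0)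
    have h := hup σ r s (by linarith [hσ.1]) hs r2
    exact ⟨(tsum_of_norm_bounded hu fun k => (h k).1).trans b',
      (tsum_of_norm_bounded hu fun k => (h k).2).trans b'⟩
  have hm : ∀ σ : ℝ, 1 / 2 < σ → min σ (3 / 4) ∈ Ioo (1 / 2 : ℝ) 1 := fun σ h =>
    ⟨lt_min h (by norm_num), (min_le_right _ _).trans_lt (by norm_num)⟩
  obtain ⟨hd, hA⟩ := hAn c hc1 fun σ hσ r => by
    obtain ⟨C, -, hC⟩ := key_Fin hW hE hP (hm σ hσ) (hb _ (hm σ hσ)).1 one_pos
    obtain ⟨s1, s2, -⟩ := hC (r + 1) (by omega)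
    refine ⟨_, (s1.mul_left 4).add (s2.mul_left 2), fun k s h1 h2 =>
      hup _ (r + 1) s (by linarith [(hm σ hσ).1]) ((min_le_left _ _).trans h1) (h2.trans ?_) k⟩
    exact pow_le_pow_right₀ (by norm_num) (by omega)
  refine ⟨χ, FF c, ⟨hχ, hd, fun s hs => by simpa using hL s hs, fun s _ => Complex.exp_ne_zero _,
    fun σ hσ => ?_⟩, fun σ hσ => ⟨fun ε hε => ?_, fun b hb' => ?_⟩⟩
  · have h := hm σ hσ
    obtain ⟨C, C0, hC⟩ := key _ h (1 - ν (min σ (3 / 4))) (by linarith [(hb _ h).2, h.1])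
    obtain ⟨K, hK⟩ := hA σ hσ
    refine ⟨4 * C, Real.exp K * 2 ^ (4 * C), fun s hs => ?_⟩
    have h1 := (hC s ((min_le_left _ _).trans hs)).1
    rw [add_sub_cancel, Real.rpow_one] at h1
    have h2 := (le_abs_self _).trans (hK s hs).1
    have h3 : 0 < ‖FF c s‖ := norm_pos_iff.2 (Complex.exp_ne_zero _)
    have h4 := abs_im_le_norm s
    have h5 : Real.log (|s.im| + 2) ≤ Real.log (2 * (‖s‖ + 1)) :=
      Real.log_le_log (by positivity) (by linarith [norm_nonneg s])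
    rw [mul_assoc, ← Real.mul_rpow (by norm_num) (by positivity),
      Real.rpow_def_of_pos (by positivity), ← Real.exp_add, ← Real.exp_log h3]
    exact Real.exp_le_exp.2 (by nlinarith)
  · obtain ⟨C, C0, hC⟩ := key σ hσ ε hε
    obtain ⟨K, hK⟩ := hA σ hσ.1
    have e0 : 0 ≤ ν σ + ε := by linarith [(hb σ hσ).1, hσ.2]
    refine IsBigO.of_bound (|K| + C * 8 ^ (ν σ + ε)) ?_
    filter_upwards [eventually_ge_atTop 3] with t ht
    have l1 : 1 ≤ Real.log t := by
      rw [Real.le_log_iff_exp_le (by linarith)]; linarith [Real.exp_one_lt_d9]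
    have h1 := (hC (σ + t * I) (by simp)).2
    have h2 := (hK (σ + t * I) (by simp)).2
    have h3 := norm_sub_le (logDeriv (FF c) (σ + t * I) + ∑' k, D1 c (blk k) (σ + t * I))
      (∑' k, D1 c (blk k) (σ + t * I))
    rw [add_sub_cancel_right] at h3
    have e : (σ + t * I : ℂ).im = t := by simp
    rw [e, abs_of_pos (by linarith)] at h1
    have l2 : Real.log (t + 2) ≤ 2 * Real.log t := by
      rw [show 2 * Real.log t = Real.log (t ^ 2) by rw [Real.log_pow]; norm_num]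
      exact Real.log_le_log (by linarith) (by nlinarith)
    have l3 : (4 * Real.log (t + 2)) ^ (ν σ + ε) ≤ 8 ^ (ν σ + ε) * Real.log t ^ (ν σ + ε) := by
      rw [← Real.mul_rpow (by norm_num) (by linarith)]
      exact Real.rpow_le_rpow (mul_nonneg (by norm_num) (Real.log_nonneg (by linarith)))
        (by linarith) e0
    have l4 : 1 ≤ Real.log t ^ (ν σ + ε) := Real.one_le_rpow l1 e0
    rw [Real.norm_of_nonneg (by linarith)]
    have l5 := mul_le_mul_of_nonneg_left l3 C0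
    have l6 := le_mul_of_one_le_right (abs_nonneg K) l4
    nlinarith [le_abs_self K]
  · by_contra hlt
    rw [not_le] at hlt
    have n0 : 0 < ν σ := by linarith [(hb σ hσ).1, hσ.2]
    set a' := (max b 0 + ν σ) / 2 with ha'
    have m1 : max b 0 < ν σ := max_lt hlt n0
    have m2 := le_max_left b 0
    have m3 := le_max_right b 0
    obtain ⟨K₁, hK₁⟩ := (hb' (a' - b) (by linarith)).bound
    rw [add_sub_cancel] at hK₁
    obtain ⟨T, hT⟩ := eventually_atTop.1 (hK₁.and (eventually_ge_atTop 1))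
    obtain ⟨K, hK⟩ := hA σ hσ.1
    obtain ⟨j, j1, j2⟩ := hP.low σ hσ a' (by linarith) (by linarith) (|K₁| + |K| + 2 * |T| + 1)
    set r := rr (m j) (R j) with hr
    have r1 : 1 ≤ r := by rw [hr, rr]; omega
    have r1' : (1 : ℝ) ≤ r := by exact_mod_cast r1
    have r2 : (r : ℝ) ≤ 2 ^ r := by exact_mod_cast (Nat.lt_two_pow_self (n := r)).le
    obtain ⟨a1, a2⟩ := ha j
    have aT : T ≤ a j := by linarith [le_abs_self T, abs_nonneg K₁, abs_nonneg K]
    obtain ⟨t1, t2⟩ := hT _ aT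
    obtain ⟨C, -, hC⟩ := key_Fin hW hE hP hσ (hb σ hσ).1 one_pos
    obtain ⟨s1, s2, -⟩ := hC r r1
    have σ0 : 0 ≤ σ := by linarith [hσ.1]
    have h1 := split_Fin s1 s2 (ww_nonneg σ r) (fun k => (hup σ r (σ + a j * I) σ0 (by simp)
      (by simpa [abs_of_pos (show 0 < a j by linarith)] using a2) k).2) (m j) (hlow j σ σ0)
      ((hE ν m n R hP σ hσ n0.le).2 j)
    have h2 := (hK (σ + a j * I) (by simp)).2
    have h3 := norm_sub_le (logDeriv (FF c) (σ + a j * I) + ∑' k, D1 c (blk k) (σ + a j * I))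
      (logDeriv (FF c) (σ + a j * I))
    rw [add_sub_cancel_left] at h3
    have l0 : 0 ≤ Real.log (a j) := Real.log_nonneg t2
    have l1 : Real.log (a j) ≤ r := by
      have := Real.log_le_log (by linarith) a2
      rw [Real.log_pow] at this
      nlinarith [Real.log_two_lt_d9]
    have l2 : Real.log (a j) ^ a' ≤ (r : ℝ) ^ a' := Real.rpow_le_rpow l0 l1 (by linarith)
    have l3 : 1 ≤ (r : ℝ) ^ a' := Real.one_le_rpow r1' (by linarith)
    have l4 : 0 ≤ Real.log (a j) ^ a' := Real.rpow_nonneg l0 _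
    rw [Real.norm_of_nonneg l4] at t1
    have l5 : K₁ * Real.log (a j) ^ a' ≤ |K₁| * (r : ℝ) ^ a' :=
      mul_le_mul (le_abs_self _) l2 l4 (abs_nonneg _)
    have l6 := le_mul_of_one_le_right (abs_nonneg K) l3
    have l7 : 0 ≤ |T| * (r : ℝ) ^ a' := by positivity
    nlinarith [le_abs_self K]

end Pool.Agent.MP_d232b3_nt.Hz

end

section
set_option autoImplicit false

open Complex MeasureTheory Filter Set Asymptotics
open scoped Real

namespace Pool.Agent.MP_d232b3_nt.Hz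

theorem conv_U (χ : ℕ →*₀ ℂ) : LSeries.convolution (LC χ) χ = LSeries.logMul χ := by
  have h := ArithmeticFunction.convolution_vonMangoldt_const_one
  ext n
  have hn := congrFun h n
  simp only [LSeries.convolution_def, Pi.one_apply, mul_one] at hn
  simp only [LSeries.convolution_def, LSeries.logMul, LC]
  rw [← hn, Finset.sum_mul]
  refine Finset.sum_congr rfl fun p hp => ?_
  rw [← (Nat.mem_divisorsAntidiagonal.mp hp).1, map_mul, mul_assoc]

theorem term_U {χ : ℕ →*₀ ℂ} (h : ∀ n ≠ 0, ‖χ n‖ = 1) (s : ℂ) (n : ℕ) :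
    ‖LSeries.term (LC χ) s n‖ ≤
      ‖LSeries.term (fun n => ((ArithmeticFunction.vonMangoldt n : ℝ) : ℂ)) s n‖ := by
  refine LSeries.norm_term_le s ?_
  rcases eq_or_ne n 0 with rfl | hn
  · simp [LC]
  · rw [LC, norm_mul, h n hn, mul_one]

theorem sum_U {χ : ℕ →*₀ ℂ} (h : ∀ n ≠ 0, ‖χ n‖ = 1) {s : ℂ} (hs : 1 < s.re) :
    LSeriesSummable (LC χ) s :=
  .of_norm <| (ArithmeticFunction.LSeriesSummable_vonMangoldt hs).norm.of_nonneg_of_le
    (fun _ => norm_nonneg _) (term_U h s)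

theorem abs_U {χ : ℕ →*₀ ℂ} (h : ∀ n ≠ 0, ‖χ n‖ = 1) {s : ℂ} (hs : 1 < s.re) :
    LSeries.abscissaOfAbsConv χ < s.re :=
  (LSeries.abscissaOfAbsConv_le_of_le_const ⟨1, fun n hn => (h n hn).le⟩).trans_lt
    (by exact_mod_cast hs)

theorem eq_U {χ : ℕ →*₀ ℂ} {k : ℕ} {G : ℂ → ℂ} (h : Cls χ k G) {s : ℂ} (hs : 1 < s.re) :
    logDeriv G s = k * (1 / (s - 1)) - LSeries (LC χ) s := by
  have h1 : s - 1 ≠ 0 := fun e => by
    rw [sub_eq_zero.1 e, one_re] at hs
    exact lt_irrefl _ hs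
  have h2 : LSeries χ s ≠ 0 := fun e => h.ne s (by linarith) (by rw [h.eq s hs, e, mul_zero])
  have h3 : G =ᶠ[nhds s] fun z => (z - 1) ^ k * LSeries χ z :=
    eventuallyEq_iff_exists_mem.2
      ⟨{z | 1 < z.re}, (isOpen_lt continuous_const continuous_re).mem_nhds hs, h.eq⟩
  have h4 : logDeriv G s = logDeriv (fun z => (z - 1) ^ k * LSeries χ z) s := by
    rw [logDeriv_apply, logDeriv_apply, h3.deriv_eq, h3.eq_of_nhds]
  have h5 := LSeries_hasDerivAt (abs_U h.uni hs)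
  have h6 : logDeriv (fun z : ℂ => (z - 1) ^ k) s = k * (1 / (s - 1)) := by
    rw [logDeriv_fun_pow (f := fun z : ℂ => z - 1) (by fun_prop), logDeriv_apply]
    simp
  have h7 : logDeriv (LSeries χ) s = -LSeries (LC χ) s := by
    rw [logDeriv_apply, h5.deriv, div_eq_iff h2, neg_mul, ← LSeries_convolution' (sum_U h.uni hs)
      (LSeriesSummable_of_abscissaOfAbsConv_lt_re (abs_U h.uni hs)), conv_U]
  rw [h4, logDeriv_mul (f := fun z : ℂ => (z - 1) ^ k) s (pow_ne_zero k h1) h2 (by fun_prop)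
    h5.differentiableAt, h6, h7, ← sub_eq_add_neg]

theorem sU : SU := by
  intro χ k G h
  refine ⟨fun s hs => eq_U h hs, sum_U h.uni (by norm_num), fun σ hσ => ?_, fun s hs => ?_⟩
  · have hσ' : 1 < (σ : ℂ).re := by rwa [ofReal_re]
    have hS := (sum_U h.uni hσ').norm
    refine ⟨k * (1 / (σ - 1)) + ∑' n, ‖LSeries.term (LC χ) σ n‖, fun s hs => ?_⟩
    rw [eq_U h (hσ.trans_le hs)]
    refine (norm_sub_le _ _).trans (add_le_add ?_ ?_)
    · rw [norm_mul, norm_natCast, norm_div, norm_one]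
      refine mul_le_mul_of_nonneg_left (one_div_le_one_div_of_le (by linarith) ?_) k.cast_nonneg
      refine le_trans ?_ (re_le_norm _)
      rw [sub_re, one_re]
      linarith
    · exact tsum_of_norm_bounded hS.hasSum fun n =>
        LSeries.norm_term_le_of_re_le_re _ (by rwa [ofReal_re]) n
  · have ho : IsOpen {s : ℂ | 1 / 2 < s.re} := isOpen_lt continuous_const continuous_re
    exact ((h.diff.deriv ho).differentiableAt (ho.mem_nhds hs)).div
      (h.diff.differentiableAt (ho.mem_nhds hs)) (h.ne s hs)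

end Pool.Agent.MP_d232b3_nt.Hz

end

section
set_option autoImplicit false

open Complex MeasureTheory Filter Set Asymptotics
open scoped Real

namespace Pool.Agent.MP_d232b3_nt.Hz

theorem bc_A {G : ℂ → ℂ} {c s : ℂ} {R M δ : ℝ} (hG : DifferentiableOn ℂ G (Metric.ball c R))
    (hne : ∀ w ∈ Metric.ball c R, G w ≠ 0) (hM : 0 < M) (hδ : 0 < δ)
    (hb : ∀ w ∈ Metric.ball c R, ‖G w‖ ≤ Real.exp M * ‖G c‖) (hs : ‖s - c‖ + 2 * δ ≤ R) :
    ‖logDeriv G s‖ ≤ 2 * M * R / δ / δ := by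
  have hR : 0 < R := by have := norm_nonneg (s - c); linarith
  have hc := Metric.mem_ball_self (x := c) hR
  have hd : DifferentiableOn ℂ (logDeriv G) (Metric.ball c R) :=
    (hG.deriv Metric.isOpen_ball).div hG hne
  obtain ⟨h, h0, hh⟩ := hd.isExactOn_ball.with_val_at c 0
  have hF : ∀ w ∈ Metric.ball c R, HasDerivAt (fun z => G z * exp (-h z)) 0 w := by
    intro w hw
    have a1 := (hG.differentiableAt (Metric.isOpen_ball.mem_nhds hw)).hasDerivAt
    have a2 := a1.mul (hh w hw).neg.cexp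
    refine HasDerivAt.congr_deriv a2 ?_
    have := hne w hw
    rw [logDeriv_apply]
    simp only [Pi.neg_apply]
    field_simp
    ring
  have hre : ∀ w ∈ Metric.ball c R, (h w).re ≤ M := by
    intro w hw
    have e := Metric.isOpen_ball.is_const_of_deriv_eq_zero (convex_ball c R).isPreconnected
      (fun z hz => (hF z hz).differentiableAt.differentiableWithinAt)
      (fun z hz => (hF z hz).deriv) hw hc
    have e2 := congrArg norm e
    simp only [h0, neg_zero, exp_zero, mul_one, norm_mul, norm_exp, neg_re] at e2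
    have e3 : ‖G w‖ = Real.exp (h w).re * ‖G c‖ := by
      rw [← e2, mul_left_comm, ← Real.exp_add, add_neg_cancel, Real.exp_zero, mul_one]
    have e4 := hb w hw
    rw [e3] at e4
    exact Real.exp_le_exp.1 (le_of_mul_le_mul_right e4 (norm_pos_iff.2 (hne c hc)))
  have tr : ∀ z ∈ Metric.ball (0 : ℂ) R, c + z ∈ Metric.ball c R := fun z hz => by
    simpa using hz
  have hbd : ∀ w, ‖w - c‖ + δ ≤ R → ‖h w‖ ≤ 2 * M * R / δ := by
    intro w hw
    have := borelCaratheodory_zero (f := fun z => h (c + z)) (z := w - c) hM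
      (fun z hz => ((hh _ (tr z hz)).differentiableAt.comp z
        ((differentiableAt_const c).add differentiableAt_id)).differentiableWithinAt)
      (fun z hz => hre _ (tr z hz)) hR (by rw [mem_ball_zero_iff]; linarith) (by simpa using h0)
    rw [add_sub_cancel] at this
    refine this.trans ?_
    gcongr <;> linarith
  have tri : ∀ w, ‖w - s‖ ≤ δ → ‖w - c‖ + δ ≤ R := fun w hw => by
    have := norm_sub_le_norm_sub_add_norm_sub w s c
    linarith
  have mem : ∀ w, ‖w - s‖ ≤ δ → w ∈ Metric.ball c R := fun w hw => by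
    have := tri w hw
    rw [mem_ball_iff_norm]; linarith
  rw [← (hh s (mem s (by simpa using hδ.le))).deriv]
  refine norm_deriv_le_of_forall_mem_sphere_norm_le hδ (DifferentiableOn.diffContOnCl ?_)
    fun z hz => hbd z (tri z (mem_sphere_iff_norm.1 hz).le)
  rw [closure_ball s hδ.ne']
  exact fun z hz =>
    (hh z (mem z (mem_closedBall_iff_norm.1 hz))).differentiableAt.differentiableWithinAt

theorem low_A {χ : ℕ →*₀ ℂ} (hu : ∀ n ≠ 0, ‖χ n‖ = 1) {c : ℂ} (hc : c.re = 3) :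
    1 / 2 ≤ ‖LSeries χ c‖ := by
  have nt : ∀ n : ℕ, n ≠ 0 → ‖LSeries.term χ c n‖ = 1 / (n : ℝ) ^ 3 := fun n hn => by
    rw [LSeries.norm_term_eq, if_neg hn, hu n hn, hc]
    norm_cast
  have b0 : ∀ n : ℕ, ‖LSeries.term χ c n‖ ≤ 1 / (n : ℝ) ^ 2 := fun n => by
    rcases eq_or_ne n 0 with rfl | hn
    · simp
    · have : (1 : ℝ) ≤ n := by exact_mod_cast Nat.pos_of_ne_zero hn
      rw [nt n hn]
      gcongr
      norm_num
  have s1 : HasSum (LSeries.term χ c) (LSeries χ c) :=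
    (Summable.of_norm_bounded hasSum_zeta_two.summable b0).hasSum
  have s2 := s1.sub (hasSum_ite_eq (1 : ℕ) (1 : ℂ))
  have s3 := (hasSum_zeta_two.sub (hasSum_ite_eq (1 : ℕ) (1 : ℝ))).mul_left (1 / 2)
  have b1 := s2.norm_le_of_bounded s3 fun n => by
    rcases eq_or_ne n 0 with rfl | hn
    · simp
    rcases eq_or_ne n 1 with rfl | h1
    · simp
    have : (2 : ℝ) ≤ n := by exact_mod_cast (by omega : 2 ≤ n)
    rw [if_neg h1, if_neg h1, sub_zero, sub_zero, nt n hn, one_div_mul_one_div, pow_succ']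
    gcongr
  have b2 := norm_sub_norm_le (1 : ℂ) (LSeries χ c)
  rw [norm_sub_rev, norm_one] at b2
  have := Real.pi_lt_d2
  have := Real.pi_pos
  nlinarith

theorem sA : SA := by
  intro χ k G hG σ hσ
  obtain ⟨δ, hδ⟩ : ∃ δ : ℝ, δ = (σ - 1 / 2) / 3 := ⟨_, rfl⟩
  have d0 : 0 < δ := by rw [hδ]; linarith
  obtain ⟨A, C, hb⟩ := hG.ord (σ - 2 * δ) (by linarith)
  refine ⟨2 * (2 * |C| + 2 * |A| + 1) * 3 / δ / δ, fun s h1 h2 => ?_⟩
  obtain ⟨L, hL⟩ : ∃ L : ℝ, L = Real.log (|s.im| + 3) := ⟨_, rfl⟩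
  have t0 := abs_nonneg s.im
  have L1 : 1 ≤ L := by
    rw [hL, Real.le_log_iff_exp_le (by linarith)]
    have := Real.exp_one_lt_d9
    linarith
  have C0 := abs_nonneg C
  have A0 := abs_nonneg A
  obtain ⟨c, hc⟩ : ∃ c : ℂ, c = 3 + s.im * I := ⟨_, rfl⟩
  have c1 : c.re = 3 := by simp [hc]
  have c2 : ‖c‖ ≤ 3 + |s.im| := by
    rw [hc]
    refine (norm_add_le _ _).trans (le_of_eq ?_)
    simp
  have c3 : ‖s - c‖ = 3 - s.re := by
    have : s - c = ((s.re - 3 : ℝ) : ℂ) := by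
      apply Complex.ext <;> simp [hc]
    rw [this, norm_real, Real.norm_eq_abs, abs_of_nonpos (by linarith)]
    ring
  have re : ∀ w ∈ Metric.ball c (3 - σ + 2 * δ), σ - 2 * δ < w.re := fun w hw => by
    have a1 := abs_re_le_norm (w - c)
    rw [mem_ball_iff_norm] at hw
    rw [sub_re, c1] at a1
    have := neg_abs_le (w.re - 3)
    linarith
  have lo : 1 / 2 ≤ ‖G c‖ := by
    rw [hG.eq c (by rw [c1]; norm_num), norm_mul, norm_pow]
    have a1 := re_le_norm (c - 1)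
    rw [sub_re, c1, one_re] at a1
    have a2 : 1 ≤ ‖c - 1‖ ^ k := one_le_pow₀ (by linarith)
    have a3 := low_A hG.uni c1
    nlinarith
  have key := bc_A (G := G) (c := c) (s := s) (R := 3 - σ + 2 * δ)
    (M := (2 * |C| + 2 * |A| + 1) * L) (δ := δ)
    (hG.diff.mono fun w hw => by have := re w hw; show 1 / 2 < w.re; linarith)
    (fun w hw => hG.ne w (by have := re w hw; linarith)) (by positivity) d0
    (fun w hw => by
      have a1 := hb w (re w hw).le
      have a2 : ‖w‖ + 1 ≤ (|s.im| + 3) ^ 2 := by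
        have := norm_sub_norm_le w c
        rw [mem_ball_iff_norm] at hw
        nlinarith
      have n0 := norm_nonneg w
      have a3 : (‖w‖ + 1) ^ A ≤ Real.exp (2 * |A| * L) := by
        refine (Real.rpow_le_rpow_of_exponent_le (by linarith) (le_abs_self A)).trans
          ((Real.rpow_le_rpow (by linarith) a2 A0).trans (le_of_eq ?_))
        rw [Real.rpow_def_of_pos (by positivity), Real.log_pow, hL]
        congr 1
        push_cast
        ring
      have a4 : 2 * |C| ≤ Real.exp ((2 * |C| + 1) * L) := by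
        have := Real.add_one_le_exp ((2 * |C| + 1) * L)
        nlinarith
      have a5 : 0 ≤ (‖w‖ + 1) ^ A := by positivity
      calc ‖G w‖ ≤ |C| * Real.exp (2 * |A| * L) :=
            a1.trans (mul_le_mul (le_abs_self C) a3 a5 C0)
        _ = 2 * |C| * Real.exp (2 * |A| * L) * (1 / 2) := by ring
        _ ≤ Real.exp ((2 * |C| + 1) * L) * Real.exp (2 * |A| * L) * ‖G c‖ := by gcongr
        _ = _ := by rw [← Real.exp_add]; congr 2; ring)
    (by rw [c3]; linarith)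
  rw [← hL]
  refine key.trans ?_
  calc _ ≤ 2 * ((2 * |C| + 2 * |A| + 1) * L) * 3 / δ / δ := by gcongr; linarith
    _ = _ := by ring

end Pool.Agent.MP_d232b3_nt.Hz

end

section
/-! Three lines with a Gaussian weight: convexity of the growth exponent. -/

set_option autoImplicit false

open Complex MeasureTheory Filter Set Asymptotics
open scoped Real

namespace Pool.Agent.MP_d232b3_nt.Hz

theorem mul_exp_B (u : ℝ) : |u| * Real.exp (-u ^ 2) ≤ 1 := by
  have h1 : u ^ 2 + 1 ≤ Real.exp (u ^ 2) := Real.add_one_le_exp _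
  have h2 : |u| ≤ u ^ 2 + 1 := by nlinarith [sq_abs u, sq_nonneg (|u| - 1), abs_nonneg u]
  rw [Real.exp_neg, ← div_eq_mul_inv, div_le_one (Real.exp_pos _)]
  linarith

theorem exp_le_B (u : ℝ) : Real.exp (-u ^ 2) ≤ 1 :=
  Real.exp_le_one_iff.2 (by nlinarith [sq_nonneg u])

theorem log_le_B (v : ℝ) : Real.log (|v| + 3) ≤ |v| + 2 := by
  have := Real.log_le_sub_one_of_pos (show 0 < |v| + 3 by positivity)
  linarith

theorem log_exp_B (v u c : ℝ) (hc : 0 ≤ c) (h : |v| ≤ c + |u|) :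
    Real.log (|v| + 3) * Real.exp (-u ^ 2) ≤ c + 3 := by
  have h1 := mul_exp_B u
  have h2 := exp_le_B u
  have h3 := Real.exp_pos (-u ^ 2)
  have h4 : Real.log (|v| + 3) ≤ c + 2 + |u| := by linarith [log_le_B v]
  calc _ ≤ (c + 2 + |u|) * Real.exp (-u ^ 2) := mul_le_mul_of_nonneg_right h4 h3.le
    _ ≤ c + 3 := by nlinarith

theorem pow_exp_B (a u : ℝ) (ha : 0 ≤ a) :
    (1 + |u|) ^ a * Real.exp (-u ^ 2) ≤ Real.exp (a ^ 2) := by
  have h1 : (1 + |u|) ^ a ≤ Real.exp (|u| * a) := by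
    rw [Real.exp_mul]
    exact Real.rpow_le_rpow (by positivity) (by linarith [Real.add_one_le_exp |u|]) ha
  calc _ ≤ Real.exp (|u| * a) * Real.exp (-u ^ 2) :=
        mul_le_mul_of_nonneg_right h1 (Real.exp_pos _).le
    _ = Real.exp (|u| * a + -u ^ 2) := (Real.exp_add _ _).symm
    _ ≤ Real.exp (a ^ 2) := Real.exp_le_exp.2 (by
        nlinarith [sq_abs u, sq_nonneg (|u| - a), sq_nonneg a, abs_nonneg u])

theorem one_le_log_B {t : ℝ} (ht : 3 ≤ t) : 1 ≤ Real.log t := by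
  rw [Real.le_log_iff_exp_le (by linarith)]
  linarith [Real.exp_one_lt_d9]

theorem line_B (F : ℝ → ℂ) (a C : ℝ) (ha : 0 ≤ a)
    (hC : ∀ v, ‖F v‖ ≤ C * Real.log (|v| + 3))
    (hO : F =O[atTop] fun t : ℝ => Real.log t ^ a) :
    ∃ K : ℝ, 0 ≤ K ∧ ∀ᶠ t : ℝ in atTop, ∀ v : ℝ,
      ‖F v‖ * Real.exp (-(v - t) ^ 2) ≤ K * Real.log t ^ a := by
  obtain ⟨c, hc, hb⟩ := hO.exists_pos
  obtain ⟨T, hT⟩ := eventually_atTop.1 hb.bound
  refine ⟨c * Real.exp (a ^ 2) + 3 * |C|, by positivity, ?_⟩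
  filter_upwards [eventually_ge_atTop (2 * T), eventually_ge_atTop (3 : ℝ)] with t h1 h2 v
  have hL := one_le_log_B h2
  have hLa : 1 ≤ Real.log t ^ a := Real.one_le_rpow hL ha
  have hE := Real.exp_pos (-(v - t) ^ 2)
  have hc1 : 0 ≤ c * Real.exp (a ^ 2) := by positivity
  have hc2 : 0 ≤ 3 * |C| := by positivity
  rcases le_or_gt (t / 2) v with hv | hv
  · have hv1 : 1 ≤ v := by linarith
    have hl0 : 0 ≤ Real.log v := Real.log_nonneg hv1
    have h3 : ‖F v‖ ≤ c * Real.log v ^ a := by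
      have := hT v (by linarith)
      rwa [Real.norm_of_nonneg (Real.rpow_nonneg hl0 a)] at this
    have h4 : Real.log v ≤ Real.log t * (1 + |v - t|) := by
      have e1 : v ≤ t * Real.exp |v - t| := by
        nlinarith [Real.add_one_le_exp |v - t|, le_abs_self (v - t), abs_nonneg (v - t)]
      have e2 := Real.log_le_log (by linarith) e1
      rw [Real.log_mul (by linarith) (Real.exp_pos _).ne', Real.log_exp] at e2
      nlinarith [abs_nonneg (v - t)]
    have h5 : Real.log v ^ a ≤ Real.log t ^ a * (1 + |v - t|) ^ a := by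
      rw [← Real.mul_rpow (by linarith) (by positivity)]
      exact Real.rpow_le_rpow hl0 h4 ha
    have h6 := pow_exp_B a (v - t) ha
    calc _ ≤ c * (Real.log t ^ a * (1 + |v - t|) ^ a) * Real.exp (-(v - t) ^ 2) :=
          mul_le_mul_of_nonneg_right (h3.trans (mul_le_mul_of_nonneg_left h5 hc.le)) hE.le
      _ = c * Real.log t ^ a * ((1 + |v - t|) ^ a * Real.exp (-(v - t) ^ 2)) := by ring
      _ ≤ c * Real.log t ^ a * Real.exp (a ^ 2) :=
          mul_le_mul_of_nonneg_left h6 (by positivity)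
      _ ≤ _ := by nlinarith
  · have h3 : |v| ≤ 0 + |v - t| := by
      rw [zero_add, abs_of_neg (show v - t < 0 by linarith)]
      exact abs_le.2 ⟨by linarith, by linarith⟩
    have h4 := log_exp_B v (v - t) 0 le_rfl h3
    have hl0 : 0 ≤ Real.log (|v| + 3) := Real.log_nonneg (by linarith [abs_nonneg v])
    have h5 : ‖F v‖ ≤ |C| * Real.log (|v| + 3) :=
      (hC v).trans (mul_le_mul_of_nonneg_right (le_abs_self C) hl0)
    calc _ ≤ |C| * Real.log (|v| + 3) * Real.exp (-(v - t) ^ 2) :=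
          mul_le_mul_of_nonneg_right h5 hE.le
      _ = |C| * (Real.log (|v| + 3) * Real.exp (-(v - t) ^ 2)) := by ring
      _ ≤ |C| * (0 + 3) := mul_le_mul_of_nonneg_left h4 (abs_nonneg C)
      _ ≤ _ := by nlinarith

theorem norm_w_B (w : ℂ) (t : ℝ) :
    ‖cexp ((w - t * I) ^ 2)‖ = Real.exp (w.re ^ 2) * Real.exp (-(w.im - t) ^ 2) := by
  rw [Complex.norm_exp, ← Real.exp_add]
  congr 1
  simp [pow_two]
  ring

theorem sB : SB := by
  intro g σ₁ σ₂ a₁ a₂ l hσ ha₁ ha₂ hl0 hl1 hd ⟨C, hC⟩ hO₁ hO₂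
  obtain ⟨K₁, hK₁, h₁⟩ := line_B (fun t : ℝ => g (σ₁ + t * I)) a₁ C ha₁
    (fun v => by simpa using hC (σ₁ + v * I) (by simp) (by simpa using hσ.le)) hO₁
  obtain ⟨K₂, hK₂, h₂⟩ := line_B (fun t : ℝ => g (σ₂ + t * I)) a₂ C ha₂
    (fun v => by simpa using hC (σ₂ + v * I) (by simpa using hσ.le) (by simp)) hO₂
  refine IsBigO.of_bound ((Real.exp (σ₁ ^ 2) * K₁) ^ (1 - l) * (Real.exp (σ₂ ^ 2) * K₂) ^ l) ?_
  filter_upwards [h₁, h₂, eventually_ge_atTop (3 : ℝ)] with t e₁ e₂ ht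
  have hL := one_le_log_B ht
  have hL0 : 0 < Real.log t := by linarith
  set σ : ℝ := (1 - l) * σ₁ + l * σ₂ with hσd
  have hre : ((σ : ℂ) + t * I).re = σ := by simp
  have him : ((σ : ℂ) + t * I).im = t := by simp
  have hnorm : ∀ w : ℂ, ‖g w * cexp ((w - t * I) ^ 2)‖ =
      Real.exp (w.re ^ 2) * (‖g w‖ * Real.exp (-(w.im - t) ^ 2)) := by
    intro w
    rw [norm_mul, norm_w_B]
    ring
  have hline : ∀ (s K b : ℝ), (∀ v : ℝ, ‖g (s + v * I)‖ * Real.exp (-(v - t) ^ 2) ≤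
      K * Real.log t ^ b) → ∀ w ∈ re ⁻¹' {s},
      ‖g w * cexp ((w - t * I) ^ 2)‖ ≤ Real.exp (s ^ 2) * K * Real.log t ^ b := by
    intro s K b e w hw
    have hw' : w.re = s := hw
    have := e w.im
    rw [← hw', re_add_im] at this
    rw [hnorm, hw', mul_assoc]
    exact mul_le_mul_of_nonneg_left this (Real.exp_pos _).le
  have key := Complex.HadamardThreeLines.norm_le_interp_of_mem_verticalClosedStrip'
    (f := fun w => g w * cexp ((w - t * I) ^ 2)) (z := (σ : ℂ) + t * I) hσ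
    (by
      show ((σ : ℂ) + t * I).re ∈ Icc σ₁ σ₂
      rw [hre]
      constructor <;> nlinarith)
    (by
      refine DifferentiableOn.diffContOnCl fun w hw => ?_
      have hw' : w ∈ re ⁻¹' Icc σ₁ σ₂ :=
        closure_minimal (preimage_mono Ioo_subset_Icc_self)
          (isClosed_Icc.preimage continuous_re) hw
      exact ((hd w hw'.1 hw'.2).mul (by fun_prop)).differentiableWithinAt)
    (by
      refine ⟨Real.exp (σ₁ ^ 2 + σ₂ ^ 2) * (|C| * (|t| + 3)), ?_⟩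
      rintro _ ⟨w, hw, rfl⟩
      have hw' : w.re ∈ Icc σ₁ σ₂ := hw
      show ‖g w * cexp ((w - t * I) ^ 2)‖ ≤ _
      rw [hnorm]
      have hl0' : 0 ≤ Real.log (|w.im| + 3) := Real.log_nonneg (by linarith [abs_nonneg w.im])
      have b1 : ‖g w‖ ≤ |C| * Real.log (|w.im| + 3) :=
        (hC w hw'.1 hw'.2).trans (mul_le_mul_of_nonneg_right (le_abs_self C) hl0')
      have b2 := log_exp_B w.im (w.im - t) |t| (abs_nonneg t) (by
        have := abs_add_le t (w.im - t)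
        rwa [add_sub_cancel] at this)
      have b3 : w.re ^ 2 ≤ σ₁ ^ 2 + σ₂ ^ 2 := by
        rcases le_total 0 w.re with h | h
        · nlinarith [hw'.1, hw'.2, sq_nonneg σ₁]
        · nlinarith [hw'.1, hw'.2, sq_nonneg σ₂]
      refine mul_le_mul (Real.exp_le_exp.2 b3) ?_ (by positivity) (Real.exp_pos _).le
      calc _ ≤ |C| * Real.log (|w.im| + 3) * Real.exp (-(w.im - t) ^ 2) :=
            mul_le_mul_of_nonneg_right b1 (Real.exp_pos _).le
        _ = |C| * (Real.log (|w.im| + 3) * Real.exp (-(w.im - t) ^ 2)) := by ring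
        _ ≤ _ := mul_le_mul_of_nonneg_left b2 (abs_nonneg C))
    (hline σ₁ K₁ a₁ e₁) (hline σ₂ K₂ a₂ e₂)
  have hl : (σ - σ₁) / (σ₂ - σ₁) = l := by
    rw [div_eq_iff (by linarith), hσd]
    ring
  rw [hre, hl, hnorm, hre, him, sub_self] at key
  have hp : ∀ (s K b r : ℝ), 0 ≤ K → (Real.exp (s ^ 2) * K * Real.log t ^ b) ^ r =
      (Real.exp (s ^ 2) * K) ^ r * Real.log t ^ (r * b) := by
    intro s K b r hK
    rw [Real.mul_rpow (by positivity) (Real.rpow_nonneg hL0.le b), ← Real.rpow_mul hL0.le,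
      mul_comm b r]
  rw [hp _ _ _ _ hK₁, hp _ _ _ _ hK₂] at key
  rw [Real.norm_of_nonneg (Real.rpow_nonneg hL0.le _), Real.rpow_add hL0]
  have h1 : 1 ≤ Real.exp (σ ^ 2) := Real.one_le_exp (sq_nonneg σ)
  have h0 : Real.exp (-(0 : ℝ) ^ 2) = 1 := by simp
  rw [h0, mul_one] at key
  calc _ ≤ Real.exp (σ ^ 2) * ‖g (σ + t * I)‖ := le_mul_of_one_le_left (norm_nonneg _) h1
    _ ≤ _ := key
    _ = _ := by ring

end Pool.Agent.MP_d232b3_nt.Hz

end

section
set_option autoImplicit false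

open Complex MeasureTheory Filter Set Asymptotics
open scoped Real

namespace Pool.Agent.MP_d232b3_nt.Hz

/-- the function `max 0 (1 - u)` on the positive axis -/
noncomputable def F_Per (u : ℝ) : ℂ :=
  indicator (Ioc 0 1) (fun _ => 1 : ℝ → ℂ) u - indicator (Ioc 0 1) (fun t => ↑t ^ (1 : ℂ) : ℝ → ℂ) u

theorem F_eq_Per {u : ℝ} (hu : 0 < u) : F_Per u = ((max 0 (1 - u) : ℝ) : ℂ) := by
  unfold F_Per
  by_cases h : u ≤ 1
  · rw [indicator_of_mem (show u ∈ Ioc 0 1 from ⟨hu, h⟩),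
      indicator_of_mem (show u ∈ Ioc 0 1 from ⟨hu, h⟩), max_eq_right (by linarith), cpow_one]
    push_cast
    rfl
  · rw [indicator_of_notMem (fun k : u ∈ Ioc 0 1 => h k.2),
      indicator_of_notMem (fun k : u ∈ Ioc 0 1 => h k.2), max_eq_left (by linarith)]
    simp

theorem ne_Per {s : ℂ} (hs : 0 < s.re) : s ≠ 0 ∧ s + 1 ≠ 0 := by
  refine ⟨fun h => ?_, fun h => ?_⟩
  · rw [h, zero_re] at hs; exact lt_irrefl _ hs
  · have := congrArg re h
    rw [add_re, one_re, zero_re] at this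
    linarith

theorem mel_Per {s : ℂ} (hs : 0 < s.re) : HasMellin F_Per s (1 / (s * (s + 1))) := by
  have h1 := hasMellin_one_Ioc hs
  have h2 := hasMellin_cpow_Ioc 1 (s := s) (by rw [one_re]; linarith)
  have h3 := hasMellin_sub h1.1 h2.1
  rw [h1.2, h2.2] at h3
  obtain ⟨a, b⟩ := ne_Per hs
  have e : 1 / (s * (s + 1)) = 1 / s - 1 / (s + 1) := by field_simp; ring
  rw [e]
  exact h3

theorem re_Per (v : ℝ) : (0 : ℝ) < (2 + v * I : ℂ).re := by simp

theorem cont_Per : Continuous fun v : ℝ => 1 / ((2 + v * I : ℂ) * (2 + v * I + 1)) :=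
  continuous_const.div (by fun_prop) fun v =>
    mul_ne_zero (ne_Per (re_Per v)).1 (ne_Per (re_Per v)).2

theorem int_Per : Integrable fun v : ℝ => 1 / ((2 + v * I : ℂ) * (2 + v * I + 1)) := by
  refine integrable_inv_one_add_sq.mono' cont_Per.aestronglyMeasurable
    (Eventually.of_forall fun v => ?_)
  have a : ‖(2 + v * I : ℂ)‖ ^ 2 = 4 + v ^ 2 := by
    rw [Complex.sq_norm, normSq_apply]; simp; ring
  have b : ‖(2 + v * I + 1 : ℂ)‖ ^ 2 = 9 + v ^ 2 := by
    rw [Complex.sq_norm, normSq_apply]; simp; ring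
  rw [norm_div, norm_one, norm_mul, one_div]
  refine inv_anti₀ (by positivity) ((sq_le_sq₀ (by positivity) (by positivity)).1 ?_)
  rw [mul_pow, a, b]
  nlinarith [sq_nonneg v]

theorem ker_Per {u : ℝ} (hu : 0 < u) :
    ∫ v : ℝ, (u : ℂ) ^ (-(2 + v * I : ℂ)) * (1 / ((2 + v * I : ℂ) * (2 + v * I + 1))) =
      2 * π * ((max 0 (1 - u) : ℝ) : ℂ) := by
  have e : ∀ v : ℝ, mellin F_Per (((2 : ℝ) : ℂ) + v * I) =
      1 / ((2 + v * I : ℂ) * (2 + v * I + 1)) := fun v => (mel_Per (re_Per v)).2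
  have hc : ContinuousAt F_Per u := by
    refine ContinuousAt.congr (f := fun u : ℝ => ((max 0 (1 - u) : ℝ) : ℂ)) (by fun_prop) ?_
    filter_upwards [Ioi_mem_nhds hu] with w hw
    exact (F_eq_Per hw).symm
  have h := mellinInv_mellin_eq 2 F_Per hu (mel_Per (by simp)).1
    (int_Per.congr (Eventually.of_forall fun v => (e v).symm)) hc
  rw [F_eq_Per hu, mellinInv] at h
  simp only [e, smul_eq_mul] at h
  simp only [ofReal_ofNat] at h
  rw [← h, real_smul, ← mul_assoc]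
  have : (π : ℂ) ≠ 0 := ofReal_ne_zero.2 Real.pi_ne_zero
  have e2 : (2 * π : ℂ) * ((1 / (2 * π) : ℝ) : ℂ) = 1 := by
    push_cast
    field_simp
  rw [e2, one_mul]

theorem term_Per (f : ℕ → ℂ) {x n : ℕ} (hx : 1 ≤ x) (hn : n ≠ 0) (t : ℝ) (s : ℂ) :
    LSeries.term f (s + t * I) n * KR x s =
      f n * ph (-t) n * ((((n : ℝ) / x : ℝ) : ℂ) ^ (-s) * (1 / (s * (s + 1)))) := by
  have a : (0 : ℝ) < n := by positivity
  have b : (0 : ℝ) < x := by positivity
  have e : ((n : ℂ) ^ (s + t * I))⁻¹ * (x : ℂ) ^ s =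
      ph (-t) n * (((n : ℝ) / x : ℝ) : ℂ) ^ (-s) := by
    rw [cpow_def_of_ne_zero (by exact_mod_cast hn), cpow_def_of_ne_zero (by exact_mod_cast b.ne'),
      cpow_def_of_ne_zero (ofReal_ne_zero.2 (div_pos a b).ne'), ← ofReal_log (div_pos a b).le,
      Real.log_div a.ne' b.ne', ← natCast_log, ← natCast_log, ph, ← Complex.exp_neg,
      ← Complex.exp_add, ← Complex.exp_add]
    congr 1
    push_cast
    ring
  rw [LSeries.term_of_ne_zero hn, KR]
  linear_combination (f n * (s * (s + 1))⁻¹) * e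

theorem sPer : SPer := by
  intro f x t hx hf
  have b : (0 : ℝ) < x := by positivity
  have hn : ∀ (n : ℕ) (v : ℝ), ‖LSeries.term f (2 + v * I + t * I) n * KR x (2 + v * I)‖ =
      ‖LSeries.term f 2 n‖ * ((x : ℝ) ^ (2 : ℝ) *
        ‖1 / ((2 + v * I : ℂ) * (2 + v * I + 1))‖) := by
    intro n v
    rw [norm_mul, KR, div_eq_mul_one_div, norm_mul, norm_natCast_cpow_of_pos hx,
      LSeries.norm_term_eq, LSeries.norm_term_eq]
    simp
  have hi : ∀ n : ℕ, Integrable fun v : ℝ =>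
      LSeries.term f (2 + v * I + t * I) n * KR x (2 + v * I) := by
    intro n
    refine (integrable_norm_iff ?_).1 ?_
    · rcases eq_or_ne n 0 with rfl | h
      · simpa using aestronglyMeasurable_const
      · simp only [term_Per f hx h]
        refine (continuous_const.mul (Continuous.mul ?_ cont_Per)).aestronglyMeasurable
        exact Continuous.const_cpow (by fun_prop)
          (Or.inl (ofReal_ne_zero.2 (by positivity)))
    · simp only [hn]
      exact (int_Per.norm.const_mul _).const_mul _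
  have hs := integral_tsum_of_summable_integral_norm hi (by
    simp only [hn, integral_const_mul]
    exact hf.norm.mul_right _)
  simp only [tsum_mul_right] at hs
  refine hs.symm.trans ?_
  have hv : ∀ n : ℕ, n ≠ 0 → ∫ v : ℝ, LSeries.term f (2 + v * I + t * I) n * KR x (2 + v * I) =
      f n * ph (-t) n * (2 * π * ((max 0 (1 - (n : ℝ) / x) : ℝ) : ℂ)) := by
    intro n h
    simp only [term_Per f hx h]
    rw [integral_const_mul, ker_Per (by positivity)]
  rw [tsum_eq_sum (s := Finset.Ico 1 x), Finset.mul_sum]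
  · refine Finset.sum_congr rfl fun n h => ?_
    obtain ⟨h1, h2⟩ := Finset.mem_Ico.1 h
    have : (n : ℝ) / x ≤ 1 := (div_le_one b).2 (by exact_mod_cast h2.le)
    rw [hv n (by omega), max_eq_right (by linarith)]
    ring
  · intro n h
    rcases eq_or_ne n 0 with rfl | h0
    · simp
    · have h1 : x ≤ n := by rw [Finset.mem_Ico] at h; omega
      have : 1 ≤ (n : ℝ) / x := (one_le_div b).2 (by exact_mod_cast h1)
      rw [hv n h0, max_eq_left (by linarith)]
      simp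

end Pool.Agent.MP_d232b3_nt.Hz

end

section
set_option autoImplicit false

open Complex MeasureTheory Filter Set Asymptotics
open scoped Real

namespace Pool.Agent.MP_d232b3_nt.Hz

lemma shift_gen_Shift {f : ℂ → ℂ} {a b : ℝ} {B : ℝ → ℝ} (hab : a ≤ b)
    (hd : ∀ w : ℂ, a ≤ w.re → w.re ≤ b → DifferentiableAt ℂ f w)
    (hB : Tendsto B atTop (nhds 0))
    (hb : ∀ᶠ T : ℝ in atTop, ∀ w : ℂ, a ≤ w.re → w.re ≤ b → |w.im| = T → ‖f w‖ ≤ B T)
    (ia : Integrable fun v : ℝ => f (a + v * I)) (ib : Integrable fun v : ℝ => f (b + v * I)) :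
    ∫ v : ℝ, f (a + v * I) = ∫ v : ℝ, f (b + v * I) := by
  have ta := intervalIntegral_tendsto_integral (l := atTop) (a := fun T : ℝ => -T)
    (b := fun T : ℝ => T) ia tendsto_neg_atTop_atBot tendsto_id
  have tb := intervalIntegral_tendsto_integral (l := atTop) (a := fun T : ℝ => -T)
    (b := fun T : ℝ => T) ib tendsto_neg_atTop_atBot tendsto_id
  have t0 : Tendsto (fun T : ℝ => (∫ y in -T..T, f (b + y * I)) - ∫ y in -T..T, f (a + y * I))
      atTop (nhds 0) := by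
    have hB2 : Tendsto (fun T => B T * |b - a| + B T * |b - a|) atTop (nhds 0) := by
      simpa using (hB.mul_const |b - a|).add (hB.mul_const |b - a|)
    refine squeeze_zero_norm' ?_ hB2
    filter_upwards [hb, eventually_ge_atTop 0] with T hT hT0
    have H := integral_boundary_rect_eq_zero_of_differentiableOn f ⟨a, -T⟩ ⟨b, T⟩ (by
      intro w hw
      have h1 : w.re ∈ uIcc a b := hw.1
      rw [uIcc_of_le hab] at h1
      exact (hd w h1.1 h1.2).differentiableWithinAt)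
    have hs : ∀ y : ℝ, |y| = T → ‖∫ x in a..b, f (x + y * I)‖ ≤ B T * |b - a| := fun y hy => by
      refine intervalIntegral.norm_integral_le_of_norm_le_const fun x hx => ?_
      rw [uIoc_of_le hab] at hx
      exact hT _ (by simpa using hx.1.le) (by simpa using hx.2) (by simpa using hy)
    have e : I * ((∫ y in -T..T, f (b + y * I)) - ∫ y in -T..T, f (a + y * I)) =
        (∫ x in a..b, f (x + T * I)) - ∫ x in a..b, f (x + ((-T : ℝ) : ℂ) * I) := by
      simp only [smul_eq_mul] at H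
      linear_combination H
    have e2 := congrArg norm e
    rw [norm_mul, norm_I, one_mul] at e2
    rw [e2]
    exact (norm_sub_le _ _).trans (add_le_add (hs T (abs_of_nonneg hT0))
      (hs (-T) (by rw [abs_neg, abs_of_nonneg hT0])))
  have := tendsto_nhds_unique (tb.sub ta) t0
  exact (sub_eq_zero.1 this).symm

/-- the fourth root weight -/
noncomputable def q_Shift (v : ℝ) : ℝ := (1 + v ^ 2) ^ (1 / 4 : ℝ)

/-- the integrable majorant -/
noncomputable def h_Shift (v : ℝ) : ℝ := (1 + ‖v‖ ^ 2) ^ (-(3 / 2 : ℝ) / 2)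

lemma one_le_q_Shift (v : ℝ) : 1 ≤ q_Shift v :=
  Real.one_le_rpow (by nlinarith [sq_nonneg v]) (by norm_num)

lemma log_q_Shift (v : ℝ) : Real.log (1 + |v|) ≤ 3 * q_Shift v := by
  have h1 := one_le_q_Shift v
  have h2 : q_Shift v ^ 4 = 1 + v ^ 2 := by
    rw [q_Shift, ← Real.rpow_natCast, ← Real.rpow_mul (by positivity)]
    norm_num
  have h3 : 1 + |v| ≤ 2 * q_Shift v ^ 2 := by
    refine (pow_le_pow_iff_left₀ (by positivity) (by positivity) two_ne_zero).1 ?_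
    nlinarith [sq_abs v, sq_nonneg (|v| - 1)]
  have h4 := Real.log_le_log (by positivity) h3
  rw [Real.log_mul (by norm_num) (by positivity), Real.log_pow] at h4
  have h5 := Real.log_le_sub_one_of_pos (show 0 < q_Shift v by linarith)
  have h6 := Real.log_two_lt_d9
  push_cast at h4
  linarith

lemma int_h_Shift : Integrable h_Shift :=
  integrable_rpow_neg_one_add_norm_sq (by simp; norm_num)

lemma KR_Shift {x : ℕ} (hx : 1 ≤ x) {w z : ℂ} (hw : 1 / 2 ≤ w.re) {M : ℝ}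
    (hz : ‖z‖ ≤ M * q_Shift w.im) :
    ‖z * KR x w‖ ≤ 4 * M * (x : ℝ) ^ w.re * h_Shift w.im := by
  have h0 : 0 < 1 + w.im ^ 2 := by positivity
  have h1 : (1 + w.im ^ 2) / 4 ≤ ‖w‖ * ‖w + 1‖ := by
    have a1 : ‖w‖ ≤ ‖w + 1‖ := by
      refine (pow_le_pow_iff_left₀ (norm_nonneg _) (norm_nonneg _) two_ne_zero).1 ?_
      rw [Complex.sq_norm, Complex.sq_norm, normSq_apply, normSq_apply]
      simp only [add_re, one_re, add_im, one_im]
      nlinarith
    have a2 : ‖w‖ ^ 2 = w.re * w.re + w.im * w.im := by rw [Complex.sq_norm, normSq_apply]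
    nlinarith [mul_le_mul_of_nonneg_left a1 (norm_nonneg w), sq_nonneg w.im]
  have h2 : ‖KR x w‖ ≤ (x : ℝ) ^ w.re / ((1 + w.im ^ 2) / 4) := by
    rw [KR, norm_div, norm_mul, norm_natCast_cpow_of_pos hx]
    exact div_le_div_of_nonneg_left (by positivity) (by positivity) h1
  have h3 : h_Shift w.im = q_Shift w.im / (1 + w.im ^ 2) := by
    rw [h_Shift, q_Shift, Real.norm_eq_abs, sq_abs, ← Real.rpow_sub_one h0.ne']
    norm_num
  rw [norm_mul, h3]
  refine (mul_le_mul hz h2 (norm_nonneg _) ((norm_nonneg _).trans hz)).trans (le_of_eq ?_)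
  field_simp

theorem sShift : SShift := by
  intro g σ a h1 h2 ha hd hC hO
  obtain ⟨C, hC⟩ := hC
  obtain ⟨K, hK0, hK⟩ := hO.exists_pos
  obtain ⟨T0, hT0⟩ := eventually_atTop.1 hK.bound
  refine ⟨4 * (K * 2 ^ a + 5 * |C|) * ∫ v, h_Shift v, max (2 * T0) 3, fun t ht x hx => ?_⟩
  have t1 : 2 * T0 ≤ t := (le_max_left _ _).trans ht
  have t2 : 3 ≤ t := (le_max_right _ _).trans ht
  have hx' : (1 : ℝ) ≤ x := by exact_mod_cast hx
  have hf : ∀ w : ℂ, σ ≤ w.re → DifferentiableAt ℂ (fun w => g (w + t * I) * KR x w) w := by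
    intro w hw
    refine ((hd _ (by simpa using hw)).comp w (f := fun w => w + t * I) (by fun_prop)).mul ?_
    refine DifferentiableAt.div (differentiableAt_id.const_cpow (Or.inl (by
      exact_mod_cast (by omega : x ≠ 0)))) (by fun_prop) (mul_ne_zero (fun h => ?_) fun h => ?_)
    · rw [h, zero_re] at hw
      linarith
    · have := congrArg re h
      simp only [add_re, one_re, zero_re] at this
      linarith
  have hg : ∀ w : ℂ, σ ≤ w.re → w.re ≤ 2 →
      ‖g (w + t * I)‖ ≤ |C| * Real.log (|w.im + t| + 3) := fun w a1 a2 => by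
    have := hC (w + t * I) (by simpa using a1) (by simp; linarith)
    simp only [add_im, mul_im, ofReal_re, I_im, mul_one, ofReal_im, I_re, mul_zero,
      add_zero] at this
    exact this.trans (mul_le_mul_of_nonneg_right (le_abs_self _)
      (Real.log_nonneg (by linarith [abs_nonneg (w.im + t)])))
  obtain ⟨M, hM⟩ : ∃ M, M = 4 * (|C| * (Real.log (t + 3) + 3)) * (x : ℝ) ^ (2 : ℝ) := ⟨_, rfl⟩
  have hb : ∀ w : ℂ, σ ≤ w.re → w.re ≤ 2 → ‖g (w + t * I) * KR x w‖ ≤ M * h_Shift w.im := by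
    intro w a1 a2
    have a3 : 0 ≤ Real.log (t + 3) := Real.log_nonneg (by linarith)
    refine (KR_Shift hx (by linarith) (M := |C| * (Real.log (t + 3) + 3))
      ((hg w a1 a2).trans ?_)).trans ?_
    · rw [mul_assoc]
      refine mul_le_mul_of_nonneg_left ?_ (abs_nonneg _)
      have a4 : |w.im + t| + 3 ≤ (t + 3) * (1 + |w.im|) := by
        have := abs_add_le w.im t
        rw [abs_of_pos (show 0 < t by linarith)] at this
        nlinarith [abs_nonneg w.im]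
      have a5 := Real.log_le_log (by positivity) a4
      rw [Real.log_mul (by linarith) (by positivity)] at a5
      nlinarith [log_q_Shift w.im, one_le_q_Shift w.im]
    · rw [hM]
      exact mul_le_mul_of_nonneg_right (mul_le_mul_of_nonneg_left
        (Real.rpow_le_rpow_of_exponent_le hx' a2) (by positivity))
        (Real.rpow_nonneg (by positivity) _)
  have hi : ∀ c : ℝ, σ ≤ c → c ≤ 2 →
      Integrable fun v : ℝ => g (c + v * I + t * I) * KR x (c + v * I) := by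
    intro c c1 c2
    refine (int_h_Shift.const_mul M).mono' (Continuous.aestronglyMeasurable
      (continuous_iff_continuousAt.2 fun v => ?_)) (Eventually.of_forall fun v => ?_)
    · exact ContinuousAt.comp (f := fun v : ℝ => (c : ℂ) + v * I)
        (hf _ (by simpa using c1)).continuousAt (by fun_prop)
    · simpa using hb (c + v * I) (by simpa using c1) (by simpa using c2)
  have e := shift_gen_Shift (f := fun w => g (w + t * I) * KR x w) (a := σ) (b := 2)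
    (B := fun T => M * h_Shift T) (by linarith) (fun w a1 _ => hf w a1) (by
      have a1 : Tendsto (fun T : ℝ => 1 + ‖T‖ ^ 2) atTop atTop :=
        tendsto_atTop_add_const_left _ _ ((tendsto_pow_atTop two_ne_zero).comp
          tendsto_norm_atTop_atTop)
      have a2 := (tendsto_rpow_neg_atTop (y := (3 / 2 : ℝ) / 2) (by norm_num)).comp a1
      rw [← neg_div] at a2
      simpa [h_Shift] using a2.const_mul M) (Eventually.of_forall fun T w a1 a2 a3 => by
      refine (hb w a1 a2).trans (le_of_eq ?_)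
      rw [← a3, h_Shift, h_Shift, Real.norm_eq_abs, Real.norm_eq_abs, abs_abs])
    (hi σ le_rfl (by linarith)) (hi 2 (by linarith) le_rfl)
  refine ⟨by simpa using hi 2 (by linarith) le_rfl, ?_⟩
  rw [ofReal_ofNat] at e
  rw [← e]
  have l1 : 1 ≤ Real.log t := by
    rw [Real.le_log_iff_exp_le (by linarith)]
    linarith [Real.exp_one_lt_d9]
  have l2 : 1 ≤ Real.log t ^ a := Real.one_le_rpow l1 ha
  refine (norm_integral_le_of_norm_le (int_h_Shift.const_mul
    (4 * ((K * 2 ^ a + 5 * |C|) * Real.log t ^ a) * (x : ℝ) ^ σ))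
    (Eventually.of_forall fun v => ?_)).trans (le_of_eq ?_)
  · have q1 := one_le_q_Shift v
    have key : ‖g (σ + v * I + t * I)‖ ≤ (K * 2 ^ a + 5 * |C|) * Real.log t ^ a * q_Shift v := by
      have p1 : 0 ≤ K * 2 ^ a * Real.log t ^ a := by positivity
      have p2 : 0 ≤ 5 * |C| * q_Shift v := by positivity
      rcases le_or_gt |v| (t / 2) with h | h
      · obtain ⟨b1, b2⟩ := abs_le.1 h
        have b3 := hT0 (v + t) (by linarith)
        have b4 : 0 ≤ Real.log (v + t) := Real.log_nonneg (by linarith)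
        have b5 : Real.log (v + t) ≤ 2 * Real.log t := by
          have := Real.log_le_log (by linarith) (show v + t ≤ t ^ 2 by nlinarith)
          rwa [Real.log_pow, Nat.cast_ofNat] at this
        have b6 := Real.rpow_le_rpow b4 b5 ha
        rw [Real.mul_rpow (by norm_num) (by linarith)] at b6
        rw [Real.norm_of_nonneg (Real.rpow_nonneg b4 _), ofReal_add, add_mul, ← add_assoc] at b3
        have b7 := mul_le_mul_of_nonneg_left b6 hK0.le
        nlinarith [mul_le_mul_of_nonneg_left q1 p1, mul_nonneg p2 (zero_le_one.trans l2)]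
      · have b1 := hg (σ + v * I) (by simp) (by simp; linarith)
        simp only [add_im, mul_im, ofReal_re, I_im, mul_one, ofReal_im, I_re, mul_zero,
          add_zero, zero_add] at b1
        have b2 : |v + t| + 3 ≤ 3 * (1 + |v|) := by
          have := abs_add_le v t
          rw [abs_of_pos (show 0 < t by linarith)] at this
          linarith
        have b3 := Real.log_le_log (by positivity) b2
        rw [Real.log_mul (by norm_num) (by positivity)] at b3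
        have b4 := Real.log_le_sub_one_of_pos (show (0 : ℝ) < 3 by norm_num)
        have b5 := mul_le_mul_of_nonneg_left (show Real.log (|v + t| + 3) ≤ 5 * q_Shift v by
          linarith [log_q_Shift v]) (abs_nonneg C)
        nlinarith [mul_le_mul_of_nonneg_left l2 p2, mul_nonneg p1 (zero_le_one.trans q1)]
    simpa using KR_Shift hx (w := σ + v * I) (by simpa using h1.le) (by simpa using key)
  · rw [integral_const_mul]
    ring

end Pool.Agent.MP_d232b3_nt.Hz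

end

section
set_option autoImplicit false

open Complex MeasureTheory Filter Set Asymptotics
open scoped Real

namespace Pool.Agent.MP_d232b3_nt.Hz

theorem real_Pole {A B D q t v X : ℝ} (a0 : 0 ≤ A) (b0 : 0 ≤ B) (d0 : 0 ≤ D)
    (hA : A ^ 2 = 1 + (v + t) ^ 2) (hB : B ^ 2 = 4 + v ^ 2) (hD : D ^ 2 = 9 + v ^ 2) (hq0 : 0 < q)
    (hq : q ^ 4 = 1 + v ^ 2) (ht : 1 ≤ t) (hX : 0 ≤ X) :
    1 / A * (X / (B * D)) ≤ 2 * X / √t * (q ^ 3)⁻¹ := by
  have h1 : 1 ≤ A := by nlinarith [sq_nonneg (v + t)]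
  have h2 : q ^ 4 ≤ B * D := by
    refine le_of_sq_le_sq ?_ (by positivity)
    rw [mul_pow, hB, hD, hq]
    nlinarith [sq_nonneg v]
  have h3 : √t ≤ 2 * A * q := by
    refine le_of_pow_le_pow_left₀ (n := 4) (by norm_num) (by positivity) ?_
    have e1 : √t ^ 4 = t ^ 2 := by
      rw [show 4 = 2 * 2 from rfl, pow_mul, Real.sq_sqrt (by linarith)]
    have e2 : (2 * A * q) ^ 4 = 16 * (A ^ 2 * A ^ 2) * q ^ 4 := by ring
    rw [e1, e2, hA, hq]
    have k1 := sq_nonneg (v + t)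
    have k2 := sq_nonneg v
    nlinarith [sq_nonneg (2 * v + t), mul_nonneg k1 k2, mul_nonneg (mul_nonneg k1 k1) k2,
      mul_nonneg k1 k1]
  have h4 : 0 < √t := Real.sqrt_pos.2 (by linarith)
  calc 1 / A * (X / (B * D)) ≤ 1 / A * (X / q ^ 4) := by gcongr
    _ = 2 * X / (2 * A * q) * (q ^ 3)⁻¹ := by field_simp
    _ ≤ 2 * X / √t * (q ^ 3)⁻¹ := by gcongr

theorem bd_Pole {x : ℕ} (hx : 1 ≤ x) {t : ℝ} (ht : 1 ≤ t) (v : ℝ) :
    ‖1 / (2 + v * I + t * I - 1) * KR x (2 + v * I)‖ ≤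
      2 * (x : ℝ) ^ 2 / √t * (1 + ‖v‖ ^ 2) ^ (-(3 / 2 : ℝ) / 2) := by
  have hw : 0 < 1 + v ^ 2 := by positivity
  obtain ⟨q, hq0, hq, hq'⟩ : ∃ q : ℝ, 0 < q ∧ q ^ 4 = 1 + v ^ 2 ∧
      (1 + v ^ 2) ^ (-(3 / 2 : ℝ) / 2) = (q ^ 3)⁻¹ := by
    refine ⟨(1 + v ^ 2) ^ (1 / 4 : ℝ), by positivity, ?_, ?_⟩
    · rw [← Real.rpow_natCast, ← Real.rpow_mul hw.le]
      norm_num
    · rw [← Real.rpow_natCast _ 3, ← Real.rpow_mul hw.le, ← Real.rpow_neg hw.le]
      norm_num
  have hA : ‖2 + v * I + t * I - 1‖ ^ 2 = 1 + (v + t) ^ 2 := by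
    rw [Complex.sq_norm, normSq_apply]
    simp
    ring
  have hB : ‖(2 + v * I : ℂ)‖ ^ 2 = 4 + v ^ 2 := by
    rw [Complex.sq_norm, normSq_apply]
    simp
    ring
  have hC : ‖(2 + v * I + 1 : ℂ)‖ ^ 2 = 9 + v ^ 2 := by
    rw [Complex.sq_norm, normSq_apply]
    simp
    ring
  have hx2 : ‖(x : ℂ) ^ (2 + v * I : ℂ)‖ = (x : ℝ) ^ 2 := by
    rw [norm_natCast_cpow_of_pos hx]
    simp
  rw [KR, norm_mul, norm_div, norm_div, norm_mul, norm_one, hx2, Real.norm_eq_abs, sq_abs, hq']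
  exact real_Pole (norm_nonneg _) (norm_nonneg _) (norm_nonneg _) hA hB hC hq0 hq ht (by positivity)

theorem sPole : SPole := by
  have hi : Integrable fun v : ℝ => (1 + ‖v‖ ^ 2) ^ (-(3 / 2 : ℝ) / 2) :=
    integrable_rpow_neg_one_add_norm_sq (by norm_num)
  refine ⟨2 * ∫ v : ℝ, (1 + ‖v‖ ^ 2) ^ (-(3 / 2 : ℝ) / 2), fun x t hx ht => ⟨?_, ?_⟩⟩
  · refine (hi.const_mul _).mono' ?_ (Eventually.of_forall (bd_Pole hx ht))
    refine Measurable.aestronglyMeasurable ?_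
    unfold KR
    fun_prop
  · refine (norm_integral_le_of_norm_le (hi.const_mul _)
      (Eventually.of_forall (bd_Pole hx ht))).trans_eq ?_
    rw [integral_const_mul]
    ring

end Pool.Agent.MP_d232b3_nt.Hz

end

section
/-! A large value of a Dirichlet polynomial over primes, from one twisted moment. -/

set_option autoImplicit false

open Complex MeasureTheory Filter Set Asymptotics
open scoped Real

namespace Pool.Agent.MP_d232b3_nt.Hz

theorem gap_lt_LowM {u v : ℕ} {X : ℝ} (hu : u ≠ 0) (h : u < v) (hv : (v : ℝ) ≤ X) :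
    1 ≤ X * (Real.log v - Real.log u) := by
  have hu0 : (0 : ℝ) < u := by positivity
  have huv : (u : ℝ) + 1 ≤ v := by exact_mod_cast h
  have hv0 : (0 : ℝ) < v := by linarith
  have h1 := Real.one_sub_inv_le_log_of_pos (div_pos hv0 hu0)
  rw [Real.log_div hv0.ne' hu0.ne', inv_div] at h1
  have h2 : 1 ≤ (v : ℝ) * (1 - u / v) := by
    rw [mul_sub, mul_one, mul_div_cancel₀ _ hv0.ne']; linarith
  have h3 : 0 ≤ 1 - (u : ℝ) / v := by
    rw [sub_nonneg, div_le_one hv0]; linarith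
  calc (1 : ℝ) ≤ v * (1 - u / v) := h2
    _ ≤ X * (Real.log v - Real.log u) := mul_le_mul hv h1 h3 (by linarith)

theorem gap_LowM {u v : ℕ} {X : ℝ} (hu : u ≠ 0) (hv : v ≠ 0) (h : u ≠ v) (hux : (u : ℝ) ≤ X)
    (hvx : (v : ℝ) ≤ X) : 1 ≤ X * |Real.log v - Real.log u| := by
  have hX : 0 ≤ X := le_trans (Nat.cast_nonneg _) hux
  rcases lt_or_gt_of_ne h with h | h
  · exact (gap_lt_LowM hu h hvx).trans (mul_le_mul_of_nonneg_left (le_abs_self _) hX)
  · rw [abs_sub_comm]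
    exact (gap_lt_LowM hv h hux).trans (mul_le_mul_of_nonneg_left (le_abs_self _) hX)

theorem osc_LowM {c X : ℝ} (h : 1 ≤ X * |c|) (a b : ℝ) :
    ‖∫ t in a..b, cexp ((c * I) * t)‖ ≤ 2 * X := by
  have hc : c ≠ 0 := by rintro rfl; norm_num at h
  have hc' : (c * I : ℂ) ≠ 0 := mul_ne_zero (by exact_mod_cast hc) I_ne_zero
  have e : ∀ t : ℝ, ‖cexp ((c * I) * t)‖ = 1 := fun t => by
    rw [show (c * I : ℂ) * t = ((c * t : ℝ) : ℂ) * I by push_cast; ring, norm_exp_ofReal_mul_I]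
  rw [integral_exp_mul_complex hc', norm_div, norm_mul, norm_I, mul_one, norm_real,
    Real.norm_eq_abs, div_le_iff₀ (abs_pos.2 hc)]
  have := norm_sub_le (cexp ((c * I) * b)) (cexp ((c * I) * a))
  rw [e, e] at this
  linarith

theorem fact_LowM {n : ℕ} (hn : 1 ≤ n) : 2 * ((n : ℝ) / 4) ^ n < n.factorial := by
  rcases eq_or_lt_of_le hn with rfl | h
  · norm_num
  obtain ⟨k, rfl⟩ : ∃ k, n = k + 2 := ⟨n - 2, by omega⟩
  set n := k + 2 with hn'
  have hf : (0 : ℝ) < n.factorial := by positivity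
  have h1 := Real.pow_div_factorial_le_exp (n : ℝ) (by positivity) n
  rw [div_le_iff₀ hf, ← Real.exp_one_pow] at h1
  have he := Real.exp_one_lt_d9
  have he0 := Real.exp_pos 1
  have h2 : Real.exp 1 ^ k ≤ 4 ^ k := pow_le_pow_left₀ he0.le (by linarith) k
  have h3 : Real.exp 1 ^ 2 < 8 := by nlinarith
  have h4 : 2 * Real.exp 1 ^ n < 4 ^ n := by
    rw [hn', pow_add, pow_add]
    have : (0 : ℝ) < 4 ^ k := by positivity
    have : (0 : ℝ) < Real.exp 1 ^ 2 := by positivity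
    nlinarith
  rw [div_pow, ← mul_div_assoc, div_lt_iff₀ (by positivity)]
  nlinarith

theorem expand_LowM (χ : ℕ →*₀ ℂ) (a : ℕ → ℝ) {n : ℕ} (f : Fin n → ℕ) (hf : ∀ i, f i ≠ 0)
    (N : ℕ) (t : ℝ) :
    (∏ i, (a (f i) : ℂ) * (χ (f i) * ph (-t) (f i))) * ((starRingEnd ℂ) (χ N) * ph t N) =
      (((∏ i, a (f i) : ℝ) : ℂ) * (χ (∏ i, f i) * (starRingEnd ℂ) (χ N))) *
        cexp ((((Real.log N - Real.log ((∏ i, f i : ℕ) : ℝ) : ℝ) : ℂ) * I) * t) := by
  have e1 : Real.log ((∏ i, f i : ℕ) : ℝ) = ∑ i, Real.log (f i) := by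
    rw [Nat.cast_prod, Real.log_prod (fun i _ => by exact_mod_cast hf i)]
  have e2 : ∏ i, ph (-t) (f i) = cexp (((-t * ∑ i, Real.log (f i) : ℝ) : ℂ) * I) := by
    simp only [ph]
    rw [← Complex.exp_sum, Finset.mul_sum, ofReal_sum, Finset.sum_mul]
  rw [Finset.prod_mul_distrib, Finset.prod_mul_distrib, e1, e2, map_prod χ, ofReal_prod, ph,
    show (((Real.log N - ∑ i, Real.log (f i) : ℝ) : ℂ) * I) * t =
      ((-t * ∑ i, Real.log (f i) : ℝ) : ℂ) * I + ((t * Real.log N : ℝ) : ℂ) * I by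
        rw [ofReal_sub, ofReal_mul, ofReal_mul, ofReal_neg]; ring, Complex.exp_add]
  ring

theorem diag_LowM (P S : Finset ℕ) (a : ℕ → ℝ) (α : ℝ) (ha : ∀ p ∈ P, 0 ≤ a p) (hS : S ⊆ P)
    (hα : 0 ≤ α) (hSa : ∀ p ∈ S, α ≤ a p) :
    (S.card.factorial : ℝ) * α ^ S.card ≤ ∑ f ∈ Fintype.piFinset (fun _ : Fin S.card => P),
      if ∏ i, f i = ∏ p ∈ S, p then ∏ i, a (f i) else 0 := by
  classical
  let g : Equiv.Perm (Fin S.card) → Fin S.card → ℕ := fun σ i => (S.equivFin.symm (σ i) : ℕ)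
  have hg : Function.Injective g := fun σ τ h => Equiv.ext fun i =>
    S.equivFin.symm.injective (Subtype.ext (congrFun h i))
  have hmem : ∀ σ i, g σ i ∈ S := fun σ i => (S.equivFin.symm (σ i)).2
  have hprod : ∀ σ, ∏ i, g σ i = ∏ p ∈ S, p := fun σ => by
    rw [← Finset.prod_coe_sort S (fun p => p)]
    exact Fintype.prod_equiv (σ.trans S.equivFin.symm) _ _ fun i => rfl
  calc (S.card.factorial : ℝ) * α ^ S.card = ∑ _σ : Equiv.Perm (Fin S.card), α ^ S.card := by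
        simp [Fintype.card_perm]
    _ ≤ ∑ σ : Equiv.Perm (Fin S.card),
        if ∏ i, g σ i = ∏ p ∈ S, p then ∏ i, a (g σ i) else 0 := by
        refine Finset.sum_le_sum fun σ _ => ?_
        rw [if_pos (hprod σ)]
        calc α ^ S.card = ∏ _i : Fin S.card, α := by simp
          _ ≤ _ := Finset.prod_le_prod (fun _ _ => hα) fun i _ => hSa _ (hmem σ i)
    _ = ∑ f ∈ Finset.univ.image g, if ∏ i, f i = ∏ p ∈ S, p then ∏ i, a (f i) else 0 :=
        (Finset.sum_image (f := fun f : Fin S.card → ℕ =>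
          if ∏ i, f i = ∏ p ∈ S, p then ∏ i, a (f i) else 0) fun σ _ τ _ h => hg h).symm
    _ ≤ _ := by
        refine Finset.sum_le_sum_of_subset_of_nonneg (fun f hf => ?_) fun f hf _ => ?_
        · obtain ⟨σ, -, rfl⟩ := Finset.mem_image.1 hf
          exact Fintype.mem_piFinset.2 fun i => hS (hmem σ i)
        · split_ifs
          · exact Finset.prod_nonneg fun i _ => ha _ (Fintype.mem_piFinset.1 hf i)
          · exact le_rfl

theorem sLowM : SLowM := by
  intro χ P S x a α T hχ hP hS hne hα hSa hT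
  by_contra hcon
  push Not at hcon
  have hn : 1 ≤ S.card := hne.card_pos
  have hd := diag_LowM P S a α (fun p hp => (hP p hp).2.2.1) hS (by linarith) hSa
  have hx1 : (1 : ℝ) ≤ x := by
    obtain ⟨p, hp⟩ := hne
    have := (hP p (hS hp)).2.1
    exact_mod_cast (by omega : 1 ≤ x)
  have hN0 : ∏ p ∈ S, p ≠ 0 := Finset.prod_ne_zero_iff.2 fun p hp => (hP p (hS hp)).1.ne_zero
  have hNx : ((∏ p ∈ S, p : ℕ) : ℝ) ≤ (x : ℝ) ^ S.card := by
    exact_mod_cast Finset.prod_le_pow_card S (fun p => p) x fun p hp => (hP p (hS hp)).2.1.le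
  have hPx : (P.card : ℝ) ≤ x := by
    have : P ⊆ Finset.range x := fun p hp => Finset.mem_range.2 (hP p hp).2.1
    exact_mod_cast (Finset.card_le_card this).trans (Finset.card_range x).le
  generalize ∏ p ∈ S, p = N at hd hN0 hNx
  generalize S.card = n at hd hn hNx hT hcon
  have hX : (1 : ℝ) ≤ (x : ℝ) ^ n := one_le_pow₀ hx1
  have hT' : 4 * ((x : ℝ) ^ n) ^ 3 ≤ T := by
    refine le_trans ?_ hT
    rw [← pow_mul]
    exact mul_le_mul_of_nonneg_left (pow_le_pow_right₀ hx1 (by omega)) (by norm_num)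
  have hT0 : 0 < T := lt_of_lt_of_le (by positivity) hT'
  set J : ℂ := ∫ t in T..(2 * T), (∑ p ∈ P, (a p : ℂ) * (χ p * ph (-t) p)) ^ n *
    ((starRingEnd ℂ) (χ N) * ph t N) with hJ
  have hup : ‖J‖ ≤ (α * n / 4) ^ n * T := by
    refine (intervalIntegral.norm_integral_le_of_norm_le_const (C := (α * n / 4) ^ n)
      fun t ht => ?_).trans ?_
    · rw [uIoc_of_le (by linarith)] at ht
      rw [norm_mul, norm_mul, norm_pow, norm_ph, RCLike.norm_conj, hχ N hN0, mul_one, mul_one]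
      exact pow_le_pow_left₀ (norm_nonneg _) (hcon t ⟨ht.1.le, ht.2⟩).le n
    · rw [show 2 * T - T = T by ring, abs_of_pos hT0]
  have hexp : J = ∑ f ∈ Fintype.piFinset (fun _ : Fin n => P),
      (((∏ i, a (f i) : ℝ) : ℂ) * (χ (∏ i, f i) * (starRingEnd ℂ) (χ N))) * ∫ t in T..(2 * T),
        cexp ((((Real.log N - Real.log ((∏ i, f i : ℕ) : ℝ) : ℝ) : ℂ) * I) * t) := by
    simp only [← intervalIntegral.integral_const_mul]
    rw [← intervalIntegral.integral_finsetSum fun f _ =>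
      Continuous.intervalIntegrable (by fun_prop) _ _]
    refine intervalIntegral.integral_congr fun t _ => ?_
    have := Finset.prod_univ_sum (fun _ : Fin n => P)
      (fun _ p => (a p : ℂ) * (χ p * ph (-t) p))
    rw [Finset.prod_const, Finset.card_univ, Fintype.card_fin] at this
    simp only [this, Finset.sum_mul]
    exact Finset.sum_congr rfl fun f hf =>
      expand_LowM χ a f (fun i => (hP _ (Fintype.mem_piFinset.1 hf i)).1.ne_zero) N t
  have hlow : ∑ f ∈ Fintype.piFinset (fun _ : Fin n => P),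
      (T * (if ∏ i, f i = N then ∏ i, a (f i) else 0) - 2 * ((x : ℝ) ^ n) ^ 2) ≤ J.re := by
    rw [hexp, re_sum]
    refine Finset.sum_le_sum fun f hf => ?_
    have hf' := fun i => hP _ (Fintype.mem_piFinset.1 hf i)
    split_ifs with h
    · rw [h, mul_conj, normSq_eq_norm_sq, hχ N hN0]
      simp only [sub_self, ofReal_zero, zero_mul, Complex.exp_zero,
        intervalIntegral.integral_const, one_pow, ofReal_one, mul_one, real_smul, ← ofReal_mul,
        ofReal_re]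
      nlinarith
    · have hb0 : ∏ i, f i ≠ 0 := Finset.prod_ne_zero_iff.2 fun i _ => (hf' i).1.ne_zero
      have hbx : ((∏ i, f i : ℕ) : ℝ) ≤ (x : ℝ) ^ n := by
        have := Finset.prod_le_pow_card Finset.univ f x fun i _ => (hf' i).2.1.le
        rw [Finset.card_univ, Fintype.card_fin] at this
        exact_mod_cast this
      have hw0 : 0 ≤ ∏ i, a (f i) := Finset.prod_nonneg fun i _ => (hf' i).2.2.1
      have hw : ∏ i, a (f i) ≤ (x : ℝ) ^ n := by
        calc ∏ i, a (f i) ≤ ∏ _i : Fin n, (x : ℝ) :=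
              Finset.prod_le_prod (fun i _ => (hf' i).2.2.1) fun i _ => (hf' i).2.2.2
          _ = _ := by simp
      have ho := osc_LowM (gap_LowM hb0 hN0 h hbx hNx) T (2 * T)
      refine le_trans ?_ (neg_le_of_abs_le (abs_re_le_norm _))
      rw [norm_mul, norm_mul, norm_mul, RCLike.norm_conj, hχ N hN0, hχ _ hb0, norm_real,
        Real.norm_of_nonneg hw0]
      have := mul_le_mul hw ho (norm_nonneg _) (by positivity)
      nlinarith
  rw [Finset.sum_sub_distrib, ← Finset.mul_sum, Finset.sum_const, Fintype.card_piFinset_const,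
    nsmul_eq_mul, Nat.cast_pow] at hlow
  have h1 : (P.card : ℝ) ^ n ≤ (x : ℝ) ^ n := pow_le_pow_left₀ (by positivity) hPx n
  have h2 := (re_le_norm J).trans hup
  have h3 := fact_LowM hn
  have h4 : (1 : ℝ) ≤ α ^ n := one_le_pow₀ hα
  have h5 : (1 : ℝ) ≤ n.factorial := by exact_mod_cast n.factorial_pos
  rw [mul_div_assoc, mul_pow] at h2
  have h6 : (P.card : ℝ) ^ n * (2 * ((x : ℝ) ^ n) ^ 2) ≤ T / 2 := by
    have := mul_le_mul_of_nonneg_right h1 (by positivity : (0 : ℝ) ≤ 2 * ((x : ℝ) ^ n) ^ 2)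
    nlinarith
  have h7 := mul_le_mul_of_nonneg_left hd hT0.le
  have h8 : T * 1 ≤ T * (n.factorial * α ^ n) :=
    mul_le_mul_of_nonneg_left (one_le_mul_of_one_le_of_one_le h5 h4) hT0.le
  have h9 := mul_lt_mul_of_pos_left h3 (by positivity : 0 < T * α ^ n)
  nlinarith

end Pool.Agent.MP_d232b3_nt.Hz

end

section
set_option autoImplicit false

open Complex MeasureTheory Filter Set Asymptotics
open scoped Real

namespace Pool.Agent.MP_d232b3_nt.Hz

theorem small_Low (e K : ℝ) (he : e < 1) : ∀ᶠ x : ℝ in atTop, K * x ^ e ≤ x / 2000 := by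
  have h := (tendsto_rpow_neg_atTop (sub_pos.2 he)).const_mul K
  rw [mul_zero] at h
  filter_upwards [h.eventually (ge_mem_nhds (by norm_num : (0 : ℝ) < 1 / 2000)),
    eventually_gt_atTop 0] with x h1 hx
  have h2 : x ^ e = x ^ (-(1 - e)) * x := by
    rw [← Real.rpow_add_one hx.ne']
    congr 1
    ring
  rw [h2, ← mul_assoc]
  nlinarith

theorem split_Low (χ : ℕ →*₀ ℂ) (hχ : ∀ n ≠ 0, ‖χ n‖ = 1) (x : ℕ) (t : ℝ) :
    ‖∑ p ∈ (Finset.Ico 1 x).filter Nat.Prime,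
        (((1 - p / x) * Real.log p : ℝ) : ℂ) * (χ p * ph (-t) p)‖ ≤
      ‖∑ n ∈ Finset.Ico 1 x, ((1 - n / x : ℝ) : ℂ) * (LC χ n * ph (-t) n)‖ +
        (Chebyshev.psi x - Chebyshev.theta x) := by
  rw [← Finset.sum_filter_add_sum_filter_not (Finset.Ico 1 x) Nat.Prime]
  have h1 : ∑ p ∈ (Finset.Ico 1 x).filter Nat.Prime,
        (((1 - p / x) * Real.log p : ℝ) : ℂ) * (χ p * ph (-t) p) =
      ∑ n ∈ (Finset.Ico 1 x).filter Nat.Prime, ((1 - n / x : ℝ) : ℂ) * (LC χ n * ph (-t) n) := by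
    refine Finset.sum_congr rfl fun p hp => ?_
    rw [LC, ArithmeticFunction.vonMangoldt_apply_prime (Finset.mem_filter.1 hp).2, ofReal_mul]
    ring
  have h2 : ‖∑ n ∈ (Finset.Ico 1 x).filter (fun n => ¬ n.Prime),
      ((1 - n / x : ℝ) : ℂ) * (LC χ n * ph (-t) n)‖ ≤ Chebyshev.psi x - Chebyshev.theta x := by
    rw [Chebyshev.psi_sub_theta_eq_sum_not_prime, Nat.floor_natCast]
    refine (norm_sum_le _ _).trans ((Finset.sum_le_sum fun n hn => ?_).trans
      (Finset.sum_le_sum_of_subset_of_nonneg (Finset.filter_subset_filter _ fun n hn => ?_)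
        fun _ _ _ => ArithmeticFunction.vonMangoldt_nonneg))
    · obtain ⟨h3, h4⟩ := Finset.mem_Ico.1 (Finset.mem_filter.1 hn).1
      have hx : (0 : ℝ) < x := by exact_mod_cast (by omega : 0 < x)
      have h5 : (n : ℝ) / x ≤ 1 := (div_le_one hx).2 (by exact_mod_cast h4.le)
      have h6 : (0 : ℝ) ≤ n / x := by positivity
      have h7 : (0 : ℝ) ≤ ArithmeticFunction.vonMangoldt n := ArithmeticFunction.vonMangoldt_nonneg
      rw [norm_mul, norm_mul, norm_ph, LC, norm_mul, hχ n (by omega), norm_real, norm_real,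
        Real.norm_of_nonneg h7, Real.norm_of_nonneg (by linarith)]
      nlinarith
    · obtain ⟨h3, h4⟩ := Finset.mem_Ico.1 hn
      exact Finset.mem_Ioc.2 ⟨by omega, h4.le⟩
  rw [h1]
  refine le_trans ?_ (add_le_add le_rfl h2)
  exact (norm_sub_le _ _).trans' (by rw [add_sub_cancel_right])

theorem big_Low (hM : SLowM) (hC : SCnt) (χ : ℕ →*₀ ℂ) (hχ : ∀ n ≠ 0, ‖χ n‖ = 1) :
    ∀ᶠ m : ℕ in atTop, ∀ x : ℕ, x = 2 * 4 ^ (m + 1) → ∃ t : ℝ, (x : ℝ) ^ 4 ≤ t ∧
      Real.log t ≤ 3 + 5 * x * Real.log x ∧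
      (x : ℝ) / 400 ≤ ‖∑ p ∈ (Finset.Ico 1 x).filter Nat.Prime,
        (((1 - p / x) * Real.log p : ℝ) : ℂ) * (χ p * ph (-t) p)‖ := by
  filter_upwards [hC, eventually_ge_atTop 2] with m hc hm x hx
  have h4 : (0 : ℝ) < 4 ^ m := by positivity
  have hX : (x : ℝ) = 8 * 4 ^ m := by
    rw [hx]
    push_cast
    ring
  have h41 : (1 : ℝ) ≤ 4 ^ m := one_le_pow₀ (by norm_num)
  have hx1 : (1 : ℝ) ≤ x := by linarith
  have hx0 : (0 : ℝ) < x := by linarith
  have hm' : (2 : ℝ) ≤ m := by exact_mod_cast hm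
  have hl : (1 : ℝ) ≤ Real.log 4 := by
    rw [show (4 : ℝ) = 2 ^ 2 by norm_num, Real.log_pow]
    have := Real.log_two_gt_d9
    push_cast
    linarith
  have hcard : 1 ≤ (blk m).card := by
    by_contra h
    rw [show (blk m).card = 0 by omega] at hc
    simp only [Nat.cast_zero, mul_zero] at hc
    linarith
  have hcx : ((blk m).card : ℝ) ≤ x := by
    have := card_blk_le m
    exact_mod_cast (by omega : (blk m).card ≤ x)
  obtain ⟨t, ⟨ht1, ht2⟩, ht⟩ := hM χ ((Finset.Ico 1 x).filter Nat.Prime) (blk m) x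
    (fun p => (1 - p / x) * Real.log p) (m * Real.log 4 / 2) (4 * (x : ℝ) ^ (5 * (blk m).card)) hχ
    (fun p hp => by
      obtain ⟨h1, h2⟩ := Finset.mem_filter.1 hp
      obtain ⟨h3, h5⟩ := Finset.mem_Ico.1 h1
      have h6 : (p : ℝ) ≤ x := by exact_mod_cast h5.le
      have h7 : (p : ℝ) / x ≤ 1 := (div_le_one hx0).2 h6
      have h8 : (0 : ℝ) ≤ p / x := by positivity
      have h9 : 0 ≤ Real.log p := Real.log_natCast_nonneg p
      have h10 : Real.log p ≤ p := Real.log_le_self (by positivity)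
      exact ⟨h2, h5, mul_nonneg (by linarith) h9, by nlinarith⟩)
    (fun p hp => by
      obtain ⟨⟨_, h2⟩, h3⟩ := mem_blk.1 hp
      exact Finset.mem_filter.2 ⟨Finset.mem_Ico.2 ⟨h3.one_le, by omega⟩, h3⟩)
    (Finset.card_pos.1 hcard) (by nlinarith)
    (fun p hp => by
      obtain ⟨⟨h1, h2⟩, h3⟩ := mem_blk.1 hp
      have h5 : (p : ℝ) / x ≤ 1 / 2 := by
        rw [div_le_iff₀ hx0]
        have : ((2 * p : ℕ) : ℝ) ≤ x := by exact_mod_cast (by omega : 2 * p ≤ x)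
        push_cast at this
        linarith
      have h6 : m * Real.log 4 ≤ Real.log p := by
        rw [← Real.log_pow]
        exact Real.log_le_log h4 (by exact_mod_cast h1)
      have h7 : 0 ≤ m * Real.log 4 := by positivity
      nlinarith) le_rfl
  have hp : (x : ℝ) ^ 4 ≤ (x : ℝ) ^ (5 * (blk m).card) := pow_le_pow_right₀ hx1 (by omega)
  have hp0 : (0 : ℝ) < (x : ℝ) ^ 4 := by positivity
  refine ⟨t, by linarith, ?_, le_trans ?_ ht⟩
  · have h1 : Real.log t ≤ Real.log (2 ^ 3 * (x : ℝ) ^ (5 * (blk m).card)) :=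
      Real.log_le_log (by linarith) (by linarith)
    rw [Real.log_mul (by norm_num) (by positivity), Real.log_pow, Real.log_pow] at h1
    have h2 := Real.log_two_lt_d9
    have h3 : 0 ≤ Real.log x := Real.log_natCast_nonneg x
    push_cast at h1
    nlinarith
  · have h1 : (0 : ℝ) ≤ (blk m).card := by positivity
    have h2 : (m : ℝ) * (blk m).card ≤ m * Real.log 4 * (blk m).card := by
      have : (m : ℝ) ≤ m * Real.log 4 := by nlinarith
      exact mul_le_mul_of_nonneg_right this h1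
    have h3 : 2 * ((blk m).card : ℝ) ≤ m * (blk m).card := mul_le_mul_of_nonneg_right hm' h1
    rw [hX]
    nlinarith

theorem sLow (hU : SU) (hA : SA) (hP : SPer) (hS : SShift) (hQ : SPole) (hM : SLowM)
    (hC : SCnt) : SLow := by
  intro χ k G hG σ ⟨hσ1, hσ2⟩ a ha
  by_contra hlt
  have hmax : max a 0 < 1 - σ := max_lt (not_le.1 hlt) (by linarith)
  obtain ⟨b, hb1, hb2⟩ := exists_between hmax
  have hb0 : 0 < b := (le_max_right _ _).trans_lt hb1
  have hab : a < b := (le_max_left _ _).trans_lt hb1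
  have hO := ha (b - a) (by linarith)
  rw [add_sub_cancel] at hO
  obtain ⟨hU1, hU2, -, hU4⟩ := hU χ k G hG
  obtain ⟨C₂, T, hC₂⟩ := hS (logDeriv G) σ b hσ1 hσ2 hb0.le
    (fun s hs => hU4 s (hσ1.trans_le hs)) (hA χ k G hG σ hσ1) hO
  obtain ⟨C₁, hC₁⟩ := hQ
  obtain ⟨C₃, hC₃⟩ := Chebyshev.psi_sub_theta_le_mul_sqrt
  obtain ⟨h, hh0, hh⟩ : ∃ h : ℝ, 0 < h ∧ σ + (1 + h) * b < 1 :=
    ⟨(1 - σ - b) / (2 * b), div_pos (by linarith) (by linarith), by
      have : (1 - σ - b) / (2 * b) * b = (1 - σ - b) / 2 := by field_simp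
      linarith⟩
  have htend : Tendsto (fun m : ℕ => ((2 * 4 ^ (m + 1) : ℕ) : ℝ)) atTop atTop :=
    tendsto_natCast_atTop_atTop.comp (tendsto_atTop_mono (fun m => by
      have := Nat.lt_pow_self (n := m + 1) (by norm_num : 1 < 4)
      change m ≤ _
      omega) tendsto_id)
  obtain ⟨m, hm, e1, e2, e3, e4, e5⟩ := ((big_Low hM hC χ hG.uni).and (htend.eventually
    ((small_Low 0 (k * |C₁|) one_pos).and ((small_Low _ (|C₂| * (3 + 5 / h) ^ b) hh).and
      ((small_Low (1 / 2) C₃ (by norm_num)).and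
        ((eventually_ge_atTop T).and (eventually_ge_atTop 1))))))).exists
  obtain ⟨t, ht1, ht2, ht3⟩ := hm _ rfl
  generalize 2 * 4 ^ (m + 1) = x at *
  have hx1 : 1 ≤ x := by exact_mod_cast e5
  have hx0 : (0 : ℝ) < x := by linarith
  have hxt : (x : ℝ) ≤ t := (le_self_pow₀ e5 (by norm_num)).trans ht1
  obtain ⟨i1, n1⟩ := hC₁ x t hx1 (e5.trans hxt)
  obtain ⟨i2, n2⟩ := hC₂ t (e4.trans hxt) x hx1
  have hper := hP (LC χ) x t hx1 hU2
  have hint : ∫ v : ℝ, LSeries (LC χ) (2 + v * I + t * I) * KR x (2 + v * I) =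
      k * (∫ v : ℝ, 1 / (2 + v * I + t * I - 1) * KR x (2 + v * I)) -
        ∫ v : ℝ, logDeriv G (2 + v * I + t * I) * KR x (2 + v * I) := by
    rw [← integral_const_mul, ← integral_sub (i1.const_mul _) i2]
    refine integral_congr_ae (Eventually.of_forall fun v => ?_)
    simp only
    rw [hU1 _ (by simp)]
    ring
  have b1 : C₁ * (x : ℝ) ^ 2 / √t ≤ |C₁| := by
    have h1 : (x : ℝ) ^ 2 ≤ √t := Real.le_sqrt_of_sq_le (by rw [← pow_mul]; exact ht1)
    have h2 : (0 : ℝ) < (x : ℝ) ^ 2 := by positivity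
    rw [div_le_iff₀ (by linarith)]
    exact mul_le_mul (le_abs_self _) h1 h2.le (abs_nonneg _)
  have b2 : C₂ * (x : ℝ) ^ σ * Real.log t ^ b ≤
      |C₂| * (3 + 5 / h) ^ b * (x : ℝ) ^ (σ + (1 + h) * b) := by
    have h0 : 0 ≤ Real.log t := Real.log_nonneg (e5.trans hxt)
    have h1 : Real.log t ≤ (3 + 5 / h) * (x : ℝ) ^ (1 + h) := by
      have h2 : Real.log x ≤ (x : ℝ) ^ h / h := Real.log_le_rpow_div hx0.le hh0
      have h3 : (1 : ℝ) ≤ (x : ℝ) ^ (1 + h) := Real.one_le_rpow e5 (by linarith)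
      have h4 : (x : ℝ) ^ (1 + h) = x * (x : ℝ) ^ h := by rw [Real.rpow_add hx0, Real.rpow_one]
      have h5 : 5 * x * Real.log x ≤ 5 * x * ((x : ℝ) ^ h / h) :=
        mul_le_mul_of_nonneg_left h2 (by positivity)
      have h6 : 5 * x * ((x : ℝ) ^ h / h) = 5 / h * (x : ℝ) ^ (1 + h) := by
        rw [h4]
        ring
      rw [add_mul]
      linarith
    have h2 := Real.rpow_le_rpow h0 h1 hb0.le
    rw [Real.mul_rpow (by positivity) (by positivity), ← Real.rpow_mul hx0.le] at h2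
    rw [Real.rpow_add hx0]
    calc C₂ * (x : ℝ) ^ σ * Real.log t ^ b
        ≤ |C₂| * (x : ℝ) ^ σ * ((3 + 5 / h) ^ b * (x : ℝ) ^ ((1 + h) * b)) :=
          mul_le_mul (mul_le_mul_of_nonneg_right (le_abs_self _) (by positivity)) h2
            (Real.rpow_nonneg h0 _) (by positivity)
      _ = _ := by ring
  have b3 := hC₃ x
  rw [Real.sqrt_eq_rpow] at b3
  have b4 := split_Low χ hG.uni x t
  have b5 := congrArg norm (hper.symm.trans hint)
  have b6 := norm_sub_le ((k : ℂ) * ∫ v : ℝ, 1 / (2 + v * I + t * I - 1) * KR x (2 + v * I))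
    (∫ v : ℝ, logDeriv G (2 + v * I + t * I) * KR x (2 + v * I))
  rw [← b5, norm_mul, norm_mul, norm_mul, norm_natCast, norm_real, Complex.norm_ofNat,
    Real.norm_of_nonneg Real.pi_pos.le] at b6
  have b7 := mul_le_mul_of_nonneg_left (n1.trans b1) (Nat.cast_nonneg (α := ℝ) k)
  rw [Real.rpow_zero, mul_one] at e1
  have b8 := Real.pi_gt_three
  have b9 := norm_nonneg (∑ n ∈ Finset.Ico 1 x, ((1 - n / x : ℝ) : ℂ) * (LC χ n * ph (-t) n))
  nlinarith

end Pool.Agent.MP_d232b3_nt.Hz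

end

section
set_option autoImplicit false

open Complex MeasureTheory Filter Set Asymptotics
open scoped Real

namespace Pool.Agent.MP_d232b3_nt.Hz

theorem mono_Conv {a b : ℝ} (h : a ≤ b) :
    (fun t : ℝ => Real.log t ^ a) =O[atTop] fun t : ℝ => Real.log t ^ b := by
  refine IsBigO.of_bound 1 ?_
  filter_upwards [Real.tendsto_log_atTop.eventually_ge_atTop 1] with t ht
  rw [one_mul, Real.norm_of_nonneg (Real.rpow_nonneg (by linarith) _),
    Real.norm_of_nonneg (Real.rpow_nonneg (by linarith) _)]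
  exact Real.rpow_le_rpow_of_exponent_le ht h

theorem one_Conv {g : ℂ → ℂ} {σ C : ℝ}
    (h : ∀ t : ℝ, ‖g (σ + t * I)‖ ≤ C * Real.log (|t| + 3)) :
    (fun t : ℝ => g (σ + t * I)) =O[atTop] fun t : ℝ => Real.log t ^ (1 : ℝ) := by
  refine IsBigO.of_bound (|C| * 2) ?_
  filter_upwards [eventually_ge_atTop (3 : ℝ)] with t ht
  have h0 : 0 ≤ Real.log t := Real.log_nonneg (by linarith)
  have h1 : Real.log (|t| + 3) ≤ 2 * Real.log t := by
    rw [abs_of_nonneg (by linarith), two_mul, ← Real.log_mul (by linarith) (by linarith)]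
    exact Real.log_le_log (by linarith) (by nlinarith)
  have h2 : 0 ≤ Real.log (|t| + 3) := Real.log_nonneg (by linarith [abs_nonneg t])
  rw [Real.rpow_one, Real.norm_of_nonneg h0, mul_assoc]
  exact (h t).trans ((mul_le_mul_of_nonneg_right (le_abs_self C) h2).trans
    (mul_le_mul_of_nonneg_left h1 (abs_nonneg C)))

theorem sConv (hU : SU) (hA : SA) (hB : SB) (hL : SLow) : SConv := by
  intro χ k G hG
  obtain ⟨-, -, hbd, hdiff⟩ := hU χ k G hG
  have key : ∀ σ₁ σ₂ a₁ a₂ l : ℝ, 1 / 2 < σ₁ → σ₁ < σ₂ → σ₂ ≤ 3 → 0 ≤ a₁ → 0 ≤ a₂ → 0 ≤ l →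
      l ≤ 1 →
      ((fun t : ℝ => logDeriv G (σ₁ + t * I)) =O[atTop] fun t : ℝ => Real.log t ^ a₁) →
      ((fun t : ℝ => logDeriv G (σ₂ + t * I)) =O[atTop] fun t : ℝ => Real.log t ^ a₂) →
      (fun t : ℝ => logDeriv G (((1 - l) * σ₁ + l * σ₂ : ℝ) + t * I)) =O[atTop]
        fun t : ℝ => Real.log t ^ ((1 - l) * a₁ + l * a₂) := by
    intro σ₁ σ₂ a₁ a₂ l h1 h2 h3 h4 h5 h6 h7
    obtain ⟨C, hC⟩ := hA χ k G hG σ₁ h1
    exact hB _ σ₁ σ₂ a₁ a₂ l h2 h4 h5 h6 h7 (fun s hs _ => hdiff s (h1.trans_le hs))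
      ⟨C, fun s hs hs' => hC s hs (hs'.trans h3)⟩
  have hup : ∀ σ ∈ Ioo (1 / 2 : ℝ) 1, 2 - 2 * σ ∈ Ex G σ := by
    rintro σ ⟨h1, h2⟩ ε hε
    obtain ⟨d, hd0, hd1, hd2⟩ : ∃ d : ℝ, 0 < d ∧ d ≤ ε / 2 ∧ d ≤ σ - 1 / 2 :=
      ⟨min (ε / 2) (σ - 1 / 2), lt_min (by linarith) (by linarith), min_le_left _ _,
        min_le_right _ _⟩
    obtain ⟨C, hC⟩ := hA χ k G hG (1 / 2 + d) (by linarith)
    obtain ⟨D, hD⟩ := hbd (1 + d) (by linarith)
    have h3 := key (1 / 2 + d) (1 + d) 1 0 (2 * (σ - (1 / 2 + d))) (by linarith) (by linarith)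
      (by linarith) zero_le_one le_rfl (by linarith) (by linarith)
      (one_Conv (C := C) fun t => by
        simpa using hC (((1 / 2 + d : ℝ) : ℂ) + t * I) (by simp) (by simp; linarith))
      (IsBigO.of_bound D (Eventually.of_forall fun t => by
        rw [Real.rpow_zero, norm_one, mul_one]
        exact hD _ (by simp)))
    rw [show (1 - 2 * (σ - (1 / 2 + d))) * (1 / 2 + d) + 2 * (σ - (1 / 2 + d)) * (1 + d) = σ by
      ring] at h3
    exact h3.trans (mono_Conv (by linarith))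
  have hbb : ∀ σ ∈ Ioo (1 / 2 : ℝ) 1, BddBelow (Ex G σ) := fun σ hσ =>
    ⟨1 - σ, fun a ha => hL χ k G hG σ hσ a ha⟩
  have hmem : ∀ σ ∈ Ioo (1 / 2 : ℝ) 1, nu G σ ∈ Ex G σ := by
    intro σ hσ ε hε
    obtain ⟨a, ha, hlt⟩ := exists_lt_of_csInf_lt ⟨_, hup σ hσ⟩
      (show sInf (Ex G σ) < sInf (Ex G σ) + ε / 2 by linarith)
    exact (ha (ε / 2) (by linarith)).trans (mono_Conv (by unfold nu; linarith))
  have hlow : ∀ σ ∈ Ioo (1 / 2 : ℝ) 1, 1 - σ ≤ nu G σ := fun σ hσ =>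
    hL χ k G hG σ hσ _ (hmem σ hσ)
  refine ⟨fun σ hσ => ⟨hmem σ hσ, fun a ha => csInf_le (hbb σ hσ) ha⟩, ?_,
    fun σ hσ => ⟨hlow σ hσ, csInf_le (hbb σ hσ) (hup σ hσ)⟩⟩
  refine LinearOrder.convexOn_of_lt (convex_Ioo _ _) fun x hx y hy hxy a b ha hb hab => ?_
  have hz : a • x + b • y ∈ Ioo (1 / 2 : ℝ) 1 := convex_Ioo _ _ hx hy ha.le hb.le hab
  refine csInf_le (hbb _ hz) fun ε hε => ?_
  have h1 := hlow x hx
  have h2 := hlow y hy
  have h3 := key x y (nu G x + ε) (nu G y + ε) b hx.1 hxy (by linarith [hy.2])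
    (by linarith [hx.2]) (by linarith [hy.2]) hb.le (by linarith) (hmem x hx ε hε) (hmem y hy ε hε)
  rw [show 1 - b = a by linarith, show a * (nu G x + ε) + b * (nu G y + ε) =
    a * nu G x + b * nu G y + ε by linear_combination ε * hab] at h3
  exact h3

end Pool.Agent.MP_d232b3_nt.Hz

end

section
set_option autoImplicit false

open Complex MeasureTheory Filter Set Asymptotics

namespace Pool.Agent.MP_d232b3_nt.Hz

/-- one term of the continuation -/
noncomputable def tm_ZGrow (n : ℕ) (s : ℂ) : ℂ :=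
  (s - 1) * (((n + 1 : ℝ) : ℝ) : ℂ) ^ (-s) +
    ((((n + 1 + 1 : ℝ) : ℝ) : ℂ) ^ (1 - s) - (((n + 1 : ℝ) : ℝ) : ℂ) ^ (1 - s))

theorem der_ZGrow {x : ℝ} (hx : 0 < x) (r : ℂ) :
    HasDerivAt (fun y : ℝ => (y : ℂ) ^ r) (r * (x : ℂ) ^ (r - 1)) x :=
  (Complex.hasStrictDerivAt_cpow_const (ofReal_mem_slitPlane.2 hx)).hasDerivAt.comp_ofReal

theorem bd_ZGrow (n : ℕ) {s : ℂ} (hs : 1 / 4 ≤ s.re) :
    ‖tm_ZGrow n s‖ ≤ ‖s - 1‖ * ‖s‖ * ((n : ℝ) + 1) ^ (-(5 / 4) : ℝ) := by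
  rw [tm_ZGrow]
  have hN : (1 : ℝ) ≤ n + 1 := by linarith [(n.cast_nonneg : (0 : ℝ) ≤ n)]
  generalize (n : ℝ) + 1 = N at hN ⊢
  have h1 := norm_image_sub_le_of_norm_deriv_le_segment' (a := N) (b := N + 1)
    (f := fun y : ℝ => (y : ℂ) ^ (-s)) (C := ‖s‖ * N ^ (-(5 / 4) : ℝ))
    (fun x hx => (der_ZGrow (by linarith [hx.1]) (-s)).hasDerivWithinAt) (fun x hx => by
      rw [norm_mul, norm_neg, norm_cpow_eq_rpow_re_of_pos (by linarith [hx.1])]
      refine mul_le_mul_of_nonneg_left ?_ (norm_nonneg _)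
      refine (Real.rpow_le_rpow_of_exponent_le (by linarith [hx.1]) (z := -(5 / 4)) ?_).trans
        (Real.rpow_le_rpow_of_nonpos (by linarith) hx.1 (by norm_num))
      simp only [sub_re, neg_re, one_re]
      linarith)
  have h2 := norm_image_sub_le_of_norm_deriv_le_segment' (a := N) (b := N + 1)
    (f := fun y : ℝ => (y : ℂ) ^ (1 - s) + (s - 1) * (N : ℂ) ^ (-s) * (y : ℂ))
    (C := ‖s - 1‖ * ‖s‖ * N ^ (-(5 / 4) : ℝ))
    (fun x hx => ((der_ZGrow (by linarith [hx.1]) (1 - s)).add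
      (((hasDerivAt_id (x : ℂ)).comp_ofReal).const_mul _)).hasDerivWithinAt) (fun x hx => by
      have e : (1 - s) * (x : ℂ) ^ (1 - s - 1) + (s - 1) * (N : ℂ) ^ (-s) * 1 =
          -((s - 1) * ((x : ℂ) ^ (-s) - (N : ℂ) ^ (-s))) := by
        rw [show 1 - s - 1 = -s by ring]
        ring
      rw [e, norm_neg, norm_mul, mul_assoc]
      refine mul_le_mul_of_nonneg_left ((h1 x ⟨hx.1, hx.2.le⟩).trans ?_) (norm_nonneg _)
      exact mul_le_of_le_one_right (by positivity) (by linarith [hx.2]))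
    (N + 1) ⟨by linarith, le_rfl⟩
  rw [add_sub_cancel_left, mul_one] at h2
  refine le_trans (le_of_eq ?_) h2
  congr 1
  push_cast
  ring

theorem sm_ZGrow : Summable fun n : ℕ => ((n : ℝ) + 1) ^ (-(5 / 4) : ℝ) := by
  have h := (summable_nat_add_iff 1).2
    (Real.summable_nat_rpow.2 (by norm_num : (-(5 / 4) : ℝ) < -1))
  simpa only [Nat.cast_add, Nat.cast_one] using h

theorem diff_ZGrow : DifferentiableOn ℂ (fun s => 1 + ∑' n, tm_ZGrow n s) {s | 1 / 4 < s.re} := by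
  refine DifferentiableOn.const_add _ fun z hz => ?_
  have hU : IsOpen ({s : ℂ | 1 / 4 < s.re} ∩ Metric.ball 0 (‖z‖ + 1)) :=
    (isOpen_lt continuous_const continuous_re).inter Metric.isOpen_ball
  have h := differentiableOn_tsum_of_summable_norm (F := tm_ZGrow)
    (sm_ZGrow.mul_left ((‖z‖ + 1 + 1) * (‖z‖ + 1))) (fun n s _ => by
      have h1 : (((n + 1 : ℝ) : ℝ) : ℂ) ≠ 0 := ofReal_ne_zero.2 (by positivity)
      have h2 : (((n + 1 + 1 : ℝ) : ℝ) : ℂ) ≠ 0 := ofReal_ne_zero.2 (by positivity)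
      exact (((differentiableAt_id.sub_const 1).mul
        (differentiableAt_id.neg.const_cpow (Or.inl h1))).add
        (((differentiableAt_id.const_sub 1).const_cpow (Or.inl h2)).sub
        ((differentiableAt_id.const_sub 1).const_cpow (Or.inl h1)))).differentiableWithinAt) hU
    fun n s hs => (bd_ZGrow n (le_of_lt hs.1)).trans (by
      have h1 := (mem_ball_zero_iff.1 hs.2).le
      have h2 := norm_sub_le s 1
      rw [norm_one] at h2
      gcongr
      linarith)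
  exact (h.differentiableAt (hU.mem_nhds ⟨hz, by simp⟩)).differentiableWithinAt

theorem eq_ZGrow {s : ℂ} (hs : 1 < s.re) : 1 + ∑' n, tm_ZGrow n s = riemannZeta₁ s := by
  have h1 : Summable fun n => tm_ZGrow n s :=
    Summable.of_norm_bounded (sm_ZGrow.mul_left _) fun n => bd_ZGrow n (by linarith)
  have h2 : Summable fun n : ℕ => 1 / ((n : ℂ) + 1) ^ s := by
    simpa only [Nat.cast_add, Nat.cast_one] using
      (summable_nat_add_iff 1).2 (summable_one_div_nat_cpow.2 hs)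
  have h3 : Tendsto (fun M : ℕ => (((M + 1 : ℝ) : ℝ) : ℂ) ^ (1 - s)) atTop (nhds 0) := by
    rw [tendsto_zero_iff_norm_tendsto_zero]
    refine ((tendsto_rpow_neg_atTop (sub_pos.2 hs)).comp
      (tendsto_atTop_add_const_right _ 1 tendsto_natCast_atTop_atTop)).congr fun M => ?_
    rw [norm_cpow_eq_rpow_re_of_pos (by positivity)]
    simp
  have h4 := (h2.hasSum.tendsto_sum_nat.const_mul (s - 1)).add (h3.sub_const 1)
  have h5 : ∀ M : ℕ, ∑ n ∈ Finset.range M, tm_ZGrow n s =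
      (s - 1) * ∑ n ∈ Finset.range M, 1 / ((n : ℂ) + 1) ^ s +
        ((((M + 1 : ℝ) : ℝ) : ℂ) ^ (1 - s) - 1) := by
    intro M
    induction M with
    | zero => simp
    | succ M ih =>
      rw [Finset.sum_range_succ, Finset.sum_range_succ, ih, tm_ZGrow, cpow_neg]
      push_cast
      ring
  have h6 := tendsto_nhds_unique h1.hasSum.tendsto_sum_nat (h4.congr fun M => (h5 M).symm)
  have h7 : s ≠ 1 := fun h => by simp [h] at hs
  rw [h6, ← zeta_eq_tsum_one_div_nat_add_one_cpow hs, riemannZeta_eq_inv_sub_mul h7,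
    mul_inv_cancel_left₀ (sub_ne_zero.2 h7)]
  ring

theorem zeta_grow : ∃ C : ℝ, ∀ s : ℂ, 1 / 2 ≤ s.re →
    ‖riemannZeta₁ s‖ ≤ C * (‖s‖ + 1) ^ (2 : ℝ) := by
  have hU : IsOpen {s : ℂ | 1 / 4 < s.re} := isOpen_lt continuous_const continuous_re
  have h := (diff_ZGrow.analyticOnNhd hU).eqOn_of_preconnected_of_eventuallyEq
    (differentiable_riemannZeta₁.differentiableOn.analyticOnNhd hU)
    (convex_halfSpace_re_gt (1 / 4)).isPreconnected (z₀ := 2) (by norm_num) (by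
      filter_upwards [(isOpen_lt continuous_const continuous_re).mem_nhds
        (show (2 : ℂ) ∈ {s : ℂ | 1 < s.re} by norm_num)] with s hs using eq_ZGrow hs)
  refine ⟨1 + ∑' n : ℕ, ((n : ℝ) + 1) ^ (-(5 / 4) : ℝ), fun s hs => ?_⟩
  have h0 : 0 ≤ ∑' n : ℕ, ((n : ℝ) + 1) ^ (-(5 / 4) : ℝ) := tsum_nonneg fun n => by positivity
  have h1 := tsum_of_norm_bounded (sm_ZGrow.hasSum.mul_left (‖s - 1‖ * ‖s‖))
    fun n => bd_ZGrow n (s := s) (by linarith)
  have h2 := norm_sub_le s 1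
  have h3 := norm_nonneg s
  rw [norm_one] at h2
  have h4 : ‖s - 1‖ * ‖s‖ ≤ (‖s‖ + 1) ^ 2 := by nlinarith
  rw [← h (show s ∈ {s : ℂ | 1 / 4 < s.re} by simp only [mem_ofPred_eq]; linarith),
    Real.rpow_two]
  refine (norm_add_le _ _).trans ?_
  rw [norm_one]
  nlinarith [mul_le_mul_of_nonneg_right h4 h0]

end Pool.Agent.MP_d232b3_nt.Hz

end

section
set_option autoImplicit false

open Complex MeasureTheory Filter Set Asymptotics

namespace Pool.Agent.MP_d232b3_nt.Hz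

/-- the trivial completely multiplicative function -/
noncomputable def chi_ZMem : ℕ →*₀ ℂ where
  toFun n := if n = 0 then 0 else 1
  map_zero' := by simp
  map_one' := by simp
  map_mul' a b := by
    by_cases ha : a = 0 <;> by_cases hb : b = 0 <;> simp [ha, hb]

lemma chi_eq_ZMem {n : ℕ} (hn : n ≠ 0) : chi_ZMem n = 1 := if_neg hn

lemma eq_ZMem {w : ℂ} (h1 : w ≠ 1) : riemannZeta₁ w = (w - 1) * riemannZeta w := by
  rw [riemannZeta_eq_inv_sub_mul h1, mul_inv_cancel_left₀ (sub_ne_zero.2 h1)]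

lemma ne_ZMem (hRH : RiemannHypothesis) {w : ℂ} (hw : 1 / 2 < w.re) : riemannZeta₁ w ≠ 0 := by
  intro h
  have h1 : w ≠ 1 := by
    rintro rfl
    simp at h
  have h2 : riemannZeta w = 0 := by rw [riemannZeta_eq_inv_sub_mul h1, h, mul_zero]
  have h3 := hRH w h2 ?_ h1
  · linarith
  · rintro ⟨n, rfl⟩
    simp at hw
    linarith [n.cast_nonneg (α := ℝ)]

lemma log_ZMem (hRH : RiemannHypothesis) {w : ℂ} (hw : 1 / 2 < w.re) (h1 : w ≠ 1) :
    logDeriv riemannZeta₁ w = logDeriv riemannZeta w + 1 / (w - 1) := by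
  have hz : riemannZeta w ≠ 0 := fun h => ne_ZMem hRH hw (by rw [eq_ZMem h1, h, mul_zero])
  have e : riemannZeta₁ =ᶠ[nhds w] fun s => (s - 1) * riemannZeta s := by
    filter_upwards [isOpen_ne.mem_nhds h1] with s hs using eq_ZMem hs
  have d : HasDerivAt (fun s => (s - 1) * riemannZeta s)
      (1 * riemannZeta w + (w - 1) * deriv riemannZeta w) w :=
    ((hasDerivAt_id w).sub_const 1).mul (differentiableAt_riemannZeta h1).hasDerivAt
  have h2 := sub_ne_zero.2 h1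
  rw [logDeriv_apply, logDeriv_apply, e.deriv_eq, d.deriv, eq_ZMem h1]
  field_simp
  ring

lemma small_ZMem (σ e : ℝ) :
    (fun t : ℝ => 1 / ((σ : ℂ) + t * I - 1)) =O[atTop] fun t : ℝ => Real.log t ^ e := by
  have h := (isLittleO_log_rpow_rpow_atTop (-e) one_pos).bound one_pos
  refine IsBigO.of_bound 1 ?_
  filter_upwards [h, eventually_gt_atTop 1] with t ht h1
  have hl : 0 < Real.log t := Real.log_pos h1
  have hp : 0 < Real.log t ^ e := Real.rpow_pos_of_pos hl e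
  have h0 : 0 < t := by linarith
  rw [Real.rpow_one, Real.rpow_neg hl.le, Real.norm_of_nonneg (inv_pos.2 hp).le,
    Real.norm_of_nonneg h0.le, one_mul] at ht
  have h2 : t ≤ ‖(σ : ℂ) + t * I - 1‖ := by
    simpa [abs_of_pos h0] using abs_im_le_norm ((σ : ℂ) + t * I - 1)
  rw [norm_div, norm_one, one_mul, Real.norm_of_nonneg hp.le, one_div]
  exact inv_le_of_inv_le₀ hp (ht.trans h2)

theorem zeta_mem (hG : ∃ C : ℝ, ∀ s : ℂ, 1 / 2 ≤ s.re → ‖riemannZeta₁ s‖ ≤ C * (‖s‖ + 1) ^ (2 : ℝ)) (hRH : RiemannHypothesis) : (∃ χ : ℕ →*₀ ℂ, (∀ n ≠ 0, χ n = 1) ∧ Cls χ 1 riemannZeta₁) ∧ ∀ σ ∈ Ioo (1 / 2 : ℝ) 1, Ex riemannZeta₁ σ = Ex riemannZeta σ := by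
  obtain ⟨C, hC⟩ := hG
  refine ⟨⟨chi_ZMem, fun n hn => chi_eq_ZMem hn, fun n hn => by rw [chi_eq_ZMem hn, norm_one],
    differentiable_riemannZeta₁.differentiableOn, fun s hs => ?_, fun s hs => ne_ZMem hRH hs,
    fun σ hσ => ⟨2, C, fun s hs => hC s (by linarith)⟩⟩, fun σ hσ => ?_⟩
  · have h1 : s ≠ 1 := by
      rintro rfl
      simp at hs
    rw [eq_ZMem h1, pow_one, ← LSeries_one_eq_riemannZeta hs]
    congr 1
    exact LSeries_congr (fun {n} hn => (chi_eq_ZMem hn).symm) s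
  · have e : ∀ t : ℝ, logDeriv riemannZeta₁ (σ + t * I)
        = logDeriv riemannZeta (σ + t * I) + 1 / ((σ : ℂ) + t * I - 1) := fun t => by
      refine log_ZMem hRH (by simpa using hσ.1) fun h => ?_
      have := congrArg re h
      simp at this
      linarith [hσ.2]
    ext a
    constructor
    · intro h ε hε
      refine ((h ε hε).sub (small_ZMem σ (a + ε))).congr_left fun t => ?_
      rw [e, add_sub_cancel_right]
    · intro h ε hε
      exact ((h ε hε).add (small_ZMem σ (a + ε))).congr_left fun t => (e t).symm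

end Pool.Agent.MP_d232b3_nt.Hz

end
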